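import Pool.Agent.Lib.MP_a75e15_an.NR.BD

/-!
# DL: the gap lemma (pure combinatorics)

PROOF. `P M` = the points whose distance to the previous element of `E` is at most `M`. Suppose the lemma fails: for every `M` there is `J ≥ M` such that every `a ∈ E`, `a ≥ J`, is bad: there is `j ≤ J` with
`M + ε j < j - j'` for all `j' ≤ j` with `a + j' ∈ E`. For the largest such `j'` all points of `(a + j' + M, a + j]` are in `P J \ P M`: more than `ε j ≥ (ε/2) (j + 1)` points of `[a, a + j]`. By strong induction on `n` (greedy covering)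
`(ε/2) #(E ∩ [A, A+n)) ≤ #((P J \ P M) ∩ [A, A+n+J+1))` for `A ≥ J`. Iterate: for every `r` there are `M`, `Js` with `r (ε/2) #(E ∩ [A, A+n)) ≤ #(P M ∩ [A, A+n+Js)) ≤ n + Js` for `A ≥ Js`: a contradiction to `¬ BD0 E` for `r ≥ 4 / (ε η)`.
-/

set_option autoImplicit false

open Filter Topology

namespace Pool.Agent.Lib.NRF

open Classical in
private noncomputable def DL_c (S : Set ℕ) (A n : ℕ) : ℕ := ((Finset.Ico A (A + n)).filter (fun k => k ∈ S)).card

private lemma DL_le (S : Set ℕ) (A n : ℕ) : DL_c S A n ≤ n := by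
  classical
  unfold DL_c
  refine (Finset.card_filter_le _ _).trans ?_
  rw [Nat.card_Ico]
  omega

private lemma DL_mono (S : Set ℕ) (A : ℕ) {m n : ℕ} (h : m ≤ n) : DL_c S A m ≤ DL_c S A n := by
  classical
  unfold DL_c
  refine Finset.card_le_card ?_
  intro x hx
  rw [Finset.mem_filter, Finset.mem_Ico] at hx ⊢
  exact ⟨⟨hx.1.1, by omega⟩, hx.2⟩

private lemma DL_add (S : Set ℕ) (A m n : ℕ) : DL_c S A (m + n) = DL_c S A m + DL_c S (A + m) n := by
  classical
  unfold DL_c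
  rw [← Finset.card_union_of_disjoint]
  · refine congrArg Finset.card ?_
    ext x
    simp only [Finset.mem_union, Finset.mem_filter, Finset.mem_Ico]
    constructor
    · rintro ⟨⟨h1, h2⟩, h3⟩
      by_cases h : x < A + m
      · exact Or.inl ⟨⟨h1, h⟩, h3⟩
      · exact Or.inr ⟨⟨by omega, by omega⟩, h3⟩
    · rintro (⟨⟨h1, h2⟩, h3⟩ | ⟨⟨h1, h2⟩, h3⟩)
      · exact ⟨⟨h1, by omega⟩, h3⟩
      · exact ⟨⟨by omega, by omega⟩, h3⟩
  · rw [Finset.disjoint_left]
    intro x h1 h2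
    rw [Finset.mem_filter, Finset.mem_Ico] at h1 h2
    omega

/-- the points whose distance to the previous element of `E` is at most `M` -/
private def DL_P (E : Set ℕ) (M : ℕ) : Set ℕ := {x | ∃ y ∈ E, y ≤ x ∧ x ≤ y + M}

private lemma DL_dis {S T U : Set ℕ} (hS : S ⊆ U) (hT : T ⊆ U) (hd : ∀ x ∈ S, x ∉ T) (A n : ℕ) :
    DL_c S A n + DL_c T A n ≤ DL_c U A n := by
  classical
  unfold DL_c
  rw [← Finset.card_union_of_disjoint]
  · refine Finset.card_le_card ?_
    intro x hx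
    rw [Finset.mem_union, Finset.mem_filter, Finset.mem_filter] at hx
    rw [Finset.mem_filter]
    rcases hx with ⟨h1, h2⟩ | ⟨h1, h2⟩
    · exact ⟨h1, hS h2⟩
    · exact ⟨h1, hT h2⟩
  · rw [Finset.disjoint_left]
    intro x h1 h2
    rw [Finset.mem_filter] at h1 h2
    exact hd x h1.2 h2.2

private lemma DL_card {S : Set ℕ} {A n : ℕ} {T : Finset ℕ} (h1 : T ⊆ Finset.Ico A (A + n)) (h2 : ∀ x ∈ T, x ∈ S) :
    T.card ≤ DL_c S A n := by
  classical
  unfold DL_c
  refine Finset.card_le_card fun x hx => ?_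
  rw [Finset.mem_filter]
  exact ⟨h1 hx, h2 x hx⟩

private lemma DL_split (E : Set ℕ) {M J : ℕ} (h : M ≤ J) (A n : ℕ) :
    DL_c (DL_P E M) A n + DL_c (DL_P E J \ DL_P E M) A n ≤ DL_c (DL_P E J) A n := by
  refine DL_dis ?_ (fun x hx => hx.1) (fun x h1 h2 => h2.2 h1) A n
  rintro x ⟨y, hy, h2, h3⟩
  exact ⟨y, hy, h2, by omega⟩

/-- the points of a bad interval -/
private lemma DL_pts {E : Set ℕ} {ε : ℝ} (hε : 0 < ε) {M J A j : ℕ} (hA : A ∈ E) (hj : j ≤ J)
    (hb : ∀ j' : ℕ, j' ≤ j → A + j' ∈ E → (M : ℝ) + ε * j < (j : ℝ) - j') :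
    ε / 2 * ((j : ℝ) + 1) ≤ DL_c (DL_P E J \ DL_P E M) A (j + 1) := by
  classical
  have hj1 : 1 ≤ j := by
    by_contra h
    have h0 : j = 0 := by omega
    have h1 := hb 0 (Nat.zero_le _) (by simpa using hA)
    rw [h0] at h1
    push_cast at h1
    have : (0 : ℝ) ≤ M := Nat.cast_nonneg _
    linarith
  -- the last element of `E` in the interval
  obtain ⟨j0, ⟨hj0, hj0E⟩, hmax⟩ : ∃ j0, (j0 ≤ j ∧ A + j0 ∈ E) ∧ ∀ j' ≤ j, A + j' ∈ E → j' ≤ j0 := by
    have hne : ((Finset.range (j + 1)).filter (fun t => A + t ∈ E)).Nonempty :=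
      ⟨0, by simp [hA]⟩
    obtain ⟨j0, h1, h2⟩ := Finset.exists_max_image _ (fun t => t) hne
    rw [Finset.mem_filter, Finset.mem_range] at h1
    refine ⟨j0, ⟨by omega, h1.2⟩, ?_⟩
    intro j' hj' hE
    exact h2 j' (by rw [Finset.mem_filter, Finset.mem_range]; exact ⟨by omega, hE⟩)
  have hgap := hb j0 hj0 hj0E
  have hcard : (Finset.Ioc (A + j0 + M) (A + j)).card ≤ DL_c (DL_P E J \ DL_P E M) A (j + 1) := by
    refine DL_card ?_ ?_
    · intro x hx
      rw [Finset.mem_Ioc] at hx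
      rw [Finset.mem_Ico]
      omega
    · intro x hx
      rw [Finset.mem_Ioc] at hx
      refine ⟨⟨A, hA, by omega, by omega⟩, ?_⟩
      rintro ⟨y, hy, h1, h2⟩
      have h3 : y ≤ A + j0 := by
        by_contra h
        have h4 := hmax (y - A) (by omega) (by rw [show A + (y - A) = y by omega]; exact hy)
        omega
      omega
  rw [Nat.card_Ioc] at hcard
  have h1 : (j : ℝ) - j0 - M ≤ ((A + j - (A + j0 + M) : ℕ) : ℝ) := by
    have : ((A + j : ℕ) : ℝ) - ((A + j0 + M : ℕ) : ℝ) ≤ ((A + j - (A + j0 + M) : ℕ) : ℝ) := by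
      rcases le_total (A + j0 + M) (A + j) with h | h
      · rw [Nat.cast_sub h]
      · have h2 : ((A + j : ℕ) : ℝ) ≤ ((A + j0 + M : ℕ) : ℝ) := by exact_mod_cast h
        have h3 : (0 : ℝ) ≤ ((A + j - (A + j0 + M) : ℕ) : ℝ) := Nat.cast_nonneg _
        linarith
    push_cast at this ⊢
    linarith
  have h2 : ((A + j - (A + j0 + M) : ℕ) : ℝ) ≤ DL_c (DL_P E J \ DL_P E M) A (j + 1) := by
    exact_mod_cast hcard
  have h3 : (1 : ℝ) ≤ j := by exact_mod_cast hj1
  nlinarith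

/-- one level -/
private lemma DL_step {E : Set ℕ} {ε : ℝ} (hε : 0 < ε) {M J : ℕ}
    (hb : ∀ a : ℕ, J ≤ a → a ∈ E → ∃ j : ℕ, j ≤ J ∧ ∀ j' : ℕ, j' ≤ j → a + j' ∈ E → (M : ℝ) + ε * j < (j : ℝ) - j') (n : ℕ) :
    ∀ A : ℕ, J ≤ A → ε / 2 * (DL_c E A n : ℝ) ≤ DL_c (DL_P E J \ DL_P E M) A (n + (J + 1)) := by
  classical
  induction n using Nat.strong_induction_on with
  | _ n ih =>
    intro A hA
    rcases Nat.eq_zero_or_pos n with h0 | h0
    · have h1 : DL_c E A n = 0 := by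
        have := DL_le E A n
        omega
      rw [h1]
      simp
    by_cases hE : A ∈ E
    · obtain ⟨j, hj, hb'⟩ := hb A hA hE
      have hp := DL_pts hε hE hj hb'
      by_cases hjn : j + 1 ≤ n
      · obtain ⟨m, rfl⟩ := Nat.exists_eq_add_of_le hjn
        have h1 := ih m (by omega) (A + (j + 1)) (by omega)
        rw [DL_add E A (j + 1) m, add_assoc (j + 1) m (J + 1), DL_add _ A (j + 1) (m + (J + 1))]
        have h2 : (DL_c E A (j + 1) : ℝ) ≤ (j : ℝ) + 1 := by exact_mod_cast DL_le E A (j + 1)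
        have h3 : ε / 2 * (DL_c E A (j + 1) : ℝ) ≤ ε / 2 * ((j : ℝ) + 1) := mul_le_mul_of_nonneg_left h2 (by positivity)
        push_cast
        linarith
      · have h1 : DL_c (DL_P E J \ DL_P E M) A (j + 1) ≤ DL_c (DL_P E J \ DL_P E M) A (n + (J + 1)) :=
          DL_mono _ _ (by omega)
        have h1' : (DL_c (DL_P E J \ DL_P E M) A (j + 1) : ℝ) ≤ DL_c (DL_P E J \ DL_P E M) A (n + (J + 1)) := by
          exact_mod_cast h1
        have h2 : (DL_c E A n : ℝ) ≤ (j : ℝ) + 1 := by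
          have h3 := DL_le E A n
          have h4 : DL_c E A n ≤ j + 1 := by omega
          exact_mod_cast h4
        have h3 : ε / 2 * (DL_c E A n : ℝ) ≤ ε / 2 * ((j : ℝ) + 1) := mul_le_mul_of_nonneg_left h2 (by positivity)
        linarith
    · obtain ⟨m, rfl⟩ : ∃ m, n = 1 + m := ⟨n - 1, by omega⟩
      have h1 := ih m (by omega) (A + 1) (by omega)
      rw [DL_add E A 1 m, add_assoc 1 m (J + 1), DL_add _ A 1 (m + (J + 1))]
      have h2 : DL_c E A 1 = 0 := by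
        unfold DL_c
        rw [Finset.card_eq_zero, Finset.filter_eq_empty_iff]
        intro x hx hxE
        rw [Finset.mem_Ico] at hx
        have : x = A := by omega
        exact hE (this ▸ hxE)
      rw [h2]
      push_cast
      have h3 : (0 : ℝ) ≤ DL_c (DL_P E J \ DL_P E M) A 1 := Nat.cast_nonneg _
      linarith

theorem DL {E : Set ℕ} (hE : ¬ BD0 E) {ε : ℝ} (hε : 0 < ε) : ∃ M : ℕ, ∀ J : ℕ, ∃ a : ℕ, J ≤ a ∧ a ∈ E ∧
    ∀ j : ℕ, j ≤ J → ∃ j' : ℕ, j' ≤ j ∧ a + j' ∈ E ∧ (j : ℝ) - j' ≤ M + ε * j := by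
  classical
  by_contra hcon
  push Not at hcon
  -- all levels
  have hlev : ∀ r : ℕ, ∃ M Js : ℕ, ∀ A : ℕ, Js ≤ A → ∀ n : ℕ,
      (r : ℝ) * (ε / 2) * (DL_c E A n : ℝ) ≤ DL_c (DL_P E M) A (n + Js) := by
    intro r
    induction r with
    | zero =>
      refine ⟨0, 0, fun A _ n => ?_⟩
      rw [Nat.cast_zero, zero_mul, zero_mul]
      exact Nat.cast_nonneg _
    | succ r ih =>
      obtain ⟨M, Js, h⟩ := ih
      obtain ⟨J0, hJ0⟩ := hcon M
      have hb : ∀ a : ℕ, max J0 M ≤ a → a ∈ E → ∃ j : ℕ, j ≤ max J0 M ∧ ∀ j' : ℕ, j' ≤ j → a + j' ∈ E →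
          (M : ℝ) + ε * j < (j : ℝ) - j' := by
        intro a ha haE
        obtain ⟨j, hj, hj'⟩ := hJ0 a ((le_max_left _ _).trans ha) haE
        exact ⟨j, hj.trans (le_max_left _ _), hj'⟩
      refine ⟨max J0 M, max Js (max J0 M + 1), fun A hA n => ?_⟩
      have hA1 : Js ≤ A := (le_max_left _ _).trans hA
      have hA2 : max J0 M ≤ A := by
        have := (le_max_right Js (max J0 M + 1)).trans hA
        omega
      have h1 := h A hA1 n
      have h2 := DL_step hε hb n A hA2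
      have h3 := DL_split E (le_max_right J0 M) A (n + max Js (max J0 M + 1))
      have h4 : DL_c (DL_P E M) A (n + Js) ≤ DL_c (DL_P E M) A (n + max Js (max J0 M + 1)) :=
        DL_mono _ _ (Nat.add_le_add_left (le_max_left _ _) _)
      have h5 : DL_c (DL_P E (max J0 M) \ DL_P E M) A (n + (max J0 M + 1)) ≤
          DL_c (DL_P E (max J0 M) \ DL_P E M) A (n + max Js (max J0 M + 1)) :=
        DL_mono _ _ (Nat.add_le_add_left (le_max_right _ _) _)
      have h3' : (DL_c (DL_P E M) A (n + max Js (max J0 M + 1)) : ℝ) +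
          DL_c (DL_P E (max J0 M) \ DL_P E M) A (n + max Js (max J0 M + 1)) ≤
          DL_c (DL_P E (max J0 M)) A (n + max Js (max J0 M + 1)) := by exact_mod_cast h3
      have h4' : (DL_c (DL_P E M) A (n + Js) : ℝ) ≤ DL_c (DL_P E M) A (n + max Js (max J0 M + 1)) := by exact_mod_cast h4
      have h5' : (DL_c (DL_P E (max J0 M) \ DL_P E M) A (n + (max J0 M + 1)) : ℝ) ≤
          DL_c (DL_P E (max J0 M) \ DL_P E M) A (n + max Js (max J0 M + 1)) := by exact_mod_cast h5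
      have h6 : ((r + 1 : ℕ) : ℝ) * (ε / 2) * (DL_c E A n : ℝ) = (r : ℝ) * (ε / 2) * (DL_c E A n : ℝ) + ε / 2 * (DL_c E A n : ℝ) := by
        push_cast
        ring
      rw [h6]
      linarith
  -- windows of positive density
  unfold BD0 at hE
  push Not at hE
  obtain ⟨η, hη, hE⟩ := hE
  obtain ⟨r, hr⟩ := exists_nat_ge (4 / (ε * η))
  obtain ⟨M, Js, h⟩ := hlev r
  obtain ⟨K0, hK0⟩ := exists_nat_ge ((Js : ℝ) + r * (ε / 2) * Js + 1)
  obtain ⟨K, hK, A, hA⟩ := hE K0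
  have hA' : η * K < (DL_c E A K : ℝ) := by
    unfold DL_c
    exact hA
  have hsh : ∃ A' : ℕ, Js ≤ A' ∧ DL_c E A K ≤ Js + DL_c E A' K := by
    rcases le_total Js A with h1 | h1
    · exact ⟨A, h1, Nat.le_add_left _ _⟩
    · refine ⟨Js, le_rfl, ?_⟩
      have h2 := DL_mono E A (Nat.le_add_left K (Js - A))
      rw [DL_add E A (Js - A) K, show A + (Js - A) = Js by omega] at h2
      have h3 := DL_le E A (Js - A)
      omega
  obtain ⟨A', hA1, hA2⟩ := hsh
  have h1 := h A' hA1 K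
  have h2 : (DL_c (DL_P E M) A' (K + Js) : ℝ) ≤ (K : ℝ) + Js := by exact_mod_cast DL_le (DL_P E M) A' (K + Js)
  have h3 : (DL_c E A K : ℝ) ≤ Js + DL_c E A' K := by exact_mod_cast hA2
  have h4 : 2 ≤ (r : ℝ) * (ε / 2) * η := by
    rw [div_le_iff₀ (by positivity)] at hr
    linarith
  have h5 : (0 : ℝ) ≤ r * (ε / 2) := by positivity
  have h6 : (r : ℝ) * (ε / 2) * (η * K - Js) ≤ r * (ε / 2) * (DL_c E A' K : ℝ) :=
    mul_le_mul_of_nonneg_left (by linarith) h5
  have h7 : (0 : ℝ) ≤ K := Nat.cast_nonneg _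
  have h8 : (2 : ℝ) * K ≤ r * (ε / 2) * η * K := mul_le_mul_of_nonneg_right h4 h7
  have h9 : (K0 : ℝ) ≤ K := by exact_mod_cast hK
  linarith

end Pool.Agent.Lib.NRF
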