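import Pool.Agent.Lib.MP_a75e15_an.NR.KL
import Pool.Agent.Lib.MP_a75e15_an.NR.DL

/-!
# A1: the derivatives tend to zero in density

PROOF. Suppose not `BD0 E`, `E = {k | c ≤ ‖fderiv ℂ (F^[k]) Q w‖}`. `bdd`: `r`, `R`. `CA` for `R`, `s₀ = r/2`: constant `C`. For `k ∈ E` and `‖t‖ ≤ s := min (r/2) (c/(2C))`: `‖deriv (disc F Q w k) t‖ ≥ c - C ‖t‖ ≥ c/2` (`disc_deriv` at `0`).
`μ` from `PC_low` (for `R`). Choose `ε > 0` with `μ^(3 ε) ≥ (1+‖D‖)/2` (`Real.rpow`; e.g. `κ = ((1+‖D‖)/2)^(1/3)`, `ε = log κ/log μ`, so `μ^ε = κ`). `DL` with this `ε`: `M`. Put `c' = (c/2) μ^M`. For every `J` there is `a ≥ J` with: for `j ≤ J` there is `j' ≤ j`, `a + j' ∈ E`,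
`j - j' ≤ M + ε j`, so by `disc_deriv_succ` and `PC_low`, `j - j'` times: `‖deriv (disc F Q w (a+j)) t‖ ≥ μ^(j-j') c/2 ≥ (c/2) μ^M (μ^ε)^j = c' κ^j`. This contradicts `KL`.
-/

set_option autoImplicit false

open Filter Topology

namespace Pool.Agent.Lib.NRF

theorem A1 {F G : ℂ × ℂ → ℂ × ℂ} {D : ℂ} {Ω : Set (ℂ × ℂ)} (h : Ctx F G D Ω) (hD : ‖D‖ < 1) {Q : ℂ × ℂ}
    (hQ : Q ∈ Ω) {w : ℂ × ℂ} (hw : ‖w‖ ≤ 1) {c : ℝ} (hc : 0 < c) :
    BD0 {k : ℕ | c ≤ ‖fderiv ℂ (F^[k]) Q w‖} := by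
  by_contra hE
  obtain ⟨r, hr, R, hR, hball, hb⟩ := h.bdd Q hQ
  have hr2 : 0 < r / 2 := by positivity
  obtain ⟨C, hC1, hCA⟩ := CA hr2 hR
  have hC0 : 0 < C := by linarith
  have hs0 : 0 < min (r / 2) (c / (2 * C)) := lt_min hr2 (by positivity)
  obtain ⟨s, hs⟩ : ∃ s, s = min (r / 2) (c / (2 * C)) := ⟨_, rfl⟩
  rw [← hs] at hs0
  have hs1 : s ≤ r / 2 := by rw [hs]; exact min_le_left _ _
  have hs2 : C * s ≤ c / 2 := by
    have h1 : s ≤ c / (2 * C) := by rw [hs]; exact min_le_right _ _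
    calc C * s ≤ C * (c / (2 * C)) := mul_le_mul_of_nonneg_left h1 hC0.le
      _ = c / 2 := by field_simp
  have hbd : ∀ k : ℕ, ∀ t : ℂ, ‖t‖ < r → ‖disc F Q w k t‖ ≤ R := by
    intro k t ht
    unfold disc
    exact hb _ (disc_mem hw ht) k
  have hd : ∀ k : ℕ, c ≤ ‖fderiv ℂ (F^[k]) Q w‖ → ∀ t : ℂ, ‖t‖ ≤ s →
      c / 2 ≤ ‖deriv (disc F Q w k) t‖ := by
    intro k hk t ht
    have h1 := (hCA (disc F Q w k) (disc_diff h.sm Q w k).differentiableOn (by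
      intro t ht
      rw [Metric.mem_ball, dist_zero_right] at ht
      exact hbd k t (by linarith))).2 0 t (by simpa using hr2.le) (ht.trans hs1)
    have h2 := h1.1
    rw [sub_zero] at h2
    have h3 : deriv (disc F Q w k) 0 = fderiv ℂ (F^[k]) Q w := by
      rw [disc_deriv h.sm, zero_smul, add_zero]
    rw [h3] at h2
    have h4 : ‖fderiv ℂ (F^[k]) Q w‖ ≤
        ‖deriv (disc F Q w k) t‖ + ‖deriv (disc F Q w k) t - fderiv ℂ (F^[k]) Q w‖ := by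
      have h5 := norm_sub_le (deriv (disc F Q w k) t) (deriv (disc F Q w k) t - fderiv ℂ (F^[k]) Q w)
      rwa [sub_sub_cancel] at h5
    have h6 : C * ‖t‖ ≤ C * s := mul_le_mul_of_nonneg_left ht hC0.le
    linarith
  obtain ⟨μ, hμ0, hμ1, hμ⟩ := PC_low h.sm h.d0 h.jac R
  have hq0 : 0 < (1 + ‖D‖) / 2 := by positivity
  have hq1 : (1 + ‖D‖) / 2 < 1 := by linarith
  obtain ⟨κ, hκ⟩ : ∃ κ : ℝ, κ = ((1 + ‖D‖) / 2) ^ (1 / 3 : ℝ) := ⟨_, rfl⟩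
  have hκ0 : 0 < κ := by rw [hκ]; exact Real.rpow_pos_of_pos hq0 _
  have hκ1 : κ < 1 := by rw [hκ]; exact Real.rpow_lt_one hq0.le hq1 (by norm_num)
  have hκ3 : κ ^ 3 = (1 + ‖D‖) / 2 := by
    rw [hκ, ← Real.rpow_natCast, ← Real.rpow_mul hq0.le]
    norm_num
  have hlμ : Real.log μ < 0 := Real.log_neg hμ0 hμ1
  have hlκ : Real.log κ < 0 := Real.log_neg hκ0 hκ1
  have hε : 0 < Real.log κ / Real.log μ := div_pos_of_neg_of_neg hlκ hlμ
  have hμε : μ ^ (Real.log κ / Real.log μ) = κ := by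
    rw [Real.rpow_def_of_pos hμ0, mul_div_cancel₀ _ hlμ.ne, Real.exp_log hκ0]
  obtain ⟨M, hM⟩ := DL hE hε
  refine KL h hD hball hR hb hw hs0 (by linarith) (c := c / 2 * μ ^ M) (κ := κ) (by positivity) hκ0 hκ1.le hκ3.ge ?_
  intro J
  obtain ⟨a, hJa, -, hj⟩ := hM J
  refine ⟨a, hJa, fun j hjJ t ht => ?_⟩
  obtain ⟨j', hj'j, hmem, hle⟩ := hj j hjJ
  have hit : ∀ i : ℕ, c / 2 * μ ^ i ≤ ‖deriv (disc F Q w (a + j' + i)) t‖ := by
    intro i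
    induction i with
    | zero =>
      rw [pow_zero, mul_one, add_zero]
      exact hd _ hmem t ht
    | succ i ih =>
      have e : a + j' + (i + 1) = (a + j' + i) + 1 := by ring
      rw [e, disc_deriv_succ h.sm]
      have h1 := hμ (disc F Q w (a + j' + i) t) (hbd _ t (by linarith)) (deriv (disc F Q w (a + j' + i)) t)
      have h2 : μ * (c / 2 * μ ^ i) ≤ μ * ‖deriv (disc F Q w (a + j' + i)) t‖ :=
        mul_le_mul_of_nonneg_left ih hμ0.le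
      calc c / 2 * μ ^ (i + 1) = μ * (c / 2 * μ ^ i) := by ring
        _ ≤ _ := h2.trans h1
  have h1 := hit (j - j')
  have e : a + j' + (j - j') = a + j := by omega
  rw [e] at h1
  refine le_trans ?_ h1
  rw [mul_assoc]
  refine mul_le_mul_of_nonneg_left ?_ (by positivity)
  have h2 : μ ^ M * κ ^ j = μ ^ ((M : ℝ) + Real.log κ / Real.log μ * j) := by
    rw [Real.rpow_add hμ0, Real.rpow_natCast, Real.rpow_mul hμ0.le, hμε, Real.rpow_natCast]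
  rw [h2, ← Real.rpow_natCast μ (j - j')]
  apply Real.rpow_le_rpow_of_exponent_ge hμ0 hμ1.le
  rw [Nat.cast_sub hj'j]
  exact hle

end Pool.Agent.Lib.NRF
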