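import Pool.Agent.Lib.MP_a75e15_an.NR.A1

/-!
# A2: nearby orbits are asymptotic in density

PROOF. `bdd`: `r₀`, `R`; put `r = min (r₀/4) 1`. Let `Q' ∈ ball Q r`, `w = Q' - Q` (`‖w‖ < 1`, `‖w‖ ≤ r₀/4`). For `u ∈ [0,1]` (real, as a complex number) `Q + u w ∈ ball Q (r₀/4)`. `F^[k] Q' - F^[k] Q = disc F Q w k 1 - disc F Q w k 0`.
If `w = 0` the set is empty. Otherwise let `w' = w/‖w‖`, `disc F Q w k u = disc F Q w' k (‖w‖ u)`; `CA` with `2 s = r₀` (so `s = r₀/2 ≥ ‖w‖`): `deriv (disc F Q w' k)` is `C`-Lipschitz on `‖t‖ ≤ s`, `C` independent of `k`. Let `η > 0`, choose `N` with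
`C r₀/N ≤ η/4` and the points `t_i = ‖w‖ i/N`, `0 ≤ i ≤ N`. If `‖fderiv ℂ (F^[k]) (Q + t_i w') w'‖ < η/4` for all `i`, then `‖deriv (disc F Q w' k) t‖ < η/2` on the real segment `[0, ‖w‖]`, so `‖F^[k] Q' - F^[k] Q‖ ≤ (η/2) ‖w‖ < η` (mean value
inequality along the segment). So the set is contained in the union over `i` of the sets of `A1` for `Q + t_i w' ∈ Ω`, `w'`, `c = η/4`: `BD0.biUnion`, `BD0.mono`.
-/

set_option autoImplicit false

open Filter Topology

namespace Pool.Agent.Lib.NRF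

theorem A2 {F G : ℂ × ℂ → ℂ × ℂ} {D : ℂ} {Ω : Set (ℂ × ℂ)} (h : Ctx F G D Ω) (hD : ‖D‖ < 1) {Q : ℂ × ℂ}
    (hQ : Q ∈ Ω) : ∃ r : ℝ, 0 < r ∧ Metric.ball Q r ⊆ Ω ∧ ∀ Q' ∈ Metric.ball Q r, ∀ η : ℝ, 0 < η →
      BD0 {k : ℕ | η ≤ dist (F^[k] Q) (F^[k] Q')} := by
  obtain ⟨r₀, hr₀, R, hR, hsub, hbd⟩ := h.bdd Q hQ
  refine ⟨min (r₀ / 4) 1, by positivity, ?_, ?_⟩
  · refine (Metric.ball_subset_ball ?_).trans hsub
    exact (min_le_left _ _).trans (by linarith)
  intro Q' hQ' η hη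
  set w : ℂ × ℂ := Q' - Q with hw
  have hwn : ‖w‖ < min (r₀ / 4) 1 := by
    rw [Metric.mem_ball, dist_eq_norm] at hQ'
    exact hQ'
  have hw1 : ‖w‖ < 1 := hwn.trans_le (min_le_right _ _)
  have hw4 : ‖w‖ < r₀ / 4 := hwn.trans_le (min_le_left _ _)
  by_cases hw0 : w = 0
  · have hQQ : Q' = Q := sub_eq_zero.mp hw0
    have he : {k : ℕ | η ≤ dist (F^[k] Q) (F^[k] Q')} = ∅ := by
      ext k
      simp only [Set.mem_setOf_eq, Set.mem_empty_iff_false, iff_false, not_le]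
      rw [hQQ, dist_self]
      exact hη
    rw [he]
    exact BD0.of_finite Set.finite_empty
  · have hwpos : 0 < ‖w‖ := norm_pos_iff.mpr hw0
    set w' : ℂ × ℂ := ((‖w‖ : ℝ) : ℂ)⁻¹ • w with hw'
    have hw'n : ‖w'‖ = 1 := by
      rw [hw', norm_smul, norm_inv, Complex.norm_real, norm_norm, inv_mul_cancel₀ hwpos.ne']
    have hne : ((‖w‖ : ℝ) : ℂ) ≠ 0 := by exact_mod_cast hwpos.ne'
    have hQ'eq : Q' = Q + ((‖w‖ : ℝ) : ℂ) • w' := by
      rw [hw', smul_smul, mul_inv_cancel₀ hne, one_smul, hw]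
      abel
    obtain ⟨C, hC1, hC⟩ := CA (R := R) (s := r₀ / 2) (by positivity) hR
    -- the discs
    have hdisc : ∀ k : ℕ, ∀ t t' : ℂ, ‖t‖ ≤ r₀ / 2 → ‖t'‖ ≤ r₀ / 2 →
        ‖deriv (disc F Q w' k) t' - deriv (disc F Q w' k) t‖ ≤ C * ‖t' - t‖ := by
      intro k t t' ht ht'
      have h1 := (hC (disc F Q w' k) (disc_diff h.sm Q w' k).differentiableOn (by
        intro u hu
        rw [Metric.mem_ball, dist_zero_right] at hu
        apply hbd
        exact disc_mem hw'n.le (by linarith))).2 t t' ht ht'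
      exact h1.1
    obtain ⟨N, hN⟩ := exists_nat_gt (4 * C * ‖w‖ / η)
    have hN0 : (0 : ℝ) < N := lt_of_le_of_lt (by positivity) hN
    have hCN : C * (‖w‖ / N) ≤ η / 4 := by
      rw [div_lt_iff₀ hη] at hN
      rw [← mul_div_assoc, div_le_iff₀ hN0]
      linarith
    set tt : ℕ → ℝ := fun i => ‖w‖ * i / N with htt
    have htt0 : ∀ i, 0 ≤ tt i := fun i => by rw [htt]; positivity
    have httw : ∀ i, i ≤ N → tt i ≤ ‖w‖ := by
      intro i hi
      have hi' : (i : ℝ) ≤ N := by exact_mod_cast hi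
      rw [htt]
      simp only []
      rw [div_le_iff₀ hN0]
      exact mul_le_mul_of_nonneg_left hi' hwpos.le
    have hnt : ∀ u : ℝ, 0 ≤ u → ‖(u : ℂ)‖ = u := by
      intro u hu
      rw [Complex.norm_real, Real.norm_eq_abs, abs_of_nonneg hu]
    refine BD0.mono (BD0.biUnion (Finset.range (N + 1))
      (fun i => {k : ℕ | η / 4 ≤ ‖fderiv ℂ (F^[k]) (Q + ((tt i : ℝ) : ℂ) • w') w'‖}) ?_) ?_
    · intro i hi
      rw [Finset.mem_range] at hi
      have hiN : i ≤ N := by omega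
      have hmem : Q + ((tt i : ℝ) : ℂ) • w' ∈ Ω := by
        apply hsub
        apply disc_mem hw'n.le
        rw [hnt _ (htt0 i)]
        linarith [httw i hiN]
      exact A1 h hD hmem hw'n.le (by positivity)
    · intro k hk
      rw [Set.mem_setOf_eq] at hk
      by_contra hcon
      simp only [Set.mem_iUnion, Set.mem_setOf_eq, not_exists, not_le, Finset.mem_range] at hcon
      -- bound of the derivative on the segment
      have hb : ∀ t ∈ segment ℝ (0 : ℂ) ((‖w‖ : ℝ) : ℂ), ‖deriv (disc F Q w' k) t‖ ≤ η / 2 := by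
        intro t ht
        rw [segment_eq_image] at ht
        obtain ⟨θ, hθ, rfl⟩ := ht
        have hu : (1 - θ) • (0 : ℂ) + θ • ((‖w‖ : ℝ) : ℂ) = ((θ * ‖w‖ : ℝ) : ℂ) := by
          rw [smul_zero, zero_add, Complex.real_smul]
          push_cast
          ring
        simp only []
        rw [hu]
        have hu0 : 0 ≤ θ * ‖w‖ := mul_nonneg hθ.1 hwpos.le
        have hu1 : θ * ‖w‖ ≤ ‖w‖ := by
          calc θ * ‖w‖ ≤ 1 * ‖w‖ := mul_le_mul_of_nonneg_right hθ.2 hwpos.le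
            _ = ‖w‖ := one_mul _
        set i : ℕ := ⌊θ * N⌋₊ with hi
        have hθN : 0 ≤ θ * N := mul_nonneg hθ.1 hN0.le
        have hiN : i ≤ N := by
          rw [hi]
          apply Nat.floor_le_of_le
          calc θ * N ≤ 1 * N := mul_le_mul_of_nonneg_right hθ.2 hN0.le
            _ = N := one_mul _
        have hi1 : (i : ℝ) ≤ θ * N := Nat.floor_le hθN
        have hi2 : θ * N < i + 1 := Nat.lt_floor_add_one _
        have hdiff : |θ * ‖w‖ - tt i| ≤ ‖w‖ / N := by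
          have e1 : θ * ‖w‖ - tt i = ‖w‖ / N * (θ * N - i) := by
            rw [htt]
            field_simp
          rw [e1, abs_mul, abs_of_nonneg (by positivity : (0 : ℝ) ≤ ‖w‖ / N)]
          have : |θ * N - i| ≤ 1 := by
            rw [abs_le]
            constructor <;> linarith
          calc ‖w‖ / N * |θ * N - i| ≤ ‖w‖ / N * 1 := mul_le_mul_of_nonneg_left this (by positivity)
            _ = ‖w‖ / N := mul_one _
        have h1 := hdisc k ((tt i : ℝ) : ℂ) ((θ * ‖w‖ : ℝ) : ℂ)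
          (by rw [hnt _ (htt0 i)]; linarith [httw i hiN]) (by rw [hnt _ hu0]; linarith)
        have h2 := hcon i (by omega)
        rw [← disc_deriv h.sm] at h2
        have h3 : ‖((θ * ‖w‖ : ℝ) : ℂ) - ((tt i : ℝ) : ℂ)‖ ≤ ‖w‖ / N := by
          rw [← Complex.ofReal_sub, Complex.norm_real, Real.norm_eq_abs]
          exact hdiff
        have h4 : ‖deriv (disc F Q w' k) ((θ * ‖w‖ : ℝ) : ℂ) - deriv (disc F Q w' k) ((tt i : ℝ) : ℂ)‖
            ≤ η / 4 := h1.trans ((mul_le_mul_of_nonneg_left h3 (by linarith)).trans hCN)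
        have h5 : ‖deriv (disc F Q w' k) ((θ * ‖w‖ : ℝ) : ℂ)‖ ≤
            ‖deriv (disc F Q w' k) ((θ * ‖w‖ : ℝ) : ℂ) - deriv (disc F Q w' k) ((tt i : ℝ) : ℂ)‖
              + ‖deriv (disc F Q w' k) ((tt i : ℝ) : ℂ)‖ := by
          have := norm_add_le (deriv (disc F Q w' k) ((θ * ‖w‖ : ℝ) : ℂ)
            - deriv (disc F Q w' k) ((tt i : ℝ) : ℂ)) (deriv (disc F Q w' k) ((tt i : ℝ) : ℂ))
          rwa [sub_add_cancel] at this
        linarith
      have hmv := Convex.norm_image_sub_le_of_norm_hasDerivWithin_le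
        (f := disc F Q w' k) (f' := deriv (disc F Q w' k))
        (s := segment ℝ (0 : ℂ) ((‖w‖ : ℝ) : ℂ))
        (fun t _ => ((disc_diff h.sm Q w' k) t).hasDerivAt.hasDerivWithinAt) hb
        (convex_segment _ _) (left_mem_segment ℝ _ _) (right_mem_segment ℝ _ _)
      have e0 : disc F Q w' k 0 = F^[k] Q := by
        unfold disc
        rw [zero_smul, add_zero]
      have e1 : disc F Q w' k ((‖w‖ : ℝ) : ℂ) = F^[k] Q' := by
        unfold disc
        rw [← hQ'eq]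
      rw [e0, e1, sub_zero, hnt _ hwpos.le] at hmv
      rw [dist_comm, dist_eq_norm] at hk
      nlinarith

end Pool.Agent.Lib.NRF
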