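import Pool.Agent.Lib.MP_a75e15_an.NR.A2

/-!
# A3: all orbits of the component are asymptotic in density

PROOF. The relation `P Q Q' :⇔ ∀ η > 0, BD0 {k | η ≤ dist (F^[k] Q) (F^[k] Q')}` is symmetric and transitive (`η/2`, `BD0.union`, `BD0.mono`), and every `Q ∈ Ω` has a neighbourhood of `Q'` with `P Q Q'` (`A2`). `Ω` is preconnected:
`IsPreconnected.induction₂` (or: the classes are open and cover `Ω`).
-/

set_option autoImplicit false

open Filter Topology

namespace Pool.Agent.Lib.NRF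

theorem A3 {F G : ℂ × ℂ → ℂ × ℂ} {D : ℂ} {Ω : Set (ℂ × ℂ)} (h : Ctx F G D Ω) (hD : ‖D‖ < 1) {Q Q' : ℂ × ℂ}
    (hQ : Q ∈ Ω) (hQ' : Q' ∈ Ω) {η : ℝ} (hη : 0 < η) : BD0 {k : ℕ | η ≤ dist (F^[k] Q) (F^[k] Q')} := by
  have key : ∀ x ∈ Ω, ∀ y ∈ Ω, ∀ η : ℝ, 0 < η → BD0 {k : ℕ | η ≤ dist (F^[k] x) (F^[k] y)} := by
    intro x hx y hy
    refine h.conn.induction₂ (fun x y => ∀ η : ℝ, 0 < η → BD0 {k : ℕ | η ≤ dist (F^[k] x) (F^[k] y)})
      ?_ ?_ ?_ hx hy
    · intro x hx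
      obtain ⟨r, hr, -, h1⟩ := A2 h hD hx
      have h2 : Metric.ball x r ∈ 𝓝[Ω] x := mem_nhdsWithin_of_mem_nhds (Metric.ball_mem_nhds x hr)
      filter_upwards [h2] with y hy
      exact h1 y hy
    · intro x y z _ _ _ hxy hyz η hη
      refine ((hxy (η / 2) (by linarith)).union (hyz (η / 2) (by linarith))).mono ?_
      intro k hk
      simp only [Set.mem_setOf_eq, Set.mem_union] at hk ⊢
      by_contra hc
      push Not at hc
      have := dist_triangle (F^[k] x) (F^[k] y) (F^[k] z)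
      linarith [hc.1, hc.2]
    · intro x y _ _ hxy η hη
      refine (hxy η hη).mono ?_
      intro k hk
      simp only [Set.mem_setOf_eq] at hk ⊢
      rwa [dist_comm]
  exact key Q hQ Q' hQ' η hη

end Pool.Agent.Lib.NRF
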