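import Pool.Agent.Lib.MP_a75e15_an.NR.A3

/-!
# A4: statistical convergence to the fixed points in the boundary

PROOF. `A3` with `Q' = F Q ∈ Ω`: for every `η > 0` the set `{k | η ≤ dist (F^[k] Q) (F^[k+1] Q)}` is `BD0` (`F^[k] (F Q) = F^[k+1] Q = F (F^[k] Q)`).
CLAIM: for `ε > 0` there are `η > 0`, `k₀` such that `k ≥ k₀` and `dist (F^[k] Q) (F (F^[k] Q)) < η` imply that some `P ∈ frontier Ω` with `F P = P` has `dist (F^[k] Q) P < ε`. Otherwise there are `k_i ≥ i` with `dist < 1/(i+1)` and `dist (F^[k_i] Q) P ≥ ε` for all these `P`;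
the orbit is bounded (`bdd`), pass to a convergent subsequence (`IsCompact.tendsto_subseq`): `x = lim F^[k_i] Q`, a cluster point of the orbit (`MapClusterPt`), so `x ∉ Ω` (`nrc`), `x ∈ closure Ω`, hence `x ∈ frontier Ω` (`Ω` open: `IsOpen.frontier_eq`), `F x = x` by continuity; but `dist (F^[k_i] Q) x → 0`: contradiction.
So the set of the theorem is contained in a finite set united with a `BD0` set.
-/

set_option autoImplicit false

open Filter Topology

namespace Pool.Agent.Lib.NRF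

private theorem A4_claim {F G : ℂ × ℂ → ℂ × ℂ} {D : ℂ} {Ω : Set (ℂ × ℂ)} (h : Ctx F G D Ω) {Q : ℂ × ℂ} (hQ : Q ∈ Ω)
    {ε : ℝ} (hε : 0 < ε) : ∃ η : ℝ, 0 < η ∧ ∃ k₀ : ℕ, ∀ k : ℕ, k₀ ≤ k →
      dist (F^[k] Q) (F^[k] (F Q)) < η → ∃ P ∈ frontier Ω, F P = P ∧ dist (F^[k] Q) P < ε := by
  by_contra hcon
  push Not at hcon
  have hstep : ∀ i : ℕ, ∃ k : ℕ, i ≤ k ∧ dist (F^[k] Q) (F^[k] (F Q)) < 1 / ((i : ℝ) + 1) ∧
      ∀ P ∈ frontier Ω, F P = P → ε ≤ dist (F^[k] Q) P := fun i =>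
    hcon (1 / ((i : ℝ) + 1)) (by positivity) i
  choose k hki hkd hkP using hstep
  obtain ⟨r, hr, R, hR, hsub, hbd⟩ := h.bdd Q hQ
  have hmem : ∀ i : ℕ, F^[k i] Q ∈ Metric.closedBall (0 : ℂ × ℂ) R := by
    intro i
    rw [mem_closedBall_zero_iff]
    exact hbd Q (Metric.mem_ball_self hr) _
  obtain ⟨x, -, φ, hφ, hx⟩ := (isCompact_closedBall (0 : ℂ × ℂ) R).tendsto_subseq hmem
  have hkt : Tendsto (fun i => k (φ i)) atTop atTop := by
    apply tendsto_atTop_mono (f := fun i : ℕ => i)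
    · intro i
      exact (hφ.id_le i).trans (hki (φ i))
    · exact tendsto_id
  have hcl : MapClusterPt x atTop (fun k : ℕ => F^[k] Q) := by
    have h1 : MapClusterPt x atTop ((fun k : ℕ => F^[k] Q) ∘ (fun i => k (φ i))) :=
      Filter.Tendsto.mapClusterPt hx
    exact h1.of_comp hkt
  have hxn : x ∉ Ω := h.nrc Q hQ x hcl
  have hall : ∀ k : ℕ, F^[k] Q ∈ Ω := by
    intro k
    induction k with
    | zero => simpa using hQ
    | succ k ih =>
      rw [Function.iterate_succ_apply']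
      exact h.maps _ ih
  have hxc : x ∈ closure Ω := mem_closure_of_tendsto hx (Eventually.of_forall fun i => hall _)
  have hxf : x ∈ frontier Ω := by
    rw [h.op.frontier_eq]
    exact ⟨hxc, hxn⟩
  have hFx : F x = x := by
    have hc : Tendsto (fun i => F ((fun i => F^[k i] Q) (φ i))) atTop (𝓝 (F x)) :=
      (h.sm.continuous.tendsto x).comp hx
    have hd : Tendsto (fun i => dist ((fun i => F^[k i] Q) (φ i)) (F ((fun i => F^[k i] Q) (φ i)))) atTop
        (𝓝 (dist x (F x))) := Filter.Tendsto.dist hx hc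
    have hz : Tendsto (fun i : ℕ => 1 / (((φ i : ℕ) : ℝ) + 1)) atTop (𝓝 0) :=
      (tendsto_one_div_add_atTop_nhds_zero_nat (𝕜 := ℝ)).comp hφ.tendsto_atTop
    have hle : dist x (F x) ≤ 0 := by
      refine le_of_tendsto_of_tendsto' hd hz ?_
      intro i
      have h2 := hkd (φ i)
      have h3 : F^[k (φ i)] (F Q) = F (F^[k (φ i)] Q) := by
        rw [← Function.iterate_succ_apply, Function.iterate_succ_apply']
      rw [h3] at h2
      exact h2.le
    exact (dist_le_zero.mp hle).symm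
  have hfar : ∀ i : ℕ, ε ≤ dist ((fun i => F^[k i] Q) (φ i)) x := fun i => hkP (φ i) x hxf hFx
  have hd0 : Tendsto (fun i => dist ((fun i => F^[k i] Q) (φ i)) x) atTop (𝓝 0) :=
    tendsto_iff_dist_tendsto_zero.mp hx
  have := ge_of_tendsto' hd0 hfar
  linarith

theorem A4 {F G : ℂ × ℂ → ℂ × ℂ} {D : ℂ} {Ω : Set (ℂ × ℂ)} (h : Ctx F G D Ω) (hD : ‖D‖ < 1) {Q : ℂ × ℂ} (hQ : Q ∈ Ω)
    {ε : ℝ} (hε : 0 < ε) : BD0 {k : ℕ | ∀ P ∈ frontier Ω, F P = P → ε ≤ dist (F^[k] Q) P} := by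
  obtain ⟨η, hη, k₀, hk⟩ := A4_claim h hQ hε
  have h1 : BD0 {k : ℕ | η ≤ dist (F^[k] Q) (F^[k] (F Q))} := A3 h hD hQ (h.maps Q hQ) hη
  have h2 : BD0 {k : ℕ | k < k₀} := BD0.of_finite (Set.finite_lt_nat k₀)
  refine (h2.union h1).mono ?_
  intro k hkk
  by_cases hlt : k < k₀
  · exact Or.inl hlt
  · right
    push Not at hlt
    show η ≤ dist (F^[k] Q) (F^[k] (F Q))
    by_contra hcon
    push Not at hcon
    obtain ⟨P, hP, hFP, hdP⟩ := hk k hlt hcon
    have h3 : ε ≤ dist (F^[k] Q) P := hkk P hP hFP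
    linarith

end Pool.Agent.Lib.NRF
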