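import Pool.Agent.Lib.MP_a75e15_an.NR.Defs

/-!
# BD: sets of Banach density zero

PROOF. Cards of filters: monotone; the filter of a union is contained in the union of the filters, apply the hypotheses with `η / 2`; finite unions by induction (`Finset.induction_on`, or `Set.Finite`).
-/

set_option autoImplicit false

open Filter Topology

namespace Pool.Agent.Lib.NRF

theorem BD0.mono {E E' : Set ℕ} (h : BD0 E) (hs : E' ⊆ E) : BD0 E' := by
  classical
  intro η hη
  obtain ⟨K0, h0⟩ := h η hη
  refine ⟨K0, fun K hK A => le_trans ?_ (h0 K hK A)⟩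
  have h1 : ((Finset.Ico A (A + K)).filter (fun k => k ∈ E')) ⊆ ((Finset.Ico A (A + K)).filter (fun k => k ∈ E)) := by
    intro k hk
    rw [Finset.mem_filter] at hk ⊢
    exact ⟨hk.1, hs hk.2⟩
  have h2 := Finset.card_le_card h1
  exact_mod_cast h2

theorem BD0.union {E E' : Set ℕ} (h : BD0 E) (h' : BD0 E') : BD0 (E ∪ E') := by
  classical
  intro η hη
  obtain ⟨K0, h0⟩ := h (η / 2) (half_pos hη)
  obtain ⟨K1, h1⟩ := h' (η / 2) (half_pos hη)
  refine ⟨max K0 K1, fun K hK A => ?_⟩
  have a0 := h0 K (le_trans (le_max_left _ _) hK) A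
  have a1 := h1 K (le_trans (le_max_right _ _) hK) A
  have h2 : ((Finset.Ico A (A + K)).filter (fun k => k ∈ E ∪ E')) ⊆
      ((Finset.Ico A (A + K)).filter (fun k => k ∈ E)) ∪ ((Finset.Ico A (A + K)).filter (fun k => k ∈ E')) := by
    intro k hk
    rw [Finset.mem_filter] at hk
    rw [Finset.mem_union, Finset.mem_filter, Finset.mem_filter]
    rcases hk.2 with h3 | h3
    · exact Or.inl ⟨hk.1, h3⟩
    · exact Or.inr ⟨hk.1, h3⟩
  have h3 := (Finset.card_le_card h2).trans (Finset.card_union_le _ _)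
  have h4 : (((Finset.Ico A (A + K)).filter (fun k => k ∈ E ∪ E')).card : ℝ) ≤
      (((Finset.Ico A (A + K)).filter (fun k => k ∈ E)).card : ℝ) +
        (((Finset.Ico A (A + K)).filter (fun k => k ∈ E')).card : ℝ) := by exact_mod_cast h3
  have h5 : η / 2 * K + η / 2 * K = η * K := by ring
  refine le_trans ?_ (h4.trans ((add_le_add a0 a1).trans h5.le))
  apply le_of_eq
  congr 2
  ext k
  simp only [Finset.mem_filter]

theorem BD0.of_finite {E : Set ℕ} (h : E.Finite) : BD0 E := by
  classical
  intro η hη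
  obtain ⟨K0, hK0⟩ := exists_nat_ge ((h.toFinset.card : ℝ) / η)
  refine ⟨K0, fun K hK A => ?_⟩
  have h1 : ((Finset.Ico A (A + K)).filter (fun k => k ∈ E)) ⊆ h.toFinset := by
    intro k hk
    rw [Finset.mem_filter] at hk
    exact h.mem_toFinset.mpr hk.2
  have h2 := Finset.card_le_card h1
  have h3 : (h.toFinset.card : ℝ) ≤ η * K := by
    rw [div_le_iff₀ hη] at hK0
    have h4 : (K0 : ℝ) * η ≤ (K : ℝ) * η := mul_le_mul_of_nonneg_right (by exact_mod_cast hK) hη.le
    linarith
  refine le_trans ?_ h3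
  exact_mod_cast h2

theorem BD0.biUnion {ι : Type} (s : Finset ι) (E : ι → Set ℕ) (h : ∀ i ∈ s, BD0 (E i)) : BD0 (⋃ i ∈ s, E i) := by
  classical
  induction s using Finset.induction_on with
  | empty =>
    apply BD0.of_finite
    simp
  | insert a s ha ih =>
    rw [Finset.set_biUnion_insert]
    exact BD0.union (h a (Finset.mem_insert_self a s)) (ih fun i hi => h i (Finset.mem_insert_of_mem hi))

end Pool.Agent.Lib.NRF
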