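import Pool.Agent.Lib.MP_a75e15_an.NR.Defs

/-!
# CA: uniform Cauchy estimates for discs

PROOF. For `‖t‖ ≤ s` and radius `s/2`: `Complex.norm_deriv_le_of_forall_mem_sphere_norm_le`: `‖deriv g t‖ ≤ 2R/s` for `‖t‖ < 3s/2`; the same for `deriv g` (differentiable on the open ball): `‖deriv (deriv g) t‖ ≤ 8 R/s²` for `‖t‖ ≤ s`.
The ball is convex: mean value inequality for `deriv g` and then for `t' ↦ g t' - g t - (t' - t) • deriv g t` (derivative `deriv g t' - deriv g t`), on the segment from `t` to `t'`.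
-/

set_option autoImplicit false

open Filter Topology

namespace Pool.Agent.Lib.NRF

theorem CA {R s : ℝ} (hs : 0 < s) (hR : 0 < R) : ∃ C : ℝ, 1 ≤ C ∧ ∀ g : ℂ → ℂ × ℂ,
    DifferentiableOn ℂ g (Metric.ball 0 (2 * s)) → (∀ t ∈ Metric.ball (0 : ℂ) (2 * s), ‖g t‖ ≤ R) →
    (∀ t : ℂ, ‖t‖ ≤ s → ‖deriv g t‖ ≤ C) ∧
    ∀ t t' : ℂ, ‖t‖ ≤ s → ‖t'‖ ≤ s → ‖deriv g t' - deriv g t‖ ≤ C * ‖t' - t‖ ∧
      ‖g t' - g t - (t' - t) • deriv g t‖ ≤ C * ‖t' - t‖ ^ 2 := by
  have hA : 0 ≤ R / (s / 2) := by positivity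
  have hB : 0 ≤ R / (s / 2) / (s / 4) := by positivity
  refine ⟨1 + R / (s / 2) + R / (s / 2) / (s / 4), by linarith, ?_⟩
  intro g hg hb
  set C : ℝ := 1 + R / (s / 2) + R / (s / 2) / (s / 4) with hC
  have h1 : ∀ t : ℂ, ‖t‖ < 3 * s / 2 → ‖deriv g t‖ ≤ R / (s / 2) := by
    intro t ht
    have hsub : Metric.closedBall t (s / 2) ⊆ Metric.ball (0 : ℂ) (2 * s) := by
      intro u hu
      rw [Metric.mem_closedBall, dist_eq_norm] at hu
      rw [Metric.mem_ball, dist_zero_right]
      calc ‖u‖ = ‖(u - t) + t‖ := by rw [sub_add_cancel]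
        _ ≤ ‖u - t‖ + ‖t‖ := norm_add_le _ _
        _ < 2 * s := by linarith
    refine Complex.norm_deriv_le_of_forall_mem_sphere_norm_le (by positivity)
      (hg.diffContOnCl_ball hsub) ?_
    intro z hz
    exact hb z (hsub (Metric.sphere_subset_closedBall hz))
  have hg' : DifferentiableOn ℂ (deriv g) (Metric.ball 0 (2 * s)) := hg.deriv Metric.isOpen_ball
  have h2 : ∀ t : ℂ, ‖t‖ ≤ s → ‖deriv (deriv g) t‖ ≤ R / (s / 2) / (s / 4) := by
    intro t ht
    have hlt : ∀ u ∈ Metric.closedBall t (s / 4), ‖u‖ < 3 * s / 2 := by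
      intro u hu
      rw [Metric.mem_closedBall, dist_eq_norm] at hu
      calc ‖u‖ = ‖(u - t) + t‖ := by rw [sub_add_cancel]
        _ ≤ ‖u - t‖ + ‖t‖ := norm_add_le _ _
        _ < 3 * s / 2 := by linarith
    have hsub : Metric.closedBall t (s / 4) ⊆ Metric.ball (0 : ℂ) (2 * s) := by
      intro u hu
      have := hlt u hu
      rw [Metric.mem_ball, dist_zero_right]
      linarith
    refine Complex.norm_deriv_le_of_forall_mem_sphere_norm_le (by positivity)
      (hg'.diffContOnCl_ball hsub) ?_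
    intro z hz
    exact h1 z (hlt z (Metric.sphere_subset_closedBall hz))
  have hopen : ∀ t : ℂ, ‖t‖ ≤ s → Metric.ball (0 : ℂ) (2 * s) ∈ 𝓝 t := by
    intro t ht
    refine Metric.isOpen_ball.mem_nhds ?_
    rw [Metric.mem_ball, dist_zero_right]
    linarith
  have h3 : ∀ t t' : ℂ, ‖t‖ ≤ s → ‖t'‖ ≤ s → ‖deriv g t' - deriv g t‖ ≤ C * ‖t' - t‖ := by
    intro t t' ht ht'
    refine Convex.norm_image_sub_le_of_norm_deriv_le (s := Metric.closedBall (0 : ℂ) s) ?_ ?_
      (convex_closedBall _ _) ?_ ?_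
    · intro u hu
      rw [Metric.mem_closedBall, dist_zero_right] at hu
      exact hg'.differentiableAt (hopen u hu)
    · intro u hu
      rw [Metric.mem_closedBall, dist_zero_right] at hu
      exact (h2 u hu).trans (by linarith)
    · rwa [Metric.mem_closedBall, dist_zero_right]
    · rwa [Metric.mem_closedBall, dist_zero_right]
  refine ⟨fun t ht => (h1 t (by linarith)).trans (by linarith), fun t t' ht ht' => ⟨h3 t t' ht ht', ?_⟩⟩
  have hC0 : 0 ≤ C := by linarith
  have h4 := Convex.norm_image_sub_le_of_norm_hasDerivWithin_le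
    (f := fun u : ℂ => g u - (u - t) • deriv g t) (f' := fun u => deriv g u - deriv g t)
    (C := C * ‖t' - t‖) (s := Metric.closedBall (0 : ℂ) s ∩ Metric.closedBall t ‖t' - t‖) (x := t) (y := t')
    ?_ ?_ ((convex_closedBall _ _).inter (convex_closedBall _ _)) ?_ ?_
  · simp only [sub_self, zero_smul, sub_zero] at h4
    calc ‖g t' - g t - (t' - t) • deriv g t‖ = ‖g t' - (t' - t) • deriv g t - g t‖ := by
          congr 1
          abel
      _ ≤ C * ‖t' - t‖ * ‖t' - t‖ := h4
      _ = C * ‖t' - t‖ ^ 2 := by ring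
  · intro u hu
    have hu1 : ‖u‖ ≤ s := by
      have := hu.1
      rwa [Metric.mem_closedBall, dist_zero_right] at this
    have h5 : HasDerivAt g (deriv g u) u := (hg.differentiableAt (hopen u hu1)).hasDerivAt
    have h6 : HasDerivAt (fun u : ℂ => (u - t) • deriv g t) (deriv g t) u := by
      have h7 := ((hasDerivAt_id u).sub_const t).smul_const (deriv g t)
      simpa using h7
    exact (h5.sub h6).hasDerivWithinAt
  · intro u hu
    have hu1 : ‖u‖ ≤ s := by
      have := hu.1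
      rwa [Metric.mem_closedBall, dist_zero_right] at this
    have hu2 : ‖u - t‖ ≤ ‖t' - t‖ := by
      have := hu.2
      rwa [Metric.mem_closedBall, dist_eq_norm] at this
    exact (h3 t u ht hu1).trans (mul_le_mul_of_nonneg_left hu2 hC0)
  · refine ⟨?_, ?_⟩
    · rwa [Metric.mem_closedBall, dist_zero_right]
    · rw [Metric.mem_closedBall, dist_self]
      exact norm_nonneg _
  · refine ⟨?_, ?_⟩
    · rwa [Metric.mem_closedBall, dist_zero_right]
    · rw [Metric.mem_closedBall, dist_eq_norm]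

end Pool.Agent.Lib.NRF
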