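import Pool.Agent.Lib.MP_a75e15_an.NR.JC

/-!
# CX: the context for `F = f^n`

PROOF. `F = f^[n]`, `G = g^[n]` (`g` the inverse), `D = δ^n` (`JC`; chain rule `fderiv (f^[n+1]) x = fderiv f (f^[n] x) ∘ fderiv (f^[n]) x`, induction). `sm`: `ContDiff.iterate` or induction. `fatou f` is open (a neighbourhood `U` of `z` contains an open one, all of whose points are in `fatou f`), so the component `Ω` is open
(`IsOpen.connectedComponentIn`, `ℂ × ℂ` is locally connected) and preconnected (`isPreconnected_connectedComponentIn`). `maps`: `f^[n] '' Ω = Ω`. `bdd`: `Q ∈ Ω ⊆ fatou f`: `U`, `R`; take a ball in `U ∩ Ω`; `F^[k] = f^[n k]` (`Function.iterate_mul`); for `k = 0` enlarge `R` by the norm of the ball.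
`fat`: let `x ∈ closure Ω`, `‖F^[k] z‖ ≤ R` on `ball x r` for all `k`. For `j : ℕ` write `j = n k + i`, `i < n`: `f^[j] z = f^[i] (F^[k] z)`, and `f^[i]` (`i < n`) is bounded on `closedBall 0 R` (compact, continuous): so `ball x r ⊆ fatou f` (for `z` in the ball, `U = ball x r`). The ball is preconnected, meets `Ω` at some `y`
(`x ∈ closure Ω`), so it is contained in `connectedComponentIn (fatou f) y = Ω` (`IsPreconnected.subset_connectedComponentIn`, `connectedComponentIn_eq`): `x ∈ Ω`. `nrc`: a cluster point of `k ↦ F^[k] Q = f^[n k] Q` is a cluster point of `j ↦ f^[j] Q` (`n ≥ 1`: `k ↦ n k` tends to infinity), so it is in `frontier Ω`, and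
`frontier Ω ∩ Ω = ∅` as `Ω` is open (`IsOpen.frontier_eq`).
-/

set_option autoImplicit false

open Filter Topology

namespace Pool.Agent.Lib.NRF

private theorem CX_wg {f : ℂ × ℂ → ℂ × ℂ} (hf : ContDiff ℂ 2 f) {δ : ℂ}
    (hj : ∀ x a b, wg (fderiv ℂ f x a) (fderiv ℂ f x b) = δ * wg a b) (n : ℕ) :
    ContDiff ℂ 2 (f^[n]) ∧ ∀ x a b, wg (fderiv ℂ (f^[n]) x a) (fderiv ℂ (f^[n]) x b) = δ ^ n * wg a b := by
  induction n with
  | zero =>
    refine ⟨contDiff_id, fun x a b => ?_⟩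
    rw [Function.iterate_zero, fderiv_id, pow_zero, one_mul]
    rfl
  | succ k ih =>
    obtain ⟨h1, h2⟩ := ih
    refine ⟨by rw [Function.iterate_succ]; exact h1.comp hf, fun x a b => ?_⟩
    rw [Function.iterate_succ]
    have e1 : fderiv ℂ (f^[k] ∘ f) x = (fderiv ℂ (f^[k]) (f x)).comp (fderiv ℂ f x) :=
      fderiv_comp x ((h1.differentiable (by norm_num)) (f x)) ((hf.differentiable (by norm_num)) x)
    rw [e1, ContinuousLinearMap.comp_apply, ContinuousLinearMap.comp_apply, h2, hj, pow_succ]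
    ring

private theorem CX_open (f : ℂ × ℂ → ℂ × ℂ) : IsOpen (fatou f) := by
  rw [isOpen_iff_mem_nhds]
  rintro z ⟨U, hU, R, hR⟩
  obtain ⟨V, hVU, hV, hz⟩ := mem_nhds_iff.1 hU
  refine mem_nhds_iff.2 ⟨V, fun y hy => ?_, hV, hz⟩
  exact ⟨V, hV.mem_nhds hy, R, fun w hw => hR w (hVU hw)⟩

private theorem CX_bd {f : ℂ × ℂ → ℂ × ℂ} (hc : ∀ i, Continuous (f^[i])) (n : ℕ) (R : ℝ) :
    ∃ M : ℝ, ∀ i, i < n → ∀ w : ℂ × ℂ, ‖w‖ ≤ R → ‖f^[i] w‖ ≤ M := by
  have h1 : ∀ i : ℕ, ∃ M : ℝ, ∀ w ∈ Metric.closedBall (0 : ℂ × ℂ) R, ‖f^[i] w‖ ≤ M := fun i =>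
    (isCompact_closedBall (0 : ℂ × ℂ) R).exists_bound_of_continuousOn (hc i).continuousOn
  choose M hM using h1
  refine ⟨∑ i ∈ Finset.range n, |M i|, fun i hi w hw => ?_⟩
  have h2 : |M i| ≤ ∑ i ∈ Finset.range n, |M i| :=
    Finset.single_le_sum (f := fun i => |M i|) (fun _ _ => abs_nonneg _) (Finset.mem_range.2 hi)
  exact ((hM i w (by rw [mem_closedBall_zero_iff]; exact hw)).trans (le_abs_self _)).trans h2

theorem CXa {f : ℂ × ℂ → ℂ × ℂ} (hf : PolyAut f) {Ω : Set (ℂ × ℂ)} (hΩ : FatouComponent f Ω) {n : ℕ} (hn : 1 ≤ n)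
    (hinv : f^[n] '' Ω = Ω) (hnr : NonRecurrentAlong f n Ω) : ∃ (G : ℂ × ℂ → ℂ × ℂ) (D : ℂ), Ctx (f^[n]) G D Ω := by
  obtain ⟨hp, g, hg, hgf, hfg⟩ := hf
  obtain ⟨δ, hδ, hj⟩ := JC ⟨hp, g, hg, hgf, hfg⟩
  have hcd : ContDiff ℂ 2 f := hp.contDiff
  have hci : ∀ i, Continuous (f^[i]) := fun i => (CX_wg hcd hj i).1.continuous
  obtain ⟨z0, hz0, hΩe⟩ := hΩ
  have hop : IsOpen Ω := by
    rw [hΩe]
    exact (CX_open f).connectedComponentIn
  have hsub : Ω ⊆ fatou f := by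
    rw [hΩe]
    exact connectedComponentIn_subset _ _
  have hit : ∀ (k : ℕ) (x : ℂ × ℂ), (f^[n])^[k] x = f^[n * k] x := fun k x => by rw [Function.iterate_mul]
  refine ⟨g^[n], δ ^ n, ⟨(CX_wg hcd hj n).1, (hg.contDiff.continuous).iterate n, ?_, (CX_wg hcd hj n).2, pow_ne_zero _ hδ, hop, ?_, ?_, ?_, ?_, ?_⟩⟩
  · exact Function.LeftInverse.iterate hgf n
  · rw [hΩe]
    exact isPreconnected_connectedComponentIn
  · intro Q hQ
    rw [← hinv]
    exact ⟨Q, hQ, rfl⟩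
  · intro Q hQ
    obtain ⟨U, hU, R, hR⟩ := hsub hQ
    obtain ⟨r, hr, hrU⟩ := Metric.mem_nhds_iff.1 (Filter.inter_mem hU (hop.mem_nhds hQ))
    refine ⟨r, hr, |R| + (‖Q‖ + r), by positivity, fun x hx => (hrU hx).2, fun x hx k => ?_⟩
    rw [hit]
    have hxQ : ‖x‖ ≤ ‖Q‖ + r := by
      rw [mem_ball_iff_norm] at hx
      have h1 := norm_add_le (x - Q) Q
      rw [sub_add_cancel] at h1
      linarith
    rcases Nat.eq_zero_or_pos k with h0 | h0
    · rw [h0, mul_zero, Function.iterate_zero, id_eq]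
      have := abs_nonneg R
      linarith
    · have h1 := hR x (hrU hx).1 (n * k) (Nat.mul_pos hn h0)
      have h2 := le_abs_self R
      have h3 := norm_nonneg Q
      linarith
  · intro x hx r hr R hR
    obtain ⟨M, hM⟩ := CX_bd hci n R
    have hball : Metric.ball x r ⊆ fatou f := by
      intro y hy
      refine ⟨Metric.ball x r, Metric.isOpen_ball.mem_nhds hy, M, fun w hw j _ => ?_⟩
      have h1 := hR w hw (j / n)
      rw [hit] at h1
      have h2 := hM (j % n) (Nat.mod_lt _ hn) (f^[n * (j / n)] w) h1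
      rw [← Function.iterate_add_apply, Nat.mod_add_div] at h2
      exact h2
    obtain ⟨y, hyb, hyΩ⟩ := mem_closure_iff.1 hx (Metric.ball x r) Metric.isOpen_ball (Metric.mem_ball_self hr)
    have h1 : Metric.ball x r ⊆ connectedComponentIn (fatou f) y :=
      (convex_ball x r).isPreconnected.subset_connectedComponentIn hyb hball
    have h2 : connectedComponentIn (fatou f) z0 = connectedComponentIn (fatou f) y :=
      connectedComponentIn_eq (by rw [← hΩe]; exact hyΩ)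
    rw [hΩe, h2]
    exact h1 (Metric.mem_ball_self hr)
  · intro Q hQ x hx
    have h1 : MapClusterPt x atTop (fun k : ℕ => f^[n * k] Q) := by
      have h2 : (fun k : ℕ => f^[n * k] Q) = fun k : ℕ => (f^[n])^[k] Q := by
        funext k
        exact (hit k Q).symm
      rw [h2]
      exact hx
    have h3 := hnr Q hQ x h1
    rw [hop.frontier_eq] at h3
    exact h3.2

theorem CX {f : ℂ × ℂ → ℂ × ℂ} (hf : PolyAut f) {Ω : Set (ℂ × ℂ)} (hΩ : FatouComponent f Ω) {n : ℕ} (hn : 1 ≤ n)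
    (hinv : f^[n] '' Ω = Ω) (hnr : NonRecurrent f Ω) : ∃ (G : ℂ × ℂ → ℂ × ℂ) (D : ℂ), Ctx (f^[n]) G D Ω :=
  CXa hf hΩ hn hinv (hnr.along hn)

end Pool.Agent.Lib.NRF
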