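import Mathlib

/-!
# NRF: orbits in non-recurrent Fatou components of polynomial automorphisms of `ℂ²` (MP_a75e15_an). Definitions.

Paper proof: `/team-store/NRF_TEXT.md`. `ℂ²` is `ℂ × ℂ` with the maximum norm.
-/

set_option autoImplicit false

open Filter Topology

namespace Pool.Agent.Lib.NRF

/-- polynomial self map of `ℂ²` -/
def PolyMap (f : ℂ × ℂ → ℂ × ℂ) : Prop :=
  ∃ p q : MvPolynomial (Fin 2) ℂ, ∀ z : ℂ × ℂ,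
    f z = (MvPolynomial.eval ![z.1, z.2] p, MvPolynomial.eval ![z.1, z.2] q)

/-- polynomial automorphism of `ℂ²`: a polynomial map with a polynomial inverse -/
def PolyAut (f : ℂ × ℂ → ℂ × ℂ) : Prop :=
  PolyMap f ∧ ∃ g : ℂ × ℂ → ℂ × ℂ, PolyMap g ∧ (∀ z, g (f z) = z) ∧ ∀ z, f (g z) = z

/-- the Fatou set: the points with a neighbourhood on which the forward iterates are uniformly bounded -/
def fatou (f : ℂ × ℂ → ℂ × ℂ) : Set (ℂ × ℂ) :=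
  {z | ∃ U ∈ 𝓝 z, ∃ R : ℝ, ∀ w ∈ U, ∀ j : ℕ, 1 ≤ j → ‖f^[j] w‖ ≤ R}

/-- connected components of the Fatou set -/
def FatouComponent (f : ℂ × ℂ → ℂ × ℂ) (Ω : Set (ℂ × ℂ)) : Prop :=
  ∃ z ∈ fatou f, Ω = connectedComponentIn (fatou f) z

/-- every accumulation point of every forward orbit starting in `Ω` lies in the boundary of `Ω` -/
def NonRecurrent (f : ℂ × ℂ → ℂ × ℂ) (Ω : Set (ℂ × ℂ)) : Prop :=
  ∀ Q ∈ Ω, ∀ x : ℂ × ℂ, MapClusterPt x atTop (fun j : ℕ => f^[j] Q) → x ∈ frontier Ω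

/-- for every `Q ∈ Ω` all accumulation points of `(f^{nk}(Q))_k` lie in the boundary of `Ω`
(weaker than `NonRecurrent`: see `NonRecurrent.along`) -/
def NonRecurrentAlong (f : ℂ × ℂ → ℂ × ℂ) (n : ℕ) (Ω : Set (ℂ × ℂ)) : Prop :=
  ∀ Q ∈ Ω, ∀ x : ℂ × ℂ, MapClusterPt x atTop (fun k : ℕ => f^[n * k] Q) → x ∈ frontier Ω

/-- the fixed points of `f^n` in the boundary of `Ω` -/
def bdFix (f : ℂ × ℂ → ℂ × ℂ) (n : ℕ) (Ω : Set (ℂ × ℂ)) : Set (ℂ × ℂ) :=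
  {P | P ∈ frontier Ω ∧ f^[n] P = P}

open Classical in
/-- sets of times of uniform (Banach) density zero -/
def BD0 (E : Set ℕ) : Prop := ∀ η : ℝ, 0 < η → ∃ K0 : ℕ, ∀ K : ℕ, K0 ≤ K → ∀ A : ℕ,
  (((Finset.Ico A (A + K)).filter (fun k => k ∈ E)).card : ℝ) ≤ η * K

theorem NonRecurrent.along {f : ℂ × ℂ → ℂ × ℂ} {Ω : Set (ℂ × ℂ)} (h : NonRecurrent f Ω) {n : ℕ} (hn : 1 ≤ n) :
    NonRecurrentAlong f n Ω := by
  intro Q hQ x hx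
  have ht : Tendsto (fun k : ℕ => n * k) atTop atTop :=
    tendsto_atTop_mono (fun k => Nat.le_mul_of_pos_left k hn) tendsto_id
  refine h Q hQ x (MapClusterPt.of_comp ht ?_)
  exact hx

/-- the determinant of two vectors -/
def wg (a b : ℂ × ℂ) : ℂ := a.1 * b.2 - a.2 * b.1

/-- the situation after passing to `F = f^n`: `G` is the inverse of `F`, `D` the constant Jacobian determinant of `F` -/
structure Ctx (F G : ℂ × ℂ → ℂ × ℂ) (D : ℂ) (Ω : Set (ℂ × ℂ)) : Prop where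
  sm : ContDiff ℂ 2 F
  gc : Continuous G
  gl : ∀ x, G (F x) = x
  jac : ∀ x a b, wg (fderiv ℂ F x a) (fderiv ℂ F x b) = D * wg a b
  d0 : D ≠ 0
  op : IsOpen Ω
  conn : IsPreconnected Ω
  maps : ∀ Q ∈ Ω, F Q ∈ Ω
  bdd : ∀ Q ∈ Ω, ∃ r : ℝ, 0 < r ∧ ∃ R : ℝ, 0 < R ∧ Metric.ball Q r ⊆ Ω ∧
    ∀ x ∈ Metric.ball Q r, ∀ k : ℕ, ‖F^[k] x‖ ≤ R
  fat : ∀ x ∈ closure Ω, ∀ r : ℝ, 0 < r → ∀ R : ℝ, (∀ z ∈ Metric.ball x r, ∀ k : ℕ, ‖F^[k] z‖ ≤ R) → x ∈ Ω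
  nrc : ∀ Q ∈ Ω, ∀ x : ℂ × ℂ, MapClusterPt x atTop (fun k : ℕ => F^[k] Q) → x ∉ Ω

/-- Taylor coefficients at `0` -/
noncomputable def coef (g : ℂ → ℂ × ℂ) (l : ℕ) : ℂ × ℂ := ((l.factorial : ℕ) : ℂ)⁻¹ • iteratedDeriv l g 0

end Pool.Agent.Lib.NRF
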