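import Pool.Agent.Lib.MP_a75e15_an.NR.T6

/-!
# F3: one orbit with finitely many accumulation points suffices

PROOF. Let `x_k = F^[k] Q₀`, `W` its set of cluster points, finite, not empty (the orbit is bounded). `F` maps `W` into `W` (continuity; `F x_k = x_{k+1}`) and is injective (`gl`), so every `x ∈ W` is periodic: among `x, F x, F² x, ...` (all in the finite set `W`) two agree,
`F^[a] x = F^[b] x`, `a < b`, so `F^[b-a] x = x` by injectivity of `F^[a]`. `x` is the limit of a subsequence `F^[k i] Q₀`, `k → ∞` (strictly increasing): `T6`: `F x = x`. Hence `dist (x_k) (x_{k+1}) → 0` (otherwise a subsequence with distance `≥ η` converging to some `x ∈ W`, `x_{k+1} → F x = x`).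
Let `x ∈ W` and suppose `x_k` does not tend to `x`. Let `4 d` be less than the distance of `x` from the other points of `W` (`d > 0`) and such that `dist (x_k) x ≥ d` infinitely often. For large `k` every `x_k` is within `d/2` of `W` (compactness: otherwise there is a cluster point outside of `W`) and
`dist (x_k) (x_{k+1}) < d/2`. If `dist (x_k) x < d/2` then `dist (x_{k+1}) x < d`, so the point of `W` within `d/2` of `x_{k+1}` is `x` and `dist (x_{k+1}) x < d/2`: by induction `dist (x_{k'}) x < d/2` for all `k' ≥ k`, a contradiction. So `x_k → x`; `T6` with `k i = i`, `m = 1`.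
`x ∈ frontier Ω`: `x ∈ closure Ω` and `x ∉ Ω` (`nrc`), `Ω` open.
-/

set_option autoImplicit false

open Filter Topology

namespace Pool.Agent.Lib.NRF

private theorem F3_per {F : ℂ × ℂ → ℂ × ℂ} (hF : Function.Injective F) {W : Set (ℂ × ℂ)} (hW : W.Finite)
    (hm : ∀ x ∈ W, F x ∈ W) {x : ℂ × ℂ} (hx : x ∈ W) : ∃ m : ℕ, 1 ≤ m ∧ F^[m] x = x := by
  have h1 : ∀ k : ℕ, F^[k] x ∈ W := by
    intro k
    induction k with
    | zero => exact hx
    | succ k ih =>
      rw [Function.iterate_succ_apply']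
      exact hm _ ih
  have h2 : ¬ Function.Injective (fun k : ℕ => F^[k] x) := by
    intro hinj
    have h3 : (Set.range (fun k : ℕ => F^[k] x)).Finite := hW.subset (by
      rintro _ ⟨k, rfl⟩
      exact h1 k)
    exact (Set.infinite_range_of_injective hinj) h3
  have key : ∀ a b : ℕ, a < b → F^[a] x = F^[b] x → ∃ m : ℕ, 1 ≤ m ∧ F^[m] x = x := by
    intro a b hab he
    refine ⟨b - a, by omega, ?_⟩
    have h4 : F^[b] x = F^[a] (F^[b - a] x) := by
      rw [← Function.iterate_add_apply]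
      congr 1
      congr 1
      omega
    rw [h4] at he
    exact ((hF.iterate a) he).symm
  unfold Function.Injective at h2
  push Not at h2
  obtain ⟨a, b, he, hab⟩ := h2
  rcases lt_or_gt_of_ne hab with h5 | h5
  · exact key a b h5 he
  · exact key b a h5 he.symm

private theorem F3_conv {u : ℕ → ℂ × ℂ} {F : ℂ × ℂ → ℂ × ℂ} (hc : Continuous F) (hu : ∀ k, u (k + 1) = F (u k))
    (hW : {x : ℂ × ℂ | MapClusterPt x atTop u}.Finite) {x : ℂ × ℂ} (hx : MapClusterPt x atTop u) (hfx : F x = x) :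
    Tendsto u atTop (𝓝 x) := by
  -- isolation
  obtain ⟨δ, hδ, hδ'⟩ : ∃ δ : ℝ, 0 < δ ∧ ∀ y : ℂ × ℂ, dist y x < δ → MapClusterPt y atTop u → y = x := by
    have h1 : ({x : ℂ × ℂ | MapClusterPt x atTop u} \ {x}).Finite := hW.subset Set.diff_subset
    have h2 := h1.isClosed.isOpen_compl
    have h3 : x ∈ ({x : ℂ × ℂ | MapClusterPt x atTop u} \ {x})ᶜ := by
      intro h4
      exact h4.2 rfl
    obtain ⟨δ, hδ, h5⟩ := Metric.isOpen_iff.1 h2 x h3
    refine ⟨δ, hδ, fun y hy hy' => ?_⟩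
    by_contra hne
    exact h5 (Metric.mem_ball.2 hy) ⟨hy', hne⟩
  rw [Metric.tendsto_atTop']
  intro ε0 hε0
  -- a smaller radius
  obtain ⟨ε, hε, hε1, hε2⟩ : ∃ ε : ℝ, 0 < ε ∧ ε ≤ ε0 ∧ ε < δ :=
    ⟨min ε0 (δ / 2), lt_min hε0 (half_pos hδ), min_le_left _ _, (min_le_right _ _).trans_lt (half_lt_self hδ)⟩
  obtain ⟨η0, hη0, hη0'⟩ := Metric.continuous_iff.1 hc x ε hε
  rw [hfx] at hη0'
  obtain ⟨η, hη, hη1, hη2⟩ : ∃ η : ℝ, 0 < η ∧ η ≤ η0 ∧ η ≤ ε :=
    ⟨min η0 ε, lt_min hη0 hε, min_le_left _ _, min_le_right _ _⟩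
  -- the annulus
  have hK : IsCompact (Metric.closedBall x ε \ Metric.ball x η) := (isCompact_closedBall x ε).diff Metric.isOpen_ball
  have hK' : ¬ ∃ᶠ k in atTop, u k ∈ Metric.closedBall x ε \ Metric.ball x η := by
    intro hfr
    obtain ⟨y, hy, hy'⟩ := hK.exists_mapClusterPt_of_frequently hfr
    have h1 : dist y x ≤ ε := Metric.mem_closedBall.1 hy.1
    have h2 := hδ' y (h1.trans_lt hε2) hy'
    rw [h2] at hy
    exact hy.2 (Metric.mem_ball_self hη)
  rw [not_frequently, eventually_atTop] at hK'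
  obtain ⟨k0, hk0⟩ := hK'
  have hfr : ∃ᶠ k in atTop, u k ∈ Metric.ball x η := hx.frequently (Metric.ball_mem_nhds x hη)
  obtain ⟨k1, hk1, hk1'⟩ := frequently_atTop.1 hfr k0
  have key : ∀ k, k1 ≤ k → u k ∈ Metric.ball x η := by
    intro k hk
    induction k, hk using Nat.le_induction with
    | base => exact hk1'
    | succ k hk ih =>
      have h1 : dist (u (k + 1)) x < ε := by
        rw [hu k]
        exact hη0' (u k) ((Metric.mem_ball.1 ih).trans_le hη1)
      by_contra hne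
      exact hk0 (k + 1) (by omega) ⟨Metric.mem_closedBall.2 h1.le, hne⟩
  exact ⟨k1, fun k hk => ((Metric.mem_ball.1 (key k hk.le)).trans_le hη2).trans_le hε1⟩

theorem F3 {F G : ℂ × ℂ → ℂ × ℂ} {D : ℂ} {Ω : Set (ℂ × ℂ)} (h : Ctx F G D Ω) (hD : ‖D‖ < 1) {Q₀ : ℂ × ℂ}
    (hQ : Q₀ ∈ Ω) (hW : {x : ℂ × ℂ | MapClusterPt x atTop (fun k : ℕ => F^[k] Q₀)}.Finite) :
    ∃ P ∈ frontier Ω, ∀ Q ∈ Ω, Tendsto (fun k : ℕ => F^[k] Q) atTop (𝓝 P) := by
  have hc : Continuous F := h.sm.continuous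
  have hinj : Function.Injective F := Function.LeftInverse.injective h.gl
  have hu : ∀ k : ℕ, F^[k + 1] Q₀ = F (F^[k] Q₀) := fun k => Function.iterate_succ_apply' F k Q₀
  have hmem : ∀ k : ℕ, F^[k] Q₀ ∈ Ω := by
    intro k
    induction k with
    | zero => exact hQ
    | succ k ih =>
      rw [hu k]
      exact h.maps _ ih
  obtain ⟨r, hr, R, hR, hrΩ, hb⟩ := h.bdd Q₀ hQ
  have hb' : ∀ k : ℕ, F^[k] Q₀ ∈ Metric.closedBall (0 : ℂ × ℂ) R := fun k => by
    rw [mem_closedBall_zero_iff]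
    exact hb Q₀ (Metric.mem_ball_self hr) k
  obtain ⟨x, _, φ, hφ, hφ'⟩ := (isCompact_closedBall (0 : ℂ × ℂ) R).tendsto_subseq hb'
  have hx : MapClusterPt x atTop (fun k : ℕ => F^[k] Q₀) :=
    MapClusterPt.of_comp hφ.tendsto_atTop hφ'.mapClusterPt
  -- invariance of the set of cluster points
  have hm : ∀ y ∈ {x : ℂ × ℂ | MapClusterPt x atTop (fun k : ℕ => F^[k] Q₀)},
      F y ∈ {x : ℂ × ℂ | MapClusterPt x atTop (fun k : ℕ => F^[k] Q₀)} := by
    intro y hy
    have h1 : MapClusterPt (F y) atTop (F ∘ fun k : ℕ => F^[k] Q₀) := MapClusterPt.continuousAt_comp hc.continuousAt hy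
    have h2 : (F ∘ fun k : ℕ => F^[k] Q₀) = (fun k : ℕ => F^[k] Q₀) ∘ fun k => k + 1 := by
      funext k
      exact (hu k).symm
    rw [h2] at h1
    exact MapClusterPt.of_comp (tendsto_add_atTop_nat 1) h1
  obtain ⟨m, hm1, hm2⟩ := F3_per hinj hW hm hx
  have hfx : F x = x := (T6 h hD hQ hm1 hm2 φ hφ.tendsto_atTop hφ').1
  have hlim : Tendsto (fun k : ℕ => F^[k] Q₀) atTop (𝓝 x) := F3_conv hc hu hW hx hfx
  have hall := (T6 h hD hQ (m := 1) le_rfl (by simpa using hfx) (fun i => i) tendsto_id hlim).2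
  refine ⟨x, ?_, hall⟩
  rw [frontier, h.op.interior_eq]
  exact ⟨mem_closure_of_tendsto hlim (Eventually.of_forall hmem), h.nrc Q₀ hQ x hx⟩

end Pool.Agent.Lib.NRF
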