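import Pool.Agent.Lib.MP_a75e15_an.NR.CA

/-!
# SL: the discs `t ↦ F^[k] (Q + t w)`

PROOF. `F` differentiable (`ContDiff`), so `F^[k]` is differentiable (induction, `Differentiable.comp`, or `ContDiff.iterate`) and so is the disc; the derivative of `t ↦ H (Q + t • w)` is `fderiv ℂ H (Q + t • w) w`
(`HasFDerivAt.comp_hasDerivAt`), and `fderiv (F^[k+1]) x w = fderiv F (F^[k] x) (fderiv (F^[k]) x w)` (`Function.iterate_succ'`, `fderiv_comp`). The ball: `‖Q + t w - Q‖ = ‖t‖ ‖w‖ ≤ ‖t‖`.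
-/

set_option autoImplicit false

open Filter Topology

namespace Pool.Agent.Lib.NRF

/-- the disc -/
noncomputable def disc (F : ℂ × ℂ → ℂ × ℂ) (Q w : ℂ × ℂ) (k : ℕ) (t : ℂ) : ℂ × ℂ := F^[k] (Q + t • w)

theorem disc_mem {Q w : ℂ × ℂ} (hw : ‖w‖ ≤ 1) {t : ℂ} {r : ℝ} (ht : ‖t‖ < r) : Q + t • w ∈ Metric.ball Q r := by
  rw [Metric.mem_ball, dist_eq_norm, add_sub_cancel_left, norm_smul]
  calc ‖t‖ * ‖w‖ ≤ ‖t‖ * 1 := mul_le_mul_of_nonneg_left hw (norm_nonneg _)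
    _ = ‖t‖ := mul_one _
    _ < r := ht

private theorem SL_iter {F : ℂ × ℂ → ℂ × ℂ} (hF : ContDiff ℂ 2 F) (k : ℕ) : Differentiable ℂ (F^[k]) := by
  have hd : Differentiable ℂ F := hF.differentiable (by norm_num)
  exact hd.iterate k

private theorem SL_line (Q w : ℂ × ℂ) (t : ℂ) : HasDerivAt (fun t : ℂ => Q + t • w) w t := by
  have h : HasDerivAt (fun t : ℂ => t • w) ((1 : ℂ) • w) t := (hasDerivAt_id t).smul_const w
  rw [one_smul] at h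
  exact h.const_add Q

private theorem SL_has {F : ℂ × ℂ → ℂ × ℂ} (hF : ContDiff ℂ 2 F) (Q w : ℂ × ℂ) (k : ℕ) (t : ℂ) :
    HasDerivAt (disc F Q w k) (fderiv ℂ (F^[k]) (Q + t • w) w) t := by
  have h1 := ((SL_iter hF k) (Q + t • w)).hasFDerivAt
  exact h1.comp_hasDerivAt t (SL_line Q w t)

theorem disc_diff {F : ℂ × ℂ → ℂ × ℂ} (hF : ContDiff ℂ 2 F) (Q w : ℂ × ℂ) (k : ℕ) :
    Differentiable ℂ (disc F Q w k) := fun t => (SL_has hF Q w k t).differentiableAt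

theorem disc_deriv {F : ℂ × ℂ → ℂ × ℂ} (hF : ContDiff ℂ 2 F) (Q w : ℂ × ℂ) (k : ℕ) (t : ℂ) :
    deriv (disc F Q w k) t = fderiv ℂ (F^[k]) (Q + t • w) w := (SL_has hF Q w k t).deriv

theorem disc_succ (F : ℂ × ℂ → ℂ × ℂ) (Q w : ℂ × ℂ) (k : ℕ) (t : ℂ) :
    disc F Q w (k + 1) t = F (disc F Q w k t) := by
  unfold disc
  rw [Function.iterate_succ_apply']

theorem disc_deriv_succ {F : ℂ × ℂ → ℂ × ℂ} (hF : ContDiff ℂ 2 F) (Q w : ℂ × ℂ) (k : ℕ) (t : ℂ) :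
    deriv (disc F Q w (k + 1)) t = fderiv ℂ F (disc F Q w k t) (deriv (disc F Q w k) t) := by
  have hd : Differentiable ℂ F := hF.differentiable (by norm_num)
  have h1 := (hd (disc F Q w k t)).hasFDerivAt.comp_hasDerivAt t (disc_diff hF Q w k t).hasDerivAt
  have e : disc F Q w (k + 1) = F ∘ disc F Q w k := funext fun t => disc_succ F Q w k t
  rw [e]
  exact h1.deriv

/-- recentering: the disc with centre `Q + t₀ w` -/
theorem disc_shift (F : ℂ × ℂ → ℂ × ℂ) (Q w : ℂ × ℂ) (k : ℕ) (t₀ t : ℂ) :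
    disc F (Q + t₀ • w) w k t = disc F Q w k (t₀ + t) := by
  unfold disc
  rw [add_smul, add_assoc]

theorem disc_deriv_shift {F : ℂ × ℂ → ℂ × ℂ} (hF : ContDiff ℂ 2 F) (Q w : ℂ × ℂ) (k : ℕ) (t₀ t : ℂ) :
    deriv (disc F (Q + t₀ • w) w k) t = deriv (disc F Q w k) (t₀ + t) := by
  rw [disc_deriv hF, disc_deriv hF, add_smul, add_assoc]

end Pool.Agent.Lib.NRF
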