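import Pool.Agent.Lib.MP_a75e15_an.NR.CA
import Pool.Agent.Lib.MP_a75e15_an.NR.SL

/-!
# LP: uniform bounds for the derivatives of the iterates

PROOF. `bdd` at `Q`: `r₀`, `R`; `r = r₀/8`. For `x ∈ ball Q (r₀/2)` and `‖w‖ = 1`: the disc `disc F x w k` is bounded by `R` on `‖t‖ < r₀/2`, so `‖fderiv ℂ (F^[k]) x w‖ = ‖deriv (disc F x w k) 0‖ ≤ C₀` (`disc_deriv`, Cauchy), for general `w` by homogeneity. For `x ∈ ball Q r`, `x ≠ Q`, `u = (x - Q)/‖x - Q‖` and fixed `w`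
the function `φ t = fderiv ℂ (F^[k]) (Q + t • u) w` is differentiable (`F^[k]` is `C²`: `ContDiff.fderiv_right`, evaluation at `w`) and bounded by `C₀ ‖w‖` on `‖t‖ < r₀/2`: Cauchy (`Complex.norm_deriv_le_of_forall_mem_sphere_norm_le`) and the mean value inequality give `‖φ t - φ 0‖ ≤ C₁ ‖w‖ ‖t‖` for `‖t‖ ≤ r₀/4`.
-/

set_option autoImplicit false

open Filter Topology

namespace Pool.Agent.Lib.NRF

private theorem LP_iter {F : ℂ × ℂ → ℂ × ℂ} (hF : ContDiff ℂ 2 F) (k : ℕ) : ContDiff ℂ 2 (F^[k]) := by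
  induction k with
  | zero => exact contDiff_id
  | succ k ih =>
    rw [Function.iterate_succ']
    exact hF.comp ih

/-- homogeneity -/
private theorem LP_hom (L : ℂ × ℂ →L[ℂ] ℂ × ℂ) {C : ℝ} (h : ∀ w : ℂ × ℂ, ‖w‖ ≤ 1 → ‖L w‖ ≤ C)
    (w : ℂ × ℂ) : ‖L w‖ ≤ C * ‖w‖ := by
  by_cases hw : w = 0
  · subst hw
    simp
  · have hn : 0 < ‖w‖ := norm_pos_iff.mpr hw
    have hc : ‖((‖w‖ : ℝ) : ℂ)⁻¹‖ = ‖w‖⁻¹ := by
      rw [norm_inv, Complex.norm_real, norm_norm]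
    have h1 : ‖(((‖w‖ : ℝ) : ℂ)⁻¹) • w‖ ≤ 1 := by
      rw [norm_smul, hc, inv_mul_cancel₀ hn.ne']
    have h2 := h _ h1
    rw [map_smul, norm_smul, hc] at h2
    rw [inv_mul_le_iff₀ hn] at h2
    linarith [mul_comm C ‖w‖]

private theorem LP_diff {F : ℂ × ℂ → ℂ × ℂ} (hF : ContDiff ℂ 2 F) (k : ℕ) (Q u w : ℂ × ℂ) :
    Differentiable ℂ fun t : ℂ => fderiv ℂ (F^[k]) (Q + t • u) w := by
  have h1 : ContDiff ℂ 1 (fderiv ℂ (F^[k])) :=
    (LP_iter hF k).fderiv_right (m := 1) (by norm_num)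
  have h2 : Differentiable ℂ (fderiv ℂ (F^[k])) := h1.differentiable (by norm_num)
  have h3 : Differentiable ℂ fun t : ℂ => Q + t • u :=
    (differentiable_const Q).add (differentiable_id.smul_const u)
  exact (h2.comp h3).clm_apply (differentiable_const w)

theorem LPk {F G : ℂ × ℂ → ℂ × ℂ} {D : ℂ} {Ω : Set (ℂ × ℂ)} (h : Ctx F G D Ω) {Q : ℂ × ℂ} (hQ : Q ∈ Ω) :
    ∃ r : ℝ, 0 < r ∧ Metric.ball Q r ⊆ Ω ∧ ∃ C : ℝ, 0 < C ∧ ∀ k : ℕ, ∀ x ∈ Metric.ball Q r, ∀ w : ℂ × ℂ,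
      ‖fderiv ℂ (F^[k]) x w‖ ≤ C * ‖w‖ ∧ ‖fderiv ℂ (F^[k]) x w - fderiv ℂ (F^[k]) Q w‖ ≤ C * ‖x - Q‖ * ‖w‖ := by
  obtain ⟨r0, hr0, R, hR, hsub, hb⟩ := h.bdd Q hQ
  obtain ⟨s, hs⟩ : ∃ s : ℝ, s = r0 / 4 := ⟨_, rfl⟩
  have hs0 : 0 < s := by rw [hs]; positivity
  have h2s : 2 * s = r0 / 2 := by rw [hs]; ring
  obtain ⟨C1, hC1, hA⟩ := CA hs0 hR
  have hC10 : 0 < C1 := by linarith
  obtain ⟨C2, hC2, hB⟩ := CA hs0 hC10
  have hC20 : 0 < C2 := by linarith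
  -- first bound on the ball of radius `r0 / 2`
  have h1 : ∀ k : ℕ, ∀ x ∈ Metric.ball Q (r0 / 2), ∀ w : ℂ × ℂ, ‖w‖ ≤ 1 →
      ‖fderiv ℂ (F^[k]) x w‖ ≤ C1 := by
    intro k x hx w hw
    have h3 := (hA (disc F x w k) (disc_diff h.sm x w k).differentiableOn ?_).1 0
      (by rw [norm_zero]; exact hs0.le)
    · rw [disc_deriv h.sm, zero_smul, add_zero] at h3
      exact h3
    · intro t ht
      rw [mem_ball_zero_iff, h2s] at ht
      have h4 := disc_mem (Q := x) hw ht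
      refine hb _ ?_ k
      rw [Metric.mem_ball] at h4 hx ⊢
      calc dist (x + t • w) Q ≤ dist (x + t • w) x + dist x Q := dist_triangle _ _ _
        _ < r0 / 2 + r0 / 2 := add_lt_add h4 hx
        _ = r0 := by ring
  have h2 : ∀ k : ℕ, ∀ x ∈ Metric.ball Q (r0 / 4), ∀ w : ℂ × ℂ, ‖w‖ ≤ 1 →
      ‖fderiv ℂ (F^[k]) x w - fderiv ℂ (F^[k]) Q w‖ ≤ C2 * (1 + r0) * ‖x - Q‖ := by
    intro k x hx w hw
    by_cases hxQ : x = Q
    · subst hxQ
      simp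
    · have hn : 0 < ‖x - Q‖ := norm_pos_iff.mpr (sub_ne_zero.mpr hxQ)
      have hc : ‖((‖x - Q‖ : ℝ) : ℂ)⁻¹‖ = ‖x - Q‖⁻¹ := by
        rw [norm_inv, Complex.norm_real, norm_norm]
      obtain ⟨u, hu⟩ : ∃ u : ℂ × ℂ, u = (((‖x - Q‖ : ℝ) : ℂ)⁻¹) • (x - Q) := ⟨_, rfl⟩
      have hu1 : ‖u‖ ≤ 1 := by
        rw [hu, norm_smul, hc, inv_mul_cancel₀ hn.ne']
      have hxu : Q + ((‖x - Q‖ : ℝ) : ℂ) • u = x := by
        rw [hu, smul_smul, mul_inv_cancel₀ (by exact_mod_cast hn.ne'), one_smul]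
        abel
      have h3 := hB (fun t : ℂ => fderiv ℂ (F^[k]) (Q + t • u) w)
        (LP_diff h.sm k Q u w).differentiableOn ?_
      · have hxs : ‖x - Q‖ ≤ s := by
          rw [Metric.mem_ball, dist_eq_norm] at hx
          rw [hs]
          exact hx.le
        have hxn : ‖((‖x - Q‖ : ℝ) : ℂ)‖ = ‖x - Q‖ := by
          rw [Complex.norm_real, norm_norm]
        have h4 := h3.1 0 (by rw [norm_zero]; exact hs0.le)
        have h5 := (h3.2 0 ((‖x - Q‖ : ℝ) : ℂ) (by rw [norm_zero]; exact hs0.le)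
          (by rw [hxn]; exact hxs)).2
        simp only [hxu, zero_smul, add_zero, sub_zero] at h5
        rw [hxn] at h5
        have h6 : ‖((‖x - Q‖ : ℝ) : ℂ) •
            deriv (fun t : ℂ => fderiv ℂ (F^[k]) (Q + t • u) w) 0‖ ≤ ‖x - Q‖ * C2 := by
          rw [norm_smul, hxn]
          exact mul_le_mul_of_nonneg_left h4 hn.le
        have h7 : ‖fderiv ℂ (F^[k]) x w - fderiv ℂ (F^[k]) Q w‖ ≤
            C2 * ‖x - Q‖ ^ 2 + ‖x - Q‖ * C2 := by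
          have h8 : fderiv ℂ (F^[k]) x w - fderiv ℂ (F^[k]) Q w =
              (fderiv ℂ (F^[k]) x w - fderiv ℂ (F^[k]) Q w - ((‖x - Q‖ : ℝ) : ℂ) •
                deriv (fun t : ℂ => fderiv ℂ (F^[k]) (Q + t • u) w) 0) +
              ((‖x - Q‖ : ℝ) : ℂ) • deriv (fun t : ℂ => fderiv ℂ (F^[k]) (Q + t • u) w) 0 := by
            abel
          rw [h8]
          exact (norm_add_le _ _).trans (add_le_add h5 h6)
        have h9 : ‖x - Q‖ ≤ r0 := by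
          rw [hs] at hxs
          linarith
        calc ‖fderiv ℂ (F^[k]) x w - fderiv ℂ (F^[k]) Q w‖
            ≤ C2 * ‖x - Q‖ ^ 2 + ‖x - Q‖ * C2 := h7
          _ = C2 * (1 + ‖x - Q‖) * ‖x - Q‖ := by ring
          _ ≤ C2 * (1 + r0) * ‖x - Q‖ := by
              apply mul_le_mul_of_nonneg_right _ hn.le
              apply mul_le_mul_of_nonneg_left _ hC20.le
              linarith
      · intro t ht
        rw [mem_ball_zero_iff, h2s] at ht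
        exact h1 k _ (disc_mem hu1 ht) w hw
  refine ⟨r0 / 4, by positivity, (Metric.ball_subset_ball (by linarith)).trans hsub,
    C1 + C2 * (1 + r0), by positivity, ?_⟩
  intro k x hx w
  have hx2 : x ∈ Metric.ball Q (r0 / 2) := Metric.ball_subset_ball (by linarith) hx
  have hD0 : 0 ≤ C2 * (1 + r0) := by positivity
  constructor
  · have h3 := LP_hom (fderiv ℂ (F^[k]) x) (h1 k x hx2) w
    have h4 := mul_nonneg hD0 (norm_nonneg w)
    linarith [add_mul C1 (C2 * (1 + r0)) ‖w‖]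
  · have h3 := LP_hom (fderiv ℂ (F^[k]) x - fderiv ℂ (F^[k]) Q) (C := C2 * (1 + r0) * ‖x - Q‖)
      (fun w hw => by
        rw [ContinuousLinearMap.sub_apply]
        exact h2 k x hx w hw) w
    rw [ContinuousLinearMap.sub_apply] at h3
    refine h3.trans ?_
    apply mul_le_mul_of_nonneg_right _ (norm_nonneg w)
    apply mul_le_mul_of_nonneg_right _ (norm_nonneg _)
    linarith

end Pool.Agent.Lib.NRF
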