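import Pool.Agent.Lib.MP_a75e15_an.NR.Defs

/-!
# NI: quantitative inverse function theorem

PROOF. Let `L = fderiv ℂ H Q`; it is injective (`c ‖v‖ ≤ ‖L v‖`), so invertible (finite dimension: `LinearEquiv.ofInjectiveEndo`, `LinearEquiv.toContinuousLinearEquiv`), `‖L⁻¹ u‖ ≤ ‖u‖/c`. `δ = min (r/2) (c/(2C))`. On `closedBall Q δ` `‖fderiv H x - L‖ ≤ C δ ≤ c/2`, so `H` approximates `L` with constant `c/2`
(`ApproximatesLinearOn`, mean value inequality on the convex ball). `ApproximatesLinearOn.surjOn_closedBall_of_nonlinearRightInverse` (or a contraction argument: for `‖y - H Q‖ ≤ c δ/4` the map `x ↦ x - L⁻¹ (H x - y)` maps `closedBall Q δ` to itself and has Lipschitz constant `1/2`).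
`ρ = c δ/4`.
-/

set_option autoImplicit false

open Filter Topology

namespace Pool.Agent.Lib.NRF

theorem NI {C c r : ℝ} (hC : 0 < C) (hc : 0 < c) (hr : 0 < r) : ∃ ρ : ℝ, 0 < ρ ∧ ∀ (H : ℂ × ℂ → ℂ × ℂ) (Q : ℂ × ℂ),
    ContDiff ℂ 2 H → (∀ v, c * ‖v‖ ≤ ‖fderiv ℂ H Q v‖) →
    (∀ x ∈ Metric.ball Q r, ∀ w, ‖fderiv ℂ H x w - fderiv ℂ H Q w‖ ≤ C * ‖x - Q‖ * ‖w‖) →
    Metric.ball (H Q) ρ ⊆ H '' Metric.ball Q r := by
  obtain ⟨δ, hδ⟩ : ∃ δ : ℝ, δ = min (r / 2) (c / (2 * C)) := ⟨_, rfl⟩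
  have hδ0 : 0 < δ := by
    rw [hδ]
    exact lt_min (by positivity) (by positivity)
  have hδr : δ < r := by
    have : δ ≤ r / 2 := by
      rw [hδ]
      exact min_le_left _ _
    linarith
  have hδc : C * δ ≤ c / 2 := by
    have h1 : δ ≤ c / (2 * C) := by
      rw [hδ]
      exact min_le_right _ _
    calc C * δ ≤ C * (c / (2 * C)) := mul_le_mul_of_nonneg_left h1 hC.le
      _ = c / 2 := by field_simp
  refine ⟨c / 2 * δ, by positivity, fun H Q hH hinj hlip => ?_⟩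
  obtain ⟨L, hL⟩ : ∃ L : ℂ × ℂ →L[ℂ] ℂ × ℂ, L = fderiv ℂ H Q := ⟨_, rfl⟩
  rw [← hL] at hinj
  have hLinj : Function.Injective (L : ℂ × ℂ →ₗ[ℂ] ℂ × ℂ) := by
    intro a b hab
    have hab' : L a = L b := hab
    have h1 := hinj (a - b)
    rw [map_sub, hab', sub_self, norm_zero] at h1
    have h2 : ‖a - b‖ ≤ 0 := by
      by_contra h
      push Not at h
      have := mul_pos hc h
      linarith
    exact sub_eq_zero.1 (norm_le_zero_iff.1 h2)
  obtain ⟨e, he⟩ : ∃ e : (ℂ × ℂ) ≃ₗ[ℂ] (ℂ × ℂ), e = LinearEquiv.ofInjectiveEndo (L : ℂ × ℂ →ₗ[ℂ] ℂ × ℂ) hLinj :=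
    ⟨_, rfl⟩
  have heL : ∀ v, e v = L v := by
    intro v
    rw [he]
    rfl
  have hLe : ∀ y, L (e.symm y) = y := by
    intro y
    rw [← heL, LinearEquiv.apply_symm_apply]
  have hcn : (0 : ℝ) ≤ 1 / c := by positivity
  let finv : L.NonlinearRightInverse :=
    { toFun := fun y => e.symm y
      nnnorm := ⟨1 / c, hcn⟩
      bound' := by
        intro y
        have h1 := hinj (e.symm y)
        rw [hLe] at h1
        change ‖e.symm y‖ ≤ 1 / c * ‖y‖
        rw [one_div, inv_mul_eq_div, le_div_iff₀ hc, mul_comm]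
        exact h1
      right_inv' := by
        intro y
        exact hLe y }
  have hc2 : (0 : ℝ) ≤ c / 2 := by positivity
  have happ : ApproximatesLinearOn H L (Metric.closedBall Q δ) ⟨c / 2, hc2⟩ := by
    intro x hx y hy
    have hdiff : ∀ z ∈ Metric.closedBall Q δ, HasFDerivWithinAt H (fderiv ℂ H z) (Metric.closedBall Q δ) z := by
      intro z _
      exact ((hH.differentiable (by norm_num)) z).hasFDerivAt.hasFDerivWithinAt
    have hbd : ∀ z ∈ Metric.closedBall Q δ, ‖fderiv ℂ H z - L‖ ≤ c / 2 := by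
      intro z hz
      have hz1 : dist z Q ≤ δ := Metric.mem_closedBall.1 hz
      have hz2 : z ∈ Metric.ball Q r := Metric.mem_ball.2 (lt_of_le_of_lt hz1 hδr)
      refine ContinuousLinearMap.opNorm_le_bound _ hc2 fun w => ?_
      have h3 := hlip z hz2 w
      rw [ContinuousLinearMap.sub_apply, hL]
      refine h3.trans ?_
      refine mul_le_mul_of_nonneg_right ?_ (norm_nonneg w)
      rw [← dist_eq_norm]
      exact (mul_le_mul_of_nonneg_left hz1 hC.le).trans hδc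
    have h4 := (convex_closedBall Q δ).norm_image_sub_le_of_norm_hasFDerivWithin_le' hdiff hbd hy hx
    exact h4
  have hsurj := happ.surjOn_closedBall_of_nonlinearRightInverse finv hδ0.le subset_rfl
  intro y hy
  have hy1 : y ∈ Metric.closedBall (H Q) (((finv.nnnorm : ℝ)⁻¹ - ((⟨c / 2, hc2⟩ : NNReal) : ℝ)) * δ) := by
    rw [Metric.mem_closedBall]
    have h5 : ((finv.nnnorm : ℝ)⁻¹ - ((⟨c / 2, hc2⟩ : NNReal) : ℝ)) * δ = c / 2 * δ := by
      have h6 : (finv.nnnorm : ℝ) = 1 / c := rfl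
      have h7 : ((⟨c / 2, hc2⟩ : NNReal) : ℝ) = c / 2 := rfl
      rw [h6, h7, one_div, inv_inv]
      ring
    rw [h5]
    exact (Metric.mem_ball.1 hy).le
  obtain ⟨x, hx, hxy⟩ := hsurj hy1
  refine ⟨x, Metric.mem_ball.2 (lt_of_le_of_lt (Metric.mem_closedBall.1 hx) hδr), hxy⟩

end Pool.Agent.Lib.NRF
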