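import Pool.Agent.Lib.MP_a75e15_an.NR.PC
import Pool.Agent.Lib.MP_a75e15_an.NR.NI
import Pool.Agent.Lib.MP_a75e15_an.NR.LP

/-!
# NR1: non-recurrent components need `‖D‖ < 1`

PROOF. Suppose `1 ≤ ‖D‖`; `Q ∈ Ω`; `LPk`: `r`, `C`. `wg (fderiv (F^[k]) Q a) (fderiv (F^[k]) Q b) = D^k wg a b` (induction, chain rule), so as in `PC_low` `‖fderiv (F^[k]) Q v‖ ≥ c ‖v‖` with `c = 1/(2C)` for all `k`: for `e = (1,0)` or `(0,1)` `‖v‖ ≤ ‖D^k‖ ‖wg v e‖ = ‖wg (L v) (L e)‖ ≤ 2 ‖L v‖ C`.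
`NI`: `ball (F^[k] Q) ρ ⊆ F^[k] '' ball Q r ⊆ Ω` for all `k`, `ρ` independent of `k` (`maps`). The orbit is bounded (`bdd`): let `x` be a cluster point (compact closed ball, `IsCompact.exists_mapClusterPt`). For some `k`, `dist (F^[k] Q) x < ρ`, so `x ∈ Ω`, against `nrc`.
-/

set_option autoImplicit false

open Filter Topology

namespace Pool.Agent.Lib.NRF

private theorem NR1_jac {F : ℂ × ℂ → ℂ × ℂ} {D : ℂ} (hF : ContDiff ℂ 2 F)
    (hj : ∀ x a b, wg (fderiv ℂ F x a) (fderiv ℂ F x b) = D * wg a b) :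
    ∀ (k : ℕ) (x a b : ℂ × ℂ), wg (fderiv ℂ (F^[k]) x a) (fderiv ℂ (F^[k]) x b) = D ^ k * wg a b := by
  intro k
  have hd : Differentiable ℂ F := hF.differentiable (by norm_num)
  induction k with
  | zero =>
    intro x a b
    simp
  | succ k ih =>
    intro x a b
    have hdk : Differentiable ℂ (F^[k]) := hd.iterate k
    have e : fderiv ℂ (F^[k + 1]) x = (fderiv ℂ F (F^[k] x)).comp (fderiv ℂ (F^[k]) x) := by
      rw [Function.iterate_succ']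
      exact fderiv_comp x (hd _) (hdk _)
    rw [e]
    simp only [ContinuousLinearMap.comp_apply]
    rw [hj, ih]
    ring

theorem NR1 {F G : ℂ × ℂ → ℂ × ℂ} {D : ℂ} {Ω : Set (ℂ × ℂ)} (h : Ctx F G D Ω) (hne : Ω.Nonempty) : ‖D‖ < 1 := by
  by_contra hD
  push Not at hD
  obtain ⟨Q, hQ⟩ := hne
  obtain ⟨r, hr, hsub, C, hC, hLP⟩ := LPk h hQ
  have hQb : Q ∈ Metric.ball Q r := Metric.mem_ball_self hr
  have hlow : ∀ (k : ℕ) (v : ℂ × ℂ), (1 / (2 * C)) * ‖v‖ ≤ ‖fderiv ℂ (F^[k]) Q v‖ := by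
    intro k v
    have hDk : 1 ≤ ‖D ^ k‖ := by
      rw [norm_pow]
      exact one_le_pow₀ hD
    have hex : ∃ e : ℂ × ℂ, ‖e‖ ≤ 1 ∧ ‖v‖ ≤ ‖wg v e‖ := by
      by_cases hv : ‖v.1‖ ≤ ‖v.2‖
      · refine ⟨(1, 0), ?_, ?_⟩
        · simp [Prod.norm_def]
        · simp only [wg, mul_zero, mul_one, zero_sub, norm_neg]
          rw [Prod.norm_def]
          exact max_le hv le_rfl
      · refine ⟨(0, 1), ?_, ?_⟩
        · simp [Prod.norm_def]
        · push Not at hv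
          simp only [wg, mul_zero, mul_one, sub_zero]
          rw [Prod.norm_def]
          exact max_le le_rfl hv.le
    obtain ⟨e, he, hve⟩ := hex
    have h1 := NR1_jac h.sm h.jac k Q v e
    have h2 : ‖v‖ ≤ ‖wg (fderiv ℂ (F^[k]) Q v) (fderiv ℂ (F^[k]) Q e)‖ := by
      rw [h1, norm_mul]
      calc ‖v‖ ≤ ‖wg v e‖ := hve
        _ = 1 * ‖wg v e‖ := (one_mul _).symm
        _ ≤ ‖D ^ k‖ * ‖wg v e‖ := mul_le_mul_of_nonneg_right hDk (norm_nonneg _)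
    have h3 : ‖fderiv ℂ (F^[k]) Q e‖ ≤ C := by
      calc ‖fderiv ℂ (F^[k]) Q e‖ ≤ C * ‖e‖ := (hLP k Q hQb e).1
        _ ≤ C * 1 := by gcongr
        _ = C := mul_one _
    have h4 : ‖v‖ ≤ 2 * ‖fderiv ℂ (F^[k]) Q v‖ * C := by
      calc ‖v‖ ≤ ‖wg (fderiv ℂ (F^[k]) Q v) (fderiv ℂ (F^[k]) Q e)‖ := h2
        _ ≤ 2 * ‖fderiv ℂ (F^[k]) Q v‖ * ‖fderiv ℂ (F^[k]) Q e‖ := wg_le _ _
        _ ≤ 2 * ‖fderiv ℂ (F^[k]) Q v‖ * C := by gcongr
    rw [one_div, inv_mul_le_iff₀ (by positivity)]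
    linarith
  obtain ⟨ρ, hρ, hNI⟩ := NI (C := C) (c := 1 / (2 * C)) (r := r) hC (by positivity) hr
  have hcd : ∀ k : ℕ, ContDiff ℂ 2 (F^[k]) := by
    intro k
    induction k with
    | zero => exact contDiff_id
    | succ k ih =>
      rw [Function.iterate_succ']
      exact h.sm.comp ih
  have hall : ∀ (k : ℕ) (x : ℂ × ℂ), x ∈ Ω → F^[k] x ∈ Ω := by
    intro k
    induction k with
    | zero => intro x hx; simpa using hx
    | succ k ih =>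
      intro x hx
      rw [Function.iterate_succ_apply']
      exact h.maps _ (ih x hx)
  have hball : ∀ k : ℕ, Metric.ball (F^[k] Q) ρ ⊆ Ω := by
    intro k y hy
    obtain ⟨x, hx, hxy⟩ := hNI (F^[k]) Q (hcd k) (hlow k) (fun x hx w => (hLP k x hx w).2) hy
    rw [← hxy]
    exact hall k x (hsub hx)
  obtain ⟨r', hr', R, hR, hsub', hbd⟩ := h.bdd Q hQ
  have hmem : ∀ k : ℕ, F^[k] Q ∈ Metric.closedBall (0 : ℂ × ℂ) R := by
    intro i
    rw [mem_closedBall_zero_iff]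
    exact hbd Q (Metric.mem_ball_self hr') _
  obtain ⟨x, -, φ, hφ, hx⟩ := (isCompact_closedBall (0 : ℂ × ℂ) R).tendsto_subseq hmem
  have hcl : MapClusterPt x atTop (fun k : ℕ => F^[k] Q) := by
    have h1 : MapClusterPt x atTop ((fun k : ℕ => F^[k] Q) ∘ φ) :=
      Filter.Tendsto.mapClusterPt hx
    exact h1.of_comp hφ.tendsto_atTop
  have hxn : x ∉ Ω := h.nrc Q hQ x hcl
  have hev : ∀ᶠ i in atTop, ((fun k : ℕ => F^[k] Q) ∘ φ) i ∈ Metric.ball x ρ := hx (Metric.ball_mem_nhds x hρ)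
  obtain ⟨i, hi⟩ := hev.exists
  apply hxn
  apply hball (φ i)
  rw [Metric.mem_ball, dist_comm]
  exact hi

end Pool.Agent.Lib.NRF
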