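import Pool.Agent.Lib.MP_a75e15_an.NR.A4
import Pool.Agent.Lib.MP_a75e15_an.NR.NR1
import Pool.Agent.Lib.MP_a75e15_an.NR.F3
import Pool.Agent.Lib.MP_a75e15_an.NR.CX

/-!
# FIN: the theorem

PROOF. `CX`, `Ω` is not empty (`mem_connectedComponentIn`), `NR1`: `‖D‖ < 1`. `f^[n * k] = (f^[n])^[k]` (`Function.iterate_mul`). `A4`, `A3`, `T6` (`P` periodic of period `m` for `f`: `(f^[n])^[m] P = (f^[m])^[n] P = P`), `F3`.
-/

set_option autoImplicit false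

open Filter Topology

namespace Pool.Agent.Lib.NRF

theorem FIN (f : ℂ × ℂ → ℂ × ℂ) (hf : PolyAut f) (Ω : Set (ℂ × ℂ)) (hΩ : FatouComponent f Ω) (n : ℕ) (hn : 1 ≤ n)
    (hinv : f^[n] '' Ω = Ω) (hnr : NonRecurrentAlong f n Ω) :
    (∀ Q ∈ Ω, ∀ ε : ℝ, 0 < ε → BD0 {k : ℕ | ∀ P ∈ bdFix f n Ω, ε ≤ dist (f^[n * k] Q) P}) ∧
    (∀ Q ∈ Ω, ∀ Q' ∈ Ω, ∀ ε : ℝ, 0 < ε → BD0 {k : ℕ | ε ≤ dist (f^[n * k] Q) (f^[n * k] Q')}) ∧
    (∀ Q₀ ∈ Ω, ∀ P : ℂ × ℂ, ∀ m : ℕ, 1 ≤ m → f^[m] P = P → ∀ k : ℕ → ℕ, Tendsto k atTop atTop →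
      Tendsto (fun i => f^[n * k i] Q₀) atTop (𝓝 P) →
      f^[n] P = P ∧ ∀ Q ∈ Ω, Tendsto (fun i => f^[n * k i] Q) atTop (𝓝 P)) ∧
    (∀ Q₀ ∈ Ω, {x : ℂ × ℂ | MapClusterPt x atTop (fun k : ℕ => f^[n * k] Q₀)}.Finite →
      ∃ P ∈ frontier Ω, ∀ Q ∈ Ω, Tendsto (fun k : ℕ => f^[n * k] Q) atTop (𝓝 P)) := by
  obtain ⟨G, D, h⟩ := CXa hf hΩ hn hinv hnr
  have hne : Ω.Nonempty := by
    obtain ⟨z, hz, hz'⟩ := hΩ
    rw [hz']
    exact ⟨z, mem_connectedComponentIn hz⟩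
  have hD := NR1 h hne
  have hit : ∀ k, f^[n * k] = (f^[n])^[k] := fun k => Function.iterate_mul f n k
  refine ⟨?_, ?_, ?_, ?_⟩
  · intro Q hQ ε hε
    have h1 := A4 h hD hQ hε
    have e : {k : ℕ | ∀ P ∈ bdFix f n Ω, ε ≤ dist (f^[n * k] Q) P} =
        {k : ℕ | ∀ P ∈ frontier Ω, f^[n] P = P → ε ≤ dist ((f^[n])^[k] Q) P} := by
      ext k
      simp only [Set.mem_ofPred_eq, bdFix, hit]
      constructor
      · intro hh P hP hP'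
        exact hh P ⟨hP, hP'⟩
      · rintro hh P ⟨hP, hP'⟩
        exact hh P hP hP'
    rw [e]
    exact h1
  · intro Q hQ Q' hQ' ε hε
    have h1 := A3 h hD hQ hQ' hε
    simpa only [hit] using h1
  · intro Q₀ hQ P m hm hP k hk hk'
    have hP' : (f^[n])^[m] P = P := by
      rw [← Function.iterate_mul, mul_comm, Function.iterate_mul]
      exact Function.iterate_fixed hP n
    simp only [hit] at hk' ⊢
    exact T6 h hD hQ hm hP' k hk hk'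
  · intro Q₀ hQ hW
    simp only [hit] at hW ⊢
    exact F3 h hD hQ hW

end Pool.Agent.Lib.NRF
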