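import Pool.Agent.Lib.MP_a75e15_an.NR.Defs

/-!
# JC: polynomial automorphisms are smooth with constant Jacobian determinant

PROOF. `PolyMap.contDiff`: evaluation of a multivariate polynomial at `![z.1, z.2]` is `C^∞` (induction on the polynomial, `MvPolynomial.induction_on`: constants, sums, multiplication by a variable `X i`, i.e. by `z.1` or `z.2`).
`JC`: let `J z = wg (fderiv ℂ f z (1,0)) (fderiv ℂ f z (0,1))`; by bilinearity `wg (L a) (L b) = wg (L (1,0)) (L (0,1)) * wg a b` for every linear `L`. (1) `J z ≠ 0`: `g ∘ f = id`, so `fderiv g (f z) ∘ fderiv f z = id` and by the previous identity for both maps the product of the two determinants is `1`.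
(2) `J` is a polynomial function of `z`: the partial derivatives of a polynomial are polynomials (`MvPolynomial.pderiv`), or: for all `z, e` the function `t ↦ J (z + t e)` is a polynomial in `t ∈ ℂ` (prove for the class of functions `h : ℂ × ℂ → ℂ` which are evaluations of `MvPolynomial (Fin 2) ℂ`: the directional
derivatives are again in the class, by `MvPolynomial.induction_on`; sums and products are; restricted to a line such a function is given by a `Polynomial ℂ`). (3) A polynomial in one variable over `ℂ` without zeros is constant (`IsAlgClosed.exists_root` / `Complex.exists_root`), so `J (z + t e)` does not depend on `t`;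
with `e = z' - z`, `t = 0, 1`: `J z = J z'`. `D = J 0`.
-/

set_option autoImplicit false

open Filter Topology

namespace Pool.Agent.Lib.NRF

private noncomputable def ev (p : MvPolynomial (Fin 2) ℂ) (z : ℂ × ℂ) : ℂ :=
  MvPolynomial.eval ![z.1, z.2] p

private theorem ev_C (a : ℂ) (z : ℂ × ℂ) : ev (MvPolynomial.C a) z = a := by
  unfold ev; simp

private theorem ev_add (p q : MvPolynomial (Fin 2) ℂ) (z : ℂ × ℂ) :
    ev (p + q) z = ev p z + ev q z := by
  unfold ev; simp

private theorem ev_sub (p q : MvPolynomial (Fin 2) ℂ) (z : ℂ × ℂ) :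
    ev (p - q) z = ev p z - ev q z := by
  unfold ev; simp

private theorem ev_mul (p q : MvPolynomial (Fin 2) ℂ) (z : ℂ × ℂ) :
    ev (p * q) z = ev p z * ev q z := by
  unfold ev; simp

private theorem ev_X (i : Fin 2) (z : ℂ × ℂ) :
    ev (MvPolynomial.X i) z = if i = 0 then z.1 else z.2 := by
  unfold ev
  fin_cases i <;> simp

private theorem ev_contDiff (p : MvPolynomial (Fin 2) ℂ) : ContDiff ℂ 2 (ev p) := by
  induction p using MvPolynomial.induction_on with
  | C a =>
    have h : ev (MvPolynomial.C a) = fun _ => a := funext fun z => ev_C a z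
    rw [h]; exact contDiff_const
  | add p q hp hq =>
    have h : ev (p + q) = fun z => ev p z + ev q z := funext fun z => ev_add p q z
    rw [h]; exact hp.add hq
  | mul_X p i hp =>
    have h : ev (p * MvPolynomial.X i) = fun z => ev p z * (if i = 0 then z.1 else z.2) :=
      funext fun z => by rw [ev_mul, ev_X]
    rw [h]
    apply hp.mul
    split_ifs
    · exact contDiff_fst
    · exact contDiff_snd

private noncomputable def LL (p : MvPolynomial (Fin 2) ℂ) (z : ℂ × ℂ) : ℂ × ℂ →L[ℂ] ℂ :=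
  ev (MvPolynomial.pderiv 0 p) z • ContinuousLinearMap.fst ℂ ℂ ℂ +
    ev (MvPolynomial.pderiv 1 p) z • ContinuousLinearMap.snd ℂ ℂ ℂ

private theorem LL_apply (p : MvPolynomial (Fin 2) ℂ) (z a : ℂ × ℂ) :
    LL p z a = ev (MvPolynomial.pderiv 0 p) z * a.1 + ev (MvPolynomial.pderiv 1 p) z * a.2 := by
  unfold LL; simp

private theorem ev_zero (z : ℂ × ℂ) : ev 0 z = 0 := by
  unfold ev; simp

private theorem ev_one (z : ℂ × ℂ) : ev 1 z = 1 := by
  unfold ev; simp

private theorem hasD (p : MvPolynomial (Fin 2) ℂ) (z : ℂ × ℂ) : HasFDerivAt (ev p) (LL p z) z := by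
  induction p using MvPolynomial.induction_on with
  | C a =>
    have h : ev (MvPolynomial.C a) = fun _ => a := funext fun z => ev_C a z
    have h2 : LL (MvPolynomial.C a) z = 0 := by
      ext <;> simp [LL_apply, ev_zero]
    rw [h, h2]; exact hasFDerivAt_const a z
  | add p q hp hq =>
    have h : ev (p + q) = fun z => ev p z + ev q z := funext fun z => ev_add p q z
    have h2 : LL (p + q) z = LL p z + LL q z := by
      apply ContinuousLinearMap.ext
      intro a
      rw [ContinuousLinearMap.add_apply, LL_apply, LL_apply, LL_apply, map_add, map_add, ev_add, ev_add]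
      ring
    rw [h, h2]; exact hp.add hq
  | mul_X p i hp =>
    have hX : HasFDerivAt (fun z : ℂ × ℂ => if i = 0 then z.1 else z.2)
        (if i = 0 then ContinuousLinearMap.fst ℂ ℂ ℂ else ContinuousLinearMap.snd ℂ ℂ ℂ) z := by
      split_ifs
      · exact hasFDerivAt_fst
      · exact hasFDerivAt_snd
    have h : ev (p * MvPolynomial.X i) = fun z => ev p z * (if i = 0 then z.1 else z.2) :=
      funext fun z => by rw [ev_mul, ev_X]
    rw [h]
    refine (hp.mul hX).congr_fderiv ?_
    apply ContinuousLinearMap.ext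
    intro a
    rw [LL_apply, MvPolynomial.pderiv_mul, MvPolynomial.pderiv_mul, ev_add, ev_add, ev_mul, ev_mul,
      ev_mul, ev_mul, ev_X, MvPolynomial.pderiv_X, MvPolynomial.pderiv_X]
    fin_cases i
    · simp [LL_apply, ev_zero, ev_one]
      ring
    · simp [LL_apply, ev_zero, ev_one]
      ring

theorem PolyMap.contDiff {f : ℂ × ℂ → ℂ × ℂ} (hf : PolyMap f) : ContDiff ℂ 2 f := by
  obtain ⟨p, q, h⟩ := hf
  have h1 : f = fun z => (ev p z, ev q z) := funext h
  rw [h1]
  exact (ev_contDiff p).prodMk (ev_contDiff q)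

/-- the Jacobian determinant as a polynomial -/
private noncomputable def JP (p q : MvPolynomial (Fin 2) ℂ) : MvPolynomial (Fin 2) ℂ :=
  MvPolynomial.pderiv 0 p * MvPolynomial.pderiv 1 q - MvPolynomial.pderiv 0 q * MvPolynomial.pderiv 1 p

private theorem fder {f : ℂ × ℂ → ℂ × ℂ} {p q : MvPolynomial (Fin 2) ℂ}
    (h : ∀ z, f z = (ev p z, ev q z)) (z a : ℂ × ℂ) :
    fderiv ℂ f z a = (LL p z a, LL q z a) := by
  have h1 : f = fun z => (ev p z, ev q z) := funext h
  have h2 : HasFDerivAt f ((LL p z).prod (LL q z)) z := by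
    rw [h1]; exact (hasD p z).prodMk (hasD q z)
  rw [h2.fderiv]
  rfl

private theorem wg_fder {f : ℂ × ℂ → ℂ × ℂ} {p q : MvPolynomial (Fin 2) ℂ}
    (h : ∀ z, f z = (ev p z, ev q z)) (z a b : ℂ × ℂ) :
    wg (fderiv ℂ f z a) (fderiv ℂ f z b) = ev (JP p q) z * wg a b := by
  rw [fder h, fder h]
  unfold wg JP
  simp only [LL_apply, ev_sub, ev_mul]
  ring

private theorem line (P : MvPolynomial (Fin 2) ℂ) (z e : ℂ × ℂ) :
    ∃ Q : Polynomial ℂ, ∀ t : ℂ, Q.eval t = ev P (z + t • e) := by
  induction P using MvPolynomial.induction_on with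
  | C a => exact ⟨Polynomial.C a, fun t => by rw [ev_C, Polynomial.eval_C]⟩
  | add p q hp hq =>
    obtain ⟨Q1, h1⟩ := hp
    obtain ⟨Q2, h2⟩ := hq
    exact ⟨Q1 + Q2, fun t => by rw [ev_add, Polynomial.eval_add, h1, h2]⟩
  | mul_X p i hp =>
    obtain ⟨Q1, h1⟩ := hp
    refine ⟨Q1 * (Polynomial.C (if i = 0 then z.1 else z.2) +
      Polynomial.C (if i = 0 then e.1 else e.2) * Polynomial.X), fun t => ?_⟩
    rw [ev_mul, ev_X, Polynomial.eval_mul, h1, Polynomial.eval_add, Polynomial.eval_mul,
      Polynomial.eval_C, Polynomial.eval_C, Polynomial.eval_X]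
    congr 1
    split_ifs
    · simp [mul_comm]
    · simp [mul_comm]

private theorem const_of_ne (P : MvPolynomial (Fin 2) ℂ) (hP : ∀ z, ev P z ≠ 0) (z : ℂ × ℂ) :
    ev P z = ev P 0 := by
  obtain ⟨Q, hQ⟩ := line P z (0 - z)
  have h1 : Q.degree = 0 := by
    by_contra hd
    obtain ⟨t, ht⟩ := IsAlgClosed.exists_root Q hd
    apply hP (z + t • (0 - z))
    rw [← hQ t]
    exact ht
  have h2 := Polynomial.eq_C_of_degree_eq_zero h1
  have h3 : Q.eval 0 = Q.eval 1 := by
    rw [h2, Polynomial.eval_C, Polynomial.eval_C]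
  rw [hQ 0, hQ 1] at h3
  have e1 : z + (0 : ℂ) • (0 - z) = z := by rw [zero_smul, add_zero]
  have e2 : z + (1 : ℂ) • (0 - z) = 0 := by rw [one_smul]; abel
  rw [e1, e2] at h3
  exact h3

theorem JC {f : ℂ × ℂ → ℂ × ℂ} (hf : PolyAut f) :
    ∃ D : ℂ, D ≠ 0 ∧ ∀ x a b, wg (fderiv ℂ f x a) (fderiv ℂ f x b) = D * wg a b := by
  obtain ⟨⟨p, q, h⟩, g, ⟨p', q', h'⟩, hgf, hfg⟩ := hf
  have hf2 : ContDiff ℂ 2 f := PolyMap.contDiff ⟨p, q, h⟩
  have hg2 : ContDiff ℂ 2 g := PolyMap.contDiff ⟨p', q', h'⟩
  have hJ : ∀ z, ev (JP p q) z ≠ 0 := by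
    intro z hz
    have hd : fderiv ℂ (g ∘ f) z = (fderiv ℂ g (f z)).comp (fderiv ℂ f z) :=
      fderiv_comp z (hg2.differentiable (by norm_num)).differentiableAt
        (hf2.differentiable (by norm_num)).differentiableAt
    have hid : g ∘ f = id := funext hgf
    rw [hid, fderiv_id] at hd
    have e1 : ∀ a : ℂ × ℂ, fderiv ℂ g (f z) (fderiv ℂ f z a) = a := by
      intro a
      have := congrArg (fun L : ℂ × ℂ →L[ℂ] ℂ × ℂ => L a) hd
      simpa using this.symm
    have h3 := wg_fder h' (f z) (fderiv ℂ f z (1, 0)) (fderiv ℂ f z (0, 1))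
    rw [e1, e1, wg_fder h, hz] at h3
    simp [wg] at h3
  refine ⟨ev (JP p q) 0, hJ 0, fun x a b => ?_⟩
  rw [wg_fder h, const_of_ne (JP p q) hJ x]

end Pool.Agent.Lib.NRF
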