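import Pool.Agent.Lib.MP_a75e15_an.NR.SH
import Pool.Agent.Lib.MP_a75e15_an.NR.SL

/-!
# KL: the key lemma

PROOF. Constants: `R` bounds `F^[k]` on `ball Q r`; `C` = maximum of the constants of `PC_up` (for `R`) and `CA` (for `R`, `s`); `ρ` from `SH`. Suppose the statement holds for all `J`; let `a_J ≥ J` be the corresponding time.
`SH` with `x j t = disc F Q w (a_J + j) t`, `v j t = deriv (disc F Q w (a_J + j)) t`, used with `J` replaced by `J - 1` (or use the hypothesis at `J + 1`): `‖F^[j] z‖ ≤ R + 1` for `‖z - F^[a_J] Q‖ < ρ`, `j ≤ J`.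
The points `y_J = F^[a_J] Q` lie in the compact `closedBall 0 R`; let `φ` be strictly increasing with `y_{φ i} → x`. As `a_{φ i} → ∞`, `x` is a cluster point of `k ↦ F^[k] Q` (`MapClusterPt`, e.g. `MapClusterPt.of_comp` with
`Tendsto (fun i => a_{φ i}) atTop atTop`), so `x ∉ Ω` (`nrc`); `x ∈ closure Ω` (limit of points of `Ω`: `maps` iterated). For `z ∈ ball x (ρ/2)` and `k`: choose `i` with `φ i ≥ k` and `‖y_{φ i} - x‖ < ρ/2`: `‖F^[k] z‖ ≤ R + 1`.
`fat` gives `x ∈ Ω`: contradiction. (`Q ∈ Ω` because `Q ∈ ball Q r ⊆ Ω`.)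
-/

set_option autoImplicit false

open Filter Topology

namespace Pool.Agent.Lib.NRF

theorem KL {F G : ℂ × ℂ → ℂ × ℂ} {D : ℂ} {Ω : Set (ℂ × ℂ)} (h : Ctx F G D Ω) (hD : ‖D‖ < 1) {Q w : ℂ × ℂ}
    {r R s c κ : ℝ} (hr : Metric.ball Q r ⊆ Ω) (hR : 0 < R) (hb : ∀ x ∈ Metric.ball Q r, ∀ k : ℕ, ‖F^[k] x‖ ≤ R)
    (hw : ‖w‖ ≤ 1) (hs : 0 < s) (hsr : 2 * s ≤ r) (hc : 0 < c) (hκ : 0 < κ) (hκ1 : κ ≤ 1)
    (hq : (1 + ‖D‖) / 2 ≤ κ ^ 3)
    (hlow : ∀ J : ℕ, ∃ a : ℕ, J ≤ a ∧ ∀ j : ℕ, j ≤ J → ∀ t : ℂ, ‖t‖ ≤ s →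
      c * κ ^ j ≤ ‖deriv (disc F Q w (a + j)) t‖) : False := by
  obtain ⟨C1, hC1, h1, h2⟩ := PC_up h.sm R
  obtain ⟨C2, hC2, h3⟩ := CA hs hR
  have hCm : 1 ≤ max C1 C2 := le_trans hC1 (le_max_left _ _)
  obtain ⟨ρ, hρ, hSH⟩ := SH hD h.jac (R := R) (C := max C1 C2) (c := c) (κ := κ) (s := s) hCm
    (fun x hx v => (h1 x hx v).trans (mul_le_mul_of_nonneg_right (le_max_left _ _) (norm_nonneg _)))
    (fun x e hx he => (h2 x e hx he).trans (mul_le_mul_of_nonneg_right (le_max_left _ _) (by positivity)))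
    hc hκ hκ1 hq hs
  have hr0 : 0 < r := by linarith
  have hQ : Q ∈ Ω := hr (Metric.mem_ball_self hr0)
  choose a ha1 ha2 using fun J : ℕ => hlow (J + 1)
  -- bounds for the discs
  have hdisc : ∀ k : ℕ, ∀ t ∈ Metric.ball (0 : ℂ) (2 * s), ‖disc F Q w k t‖ ≤ R := by
    intro k t ht
    rw [Metric.mem_ball, dist_zero_right] at ht
    exact hb _ (disc_mem hw (lt_of_lt_of_le ht hsr)) k
  have hCA := fun k : ℕ => h3 (disc F Q w k) (disc_diff h.sm Q w k).differentiableOn (hdisc k)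
  have hkey : ∀ J : ℕ, ∀ z : ℂ × ℂ, ‖z - F^[a J] Q‖ < ρ → ∀ j, j ≤ J + 1 → ‖F^[j] z‖ ≤ R + 1 := by
    intro J z hz
    refine hSH J (fun j t => disc F Q w (a J + j) t) (fun j t => deriv (disc F Q w (a J + j)) t) ?_ ?_ ?_ ?_ z ?_
    · intro j _ t _
      exact disc_succ F Q w (a J + j) t
    · intro j _ t _
      exact disc_deriv_succ h.sm Q w (a J + j) t
    · intro j hj t ht
      refine ⟨hdisc _ t ?_, ((hCA (a J + j)).1 t ht).trans (le_max_right _ _), ha2 J j hj t ht⟩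
      rw [Metric.mem_ball, dist_zero_right]
      linarith
    · intro j _ t t' ht ht'
      obtain ⟨h4, h5⟩ := (hCA (a J + j)).2 t t' ht ht'
      exact ⟨h4.trans (mul_le_mul_of_nonneg_right (le_max_right _ _) (norm_nonneg _)),
        h5.trans (mul_le_mul_of_nonneg_right (le_max_right _ _) (by positivity))⟩
    · have h6 : disc F Q w (a J + 0) 0 = F^[a J] Q := by
        unfold disc
        rw [zero_smul, add_zero, add_zero]
      show ‖z - disc F Q w (a J + 0) 0‖ < ρ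
      rw [h6]
      exact hz
  -- the orbit stays in Ω
  have horb : ∀ k : ℕ, F^[k] Q ∈ Ω := by
    intro k
    induction k with
    | zero => exact hQ
    | succ k ih =>
      rw [Function.iterate_succ_apply']
      exact h.maps _ ih
  have hcb : ∀ J : ℕ, F^[a J] Q ∈ Metric.closedBall (0 : ℂ × ℂ) R := by
    intro J
    rw [mem_closedBall_zero_iff]
    exact hb Q (Metric.mem_ball_self hr0) (a J)
  obtain ⟨x, _, φ, hφ, hlim⟩ := (isCompact_closedBall (0 : ℂ × ℂ) R).tendsto_subseq hcb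
  have haφ : Tendsto (fun i => a (φ i)) atTop atTop := by
    refine tendsto_atTop_mono (fun i => ?_) hφ.tendsto_atTop
    exact le_trans (Nat.le_succ _) (ha1 (φ i))
  have hcl : MapClusterPt x atTop (fun k : ℕ => F^[k] Q) := by
    refine MapClusterPt.of_comp (φ := fun i => a (φ i)) haφ ?_
    exact hlim.mapClusterPt
  have hxn : x ∉ Ω := h.nrc Q hQ x hcl
  have hxc : x ∈ closure Ω := mem_closure_of_tendsto hlim (Eventually.of_forall (fun i => horb _))
  apply hxn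
  refine h.fat x hxc (ρ / 2) (by linarith) (R + 1) ?_
  intro z hz k
  have h7 : ∀ᶠ i in atTop, dist (F^[a (φ i)] Q) x < ρ / 2 :=
    (Metric.tendsto_nhds.1 hlim) (ρ / 2) (by linarith)
  obtain ⟨i, h8, h9⟩ := (h7.and (eventually_ge_atTop k)).exists
  refine hkey (φ i) z ?_ k ?_
  · rw [← dist_eq_norm]
    have h10 := dist_triangle z x (F^[a (φ i)] Q)
    rw [Metric.mem_ball] at hz
    rw [dist_comm x] at h10
    linarith
  · have h11 : i ≤ φ i := hφ.id_le i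
    omega

end Pool.Agent.Lib.NRF
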