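import Pool.Agent.Lib.MP_a75e15_an.NR.Defs

/-!
# PC: constants of a smooth map on balls

PROOF. `PC_up`: `fderiv ℂ F` is continuous and, as `F` is `C²`, continuously differentiable; on the compact convex ball `closedBall 0 (R+1)` it is bounded and Lipschitz (its derivative is bounded there; `Convex.norm_image_sub_le_of_norm_fderiv_le`
over `ℂ`, or over `ℝ`). Then `F (x+e) - F x - fderiv F x e` is bounded by (Lipschitz constant) `* ‖e‖²` (apply the mean value inequality to `y ↦ F (x + y) - fderiv F x y` on the ball of radius `‖e‖`).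
`PC_low`: `‖wg a b‖ ≤ 2 ‖a‖ ‖b‖`. Let `e = (1,0)` or `(0,1)` such that `‖wg v e‖ = ‖v‖`. `‖D‖ ‖v‖ = ‖wg (L v) (L e)‖ ≤ 2 ‖L v‖ C`, `L = fderiv ℂ F x`: `μ = min (‖D‖/(2C)) (1/2)`.
-/

set_option autoImplicit false

open Filter Topology

namespace Pool.Agent.Lib.NRF

theorem wg_le (a b : ℂ × ℂ) : ‖wg a b‖ ≤ 2 * ‖a‖ * ‖b‖ := by
  unfold wg
  have h1 := norm_fst_le a
  have h2 := norm_snd_le a
  have h3 := norm_fst_le b
  have h4 := norm_snd_le b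
  calc ‖a.1 * b.2 - a.2 * b.1‖ ≤ ‖a.1 * b.2‖ + ‖a.2 * b.1‖ := norm_sub_le _ _
    _ = ‖a.1‖ * ‖b.2‖ + ‖a.2‖ * ‖b.1‖ := by rw [norm_mul, norm_mul]
    _ ≤ ‖a‖ * ‖b‖ + ‖a‖ * ‖b‖ := add_le_add (mul_le_mul h1 h4 (norm_nonneg _) (norm_nonneg _))
        (mul_le_mul h2 h3 (norm_nonneg _) (norm_nonneg _))
    _ = 2 * ‖a‖ * ‖b‖ := by ring

theorem PC_up {F : ℂ × ℂ → ℂ × ℂ} (hF : ContDiff ℂ 2 F) (R : ℝ) : ∃ C : ℝ, 1 ≤ C ∧
    (∀ x, ‖x‖ ≤ R → ∀ v, ‖fderiv ℂ F x v‖ ≤ C * ‖v‖) ∧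
    (∀ x e, ‖x‖ ≤ R → ‖e‖ ≤ 1 → ‖F (x + e) - F x - fderiv ℂ F x e‖ ≤ C * ‖e‖ ^ 2) := by
  have hG : ContDiff ℂ 1 (fderiv ℂ F) := hF.fderiv_right (by norm_num)
  have hFd : Differentiable ℂ F := hF.differentiable (by norm_num)
  have hGd : Differentiable ℂ (fderiv ℂ F) := hG.differentiable (by norm_num)
  have hG2 := hG.continuous_fderiv (by norm_num)
  obtain ⟨C1, hC1⟩ := (isCompact_closedBall (0 : ℂ × ℂ) (R + 1)).exists_bound_of_continuousOn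
    hG.continuous.continuousOn
  have hc : Continuous (fun x => ‖fderiv ℂ (fderiv ℂ F) x‖) := hG2.norm
  obtain ⟨C2, hC2'⟩ := (isCompact_closedBall (0 : ℂ × ℂ) (R + 1)).bddAbove_image hc.continuousOn
  have hC2 : ∀ x ∈ Metric.closedBall (0 : ℂ × ℂ) (R + 1), ‖fderiv ℂ (fderiv ℂ F) x‖ ≤ C2 :=
    fun x hx => hC2' (Set.mem_image_of_mem _ hx)
  refine ⟨1 + |C1| + |C2|, by linarith [abs_nonneg C1, abs_nonneg C2], ?_, ?_⟩
  · intro x hx v
    have h1 : ‖fderiv ℂ F x‖ ≤ C1 := hC1 x (by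
      rw [Metric.mem_closedBall, dist_zero_right]
      linarith)
    refine ((fderiv ℂ F x).le_opNorm v).trans (mul_le_mul_of_nonneg_right ?_ (norm_nonneg _))
    linarith [le_abs_self C1, abs_nonneg C2]
  · intro x e hx he
    have hsub : Metric.closedBall x ‖e‖ ⊆ Metric.closedBall (0 : ℂ × ℂ) (R + 1) := by
      intro u hu
      rw [Metric.mem_closedBall, dist_eq_norm] at hu
      rw [Metric.mem_closedBall, dist_zero_right]
      calc ‖u‖ = ‖(u - x) + x‖ := by rw [sub_add_cancel]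
        _ ≤ ‖u - x‖ + ‖x‖ := norm_add_le _ _
        _ ≤ R + 1 := by linarith
    have hx0 : x ∈ Metric.closedBall x ‖e‖ := Metric.mem_closedBall_self (norm_nonneg _)
    have h1 : ∀ y ∈ Metric.closedBall x ‖e‖, ‖fderiv ℂ F y - fderiv ℂ F x‖ ≤ |C2| * ‖e‖ := by
      intro y hy
      have h2 := Convex.norm_image_sub_le_of_norm_fderiv_le (𝕜 := ℂ) (f := fderiv ℂ F) (C := |C2|)
        (s := Metric.closedBall x ‖e‖) (x := x) (y := y) (fun u _ => hGd u)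
        (fun u hu => (hC2 u (hsub hu)).trans (le_abs_self _)) (convex_closedBall _ _) hx0 hy
      rw [Metric.mem_closedBall, dist_eq_norm] at hy
      exact h2.trans (mul_le_mul_of_nonneg_left hy (abs_nonneg _))
    have h3 := Convex.norm_image_sub_le_of_norm_fderiv_le' (𝕜 := ℂ) (f := F) (C := |C2| * ‖e‖)
      (s := Metric.closedBall x ‖e‖) (x := x) (y := x + e) (φ := fderiv ℂ F x) (fun u _ => hFd u)
      h1 (convex_closedBall _ _) hx0 (by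
        rw [Metric.mem_closedBall, dist_eq_norm, add_sub_cancel_left])
    rw [add_sub_cancel_left] at h3
    refine h3.trans ?_
    have h4 : |C2| * ‖e‖ * ‖e‖ = |C2| * ‖e‖ ^ 2 := by ring
    rw [h4]
    refine mul_le_mul_of_nonneg_right ?_ (by positivity)
    linarith [abs_nonneg C1]

theorem PC_low {F : ℂ × ℂ → ℂ × ℂ} {D : ℂ} (hF : ContDiff ℂ 2 F) (hD : D ≠ 0)
    (hj : ∀ x a b, wg (fderiv ℂ F x a) (fderiv ℂ F x b) = D * wg a b) (R : ℝ) :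
    ∃ μ : ℝ, 0 < μ ∧ μ < 1 ∧ ∀ x, ‖x‖ ≤ R → ∀ v, μ * ‖v‖ ≤ ‖fderiv ℂ F x v‖ := by
  obtain ⟨C, hC, h1, -⟩ := PC_up hF R
  have hD0 : 0 < ‖D‖ := norm_pos_iff.2 hD
  have hC0 : 0 < C := by linarith
  refine ⟨min (‖D‖ / (2 * C)) (1 / 2), lt_min (by positivity) (by norm_num),
    (min_le_right _ _).trans_lt (by norm_num), ?_⟩
  intro x hx v
  have key : ∀ e : ℂ × ℂ, ‖e‖ ≤ 1 → ‖D‖ * ‖wg v e‖ ≤ 2 * C * ‖fderiv ℂ F x v‖ := by
    intro e he
    have h2 := wg_le (fderiv ℂ F x v) (fderiv ℂ F x e)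
    rw [hj x v e, norm_mul] at h2
    have h3 : ‖fderiv ℂ F x e‖ ≤ C := by
      refine (h1 x hx e).trans ?_
      calc C * ‖e‖ ≤ C * 1 := mul_le_mul_of_nonneg_left he hC0.le
        _ = C := mul_one C
    calc ‖D‖ * ‖wg v e‖ ≤ 2 * ‖fderiv ℂ F x v‖ * ‖fderiv ℂ F x e‖ := h2
      _ ≤ 2 * ‖fderiv ℂ F x v‖ * C := mul_le_mul_of_nonneg_left h3 (by positivity)
      _ = _ := by ring
  have h4 : ‖D‖ * ‖v‖ ≤ 2 * C * ‖fderiv ℂ F x v‖ := by
    have h5 := key (1, 0) (by rw [Prod.norm_def]; simp)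
    have h6 := key (0, 1) (by rw [Prod.norm_def]; simp)
    have e5 : wg v (1, 0) = -v.2 := by unfold wg; simp
    have e6 : wg v (0, 1) = v.1 := by unfold wg; simp
    rw [e5, norm_neg] at h5
    rw [e6] at h6
    rw [Prod.norm_def]
    rcases max_cases ‖v.1‖ ‖v.2‖ with ⟨h, -⟩ | ⟨h, -⟩
    · rw [h]; exact h6
    · rw [h]; exact h5
  have h7 : ‖D‖ / (2 * C) * ‖v‖ ≤ ‖fderiv ℂ F x v‖ := by
    rw [div_mul_eq_mul_div, div_le_iff₀ (by positivity)]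
    linarith
  exact (mul_le_mul_of_nonneg_right (min_le_left _ _) (norm_nonneg _)).trans h7

end Pool.Agent.Lib.NRF
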