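import Pool.Agent.Lib.MP_a75e15_an.NR.PC

/-!
# SH: the shadowing lemma (pure inequalities)

`x j t` are discs with `x (j+1) t = F (x j t)`, `v j t` their derivatives, `m_j = c κ^j` the lower bound of `‖v j t‖`, `q = (1 + ‖D‖)/2 ≤ κ³`, so `q < 1`.

PROOF. Let `z` be near `x 0 0`, `z_j = F^[j] z`. Construct by recursion `t_j` (`t_0 = 0`), `e_j = z_j - x j t_j`; write `V = v j t_j`, `V' = v (j+1) t_j = L V` with `L = fderiv ℂ F (x j t_j)`. Choose the coordinate `i ∈ {1,2}` in which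
`‖V'_i‖ = ‖V'‖` (maximum norm) and put `τ = (L e_j)_i / V'_i`, so `‖τ‖ ≤ ‖L e_j‖/‖V'‖ ≤ C ‖e_j‖/‖V'‖`, `t_{j+1} = t_j + τ`. Let `n = L e_j - τ • V'`: its `i`-th coordinate is `0`, so
`‖n‖ ‖V'‖ = ‖wg n V'‖ = ‖wg (L e_j) (L V)‖ = ‖D‖ ‖wg e_j V‖`. Put `ω_j = ‖wg e_j (v j t_j)‖`.
`e_{j+1} = [F (x j t_j + e_j) - F (x j t_j) - L e_j] + n - [x (j+1) t_{j+1} - x (j+1) t_j - τ • V']`, so `‖e_{j+1} - n‖ ≤ C ‖e_j‖² + C ‖τ‖² ≤ C₁ ‖e_j‖²/‖V'‖²` (`‖V'‖ ≤ C`), `‖v (j+1) t_{j+1} - V'‖ ≤ C ‖τ‖ ≤ C₁ ‖e_j‖/‖V'‖`.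
With `m = m_{j+1}` (`≤ ‖V'‖`, `≤ ‖V‖`): `ω_{j+1} ≤ ‖wg n V'‖ + 2‖n‖ C₁‖e_j‖/‖V'‖ + 2 C₁ ‖e_j‖²/‖V'‖ + 2 C₁² ‖e_j‖³/‖V'‖³`, `‖n‖ = ‖D‖ ω_j/‖V'‖`, `‖e_{j+1}‖ ≤ ‖D‖ ω_j/‖V'‖ + C₁ ‖e_j‖²/‖V'‖²`.
CLAIM (induction on `j ≤ J+1`): `ω_j ≤ Y q^j`, `‖e_j‖ ≤ Y q^j/m_j`, `‖t_j‖ ≤ s`, where `Y = A ρ` is small. If it holds for `j`, then with `y = Y q^j ≤ Y κ^(3j)`, `y/m³ ≤ Y/(c³ κ³) =: δ` small:
`ω_{j+1} ≤ y (‖D‖ + 2‖D‖ C₁ δ + 2 C₁ δ κ^{-2}.. + ..) ≤ q y` and `‖e_{j+1}‖ ≤ (y/m)(‖D‖ + C₂ δ) ≤ q y/m` (use `‖e_j‖ ≤ y/m_j ≤ y/m`). Steps: `‖τ_j‖ ≤ C ‖e_j‖/m_{j+1} ≤ C Y q^j/(c² κ κ^(2j)) ≤ C' Y κ^j` and if `κ = 1`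
the sum of `q^j` converges: in general `q κ^{-2} ≤ κ`; use `q^j/κ^(2j) = (q/κ²)^j` with `q/κ² < 1` (`q < 1` and `q ≤ κ³`: if `κ < 1`, `q/κ² ≤ κ < 1`; if `κ = 1`, `q < 1`): `∑ ‖τ_j‖ ≤ C'' Y ≤ s`. Finally `‖F^[j] z‖ ≤ ‖x j t_j‖ + ‖e_j‖ ≤ R + 1`.
`ρ` depends only on `‖D‖, C, R, c, κ, s` (start: `e_0 = z - x 0 0`, `ω_0 ≤ 2 C ρ`, `‖e_0‖ < ρ ≤ Y/m_0` with `Y = (2C + c) ρ`). Only `‖e_j‖ ≤ 1` and `‖x j t_j‖ ≤ R` are needed to use the bounds for `F`.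
-/

set_option autoImplicit false

open Filter Topology

namespace Pool.Agent.Lib.NRF

private theorem SH_wg_le (a b : ℂ × ℂ) : ‖wg a b‖ ≤ 2 * ‖a‖ * ‖b‖ := by
  unfold wg
  have h1 := norm_fst_le a
  have h2 := norm_snd_le a
  have h3 := norm_fst_le b
  have h4 := norm_snd_le b
  calc ‖a.1 * b.2 - a.2 * b.1‖ ≤ ‖a.1 * b.2‖ + ‖a.2 * b.1‖ := norm_sub_le _ _
    _ = ‖a.1‖ * ‖b.2‖ + ‖a.2‖ * ‖b.1‖ := by rw [norm_mul, norm_mul]
    _ ≤ ‖a‖ * ‖b‖ + ‖a‖ * ‖b‖ := by gcongr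
    _ = 2 * ‖a‖ * ‖b‖ := by ring

private theorem SH_split (V w : ℂ × ℂ) (hV : 0 < ‖V‖) :
    ∃ τ : ℂ, ‖τ‖ * ‖V‖ ≤ ‖w‖ ∧ ‖w - τ • V‖ * ‖V‖ = ‖wg w V‖ := by
  rcases le_total ‖V.2‖ ‖V.1‖ with h | h
  · have hn : ‖V‖ = ‖V.1‖ := by
      rw [Prod.norm_def]
      exact max_eq_left h
    have h0 : V.1 ≠ 0 := by
      intro h1
      rw [hn, h1, norm_zero] at hV
      exact lt_irrefl _ hV
    refine ⟨w.1 / V.1, ?_, ?_⟩
    · rw [hn, ← norm_mul, div_mul_cancel₀ _ h0]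
      exact norm_fst_le w
    · have h2 : w - (w.1 / V.1) • V = (0, w.2 - w.1 / V.1 * V.2) := by
        apply Prod.ext
        · simp only [Prod.fst_sub, Prod.smul_fst, smul_eq_mul]
          rw [div_mul_cancel₀ _ h0, sub_self]
        · simp only [Prod.snd_sub, Prod.smul_snd, smul_eq_mul]
      rw [h2, hn, Prod.norm_def]
      simp only [norm_zero]
      rw [max_eq_right (norm_nonneg _), ← norm_mul, ← norm_neg]
      unfold wg
      congr 1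
      field_simp
      ring
  · have hn : ‖V‖ = ‖V.2‖ := by
      rw [Prod.norm_def]
      exact max_eq_right h
    have h0 : V.2 ≠ 0 := by
      intro h1
      rw [hn, h1, norm_zero] at hV
      exact lt_irrefl _ hV
    refine ⟨w.2 / V.2, ?_, ?_⟩
    · rw [hn, ← norm_mul, div_mul_cancel₀ _ h0]
      exact norm_snd_le w
    · have h2 : w - (w.2 / V.2) • V = (w.1 - w.2 / V.2 * V.1, 0) := by
        apply Prod.ext
        · simp only [Prod.fst_sub, Prod.smul_fst, smul_eq_mul]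
        · simp only [Prod.snd_sub, Prod.smul_snd, smul_eq_mul]
          rw [div_mul_cancel₀ _ h0, sub_self]
      rw [h2, hn, Prod.norm_def]
      simp only [norm_zero]
      rw [max_eq_left (norm_nonneg _), ← norm_mul]
      unfold wg
      congr 1
      field_simp

private theorem SH_wg_add (n r V u : ℂ × ℂ) :
    ‖wg (n + r) (V + u)‖ ≤ ‖wg n V‖ + 2 * ‖n‖ * ‖u‖ + 2 * ‖r‖ * ‖V‖ + 2 * ‖r‖ * ‖u‖ := by
  have h : wg (n + r) (V + u) = wg n V + wg n u + wg r V + wg r u := by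
    unfold wg
    simp only [Prod.fst_add, Prod.snd_add]
    ring
  rw [h]
  calc ‖wg n V + wg n u + wg r V + wg r u‖ ≤ ‖wg n V‖ + ‖wg n u‖ + ‖wg r V‖ + ‖wg r u‖ := by
        refine (norm_add_le _ _).trans ?_
        refine add_le_add ?_ le_rfl
        refine (norm_add_le _ _).trans ?_
        exact add_le_add (norm_add_le _ _) le_rfl
    _ ≤ _ := by
        have h1 := SH_wg_le n u
        have h2 := SH_wg_le r V
        have h3 := SH_wg_le r u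
        linarith

/-- the real inequalities of one step -/
private theorem SH_real {d C m W E w y T N r u e' w' : ℝ} (hd0 : 0 ≤ d) (hd1 : d < 1) (hC : 1 ≤ C)
    (hm : 0 < m) (hmW : m ≤ W) (hWC : W ≤ C) (hE0 : 0 ≤ E) (hE : E ≤ y / m) (hw0 : 0 ≤ w) (hw : w ≤ y)
    (hδ : y / m ^ 3 * (20 * C ^ 5) ≤ 1 - d) (hT0 : 0 ≤ T) (hT : T * W ≤ C * E)
    (hN0 : 0 ≤ N) (hN : N * W = d * w) (hr0 : 0 ≤ r) (hr : r ≤ C * E ^ 2 + C * T ^ 2)
    (hu0 : 0 ≤ u) (hu : u ≤ C * T) (he' : e' ≤ N + r)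
    (hw' : w' ≤ d * w + 2 * N * u + 2 * r * W + 2 * r * u) :
    e' ≤ (1 + d) / 2 * y / m ∧ w' ≤ (1 + d) / 2 * y ∧ T ≤ C * (y / m / m) := by
  have hW0 : 0 < W := lt_of_lt_of_le hm hmW
  have hC0 : 0 < C := by linarith
  have hy0 : 0 ≤ y := hw0.trans hw
  have hmC : m ≤ C := hmW.trans hWC
  -- T
  have hT1 : T ≤ C * E / m := by
    rw [le_div_iff₀ hm]
    exact (mul_le_mul_of_nonneg_left hmW hT0).trans hT
  have hT2 : T ≤ C * (y / m / m) := by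
    refine hT1.trans ?_
    rw [mul_div_assoc]
    apply mul_le_mul_of_nonneg_left _ hC0.le
    exact div_le_div_of_nonneg_right hE hm.le
  set δ : ℝ := y / m ^ 3 with hδdef
  have hδ0 : 0 ≤ δ := by positivity
  have hC2 : 1 ≤ C ^ 2 := one_le_pow₀ hC
  have hC3 : 1 ≤ C ^ 3 := one_le_pow₀ hC
  have hC5 : 1 ≤ C ^ 5 := one_le_pow₀ hC
  have hδ1 : δ ≤ 1 := by
    have h1 : δ * 20 ≤ δ * (20 * C ^ 5) := by
      apply mul_le_mul_of_nonneg_left _ hδ0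
      linarith
    linarith
  -- normalise: E = m^2 * a with a ≤ δ
  set a : ℝ := E / m ^ 2 with ha
  have hEa : E = a * m ^ 2 := by
    rw [ha]
    field_simp
  have ha0 : 0 ≤ a := by positivity
  have haδ : a ≤ δ := by
    rw [ha, hδdef]
    rw [div_le_div_iff₀ (by positivity) (by positivity)]
    rw [le_div_iff₀ hm] at hE
    nlinarith [mul_le_mul_of_nonneg_right hE (by positivity : (0 : ℝ) ≤ m ^ 2)]
  -- T ≤ C a m
  have hTa : T ≤ C * a * m := by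
    refine hT1.trans (le_of_eq ?_)
    rw [hEa]
    field_simp
  -- r
  have hr1 : r ≤ 2 * C ^ 3 * a ^ 2 * m ^ 2 := by
    have h1 : C * E ^ 2 ≤ C ^ 3 * a ^ 2 * m ^ 2 := by
      rw [hEa]
      have h2 : m ^ 2 ≤ C ^ 2 := pow_le_pow_left₀ hm.le hmC 2
      have h3 : 0 ≤ C * a ^ 2 * m ^ 2 := by positivity
      nlinarith [mul_le_mul_of_nonneg_left h2 h3]
    have h2 : C * T ^ 2 ≤ C ^ 3 * a ^ 2 * m ^ 2 := by
      have h3 : T ^ 2 ≤ (C * a * m) ^ 2 := pow_le_pow_left₀ hT0 hTa 2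
      have h4 := mul_le_mul_of_nonneg_left h3 hC0.le
      linarith [h4, (by ring : C * (C * a * m) ^ 2 = C ^ 3 * a ^ 2 * m ^ 2)]
    linarith
  have hrW : r * W ≤ 2 * C ^ 3 * a ^ 2 * m ^ 3 := by
    have h1 : r * W ≤ C * E ^ 2 * W + C * T * (T * W) := by
      have h2 := mul_le_mul_of_nonneg_right hr hW0.le
      linarith [h2, (by ring : (C * E ^ 2 + C * T ^ 2) * W = C * E ^ 2 * W + C * T * (T * W))]
    have h3 : C * E ^ 2 * W ≤ C ^ 3 * a ^ 2 * m ^ 3 := by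
      rw [hEa]
      have h4 : 0 ≤ C * (a * m ^ 2) ^ 2 := by positivity
      have h5 := mul_le_mul_of_nonneg_left hWC h4
      have h6 : 0 ≤ C ^ 2 * a ^ 2 * m ^ 3 := by positivity
      have h7 := mul_le_mul_of_nonneg_left hmC h6
      linarith [h5, h7, (by ring : C * (a * m ^ 2) ^ 2 * C = C ^ 2 * a ^ 2 * m ^ 3 * m),
        (by ring : C ^ 2 * a ^ 2 * m ^ 3 * C = C ^ 3 * a ^ 2 * m ^ 3)]
    have h8 : C * T * (T * W) ≤ C ^ 3 * a ^ 2 * m ^ 3 := by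
      have h9 : C * T * (T * W) ≤ C * (C * a * m) * (C * E) := by
        apply mul_le_mul _ hT (mul_nonneg hT0 hW0.le) (by positivity)
        exact mul_le_mul_of_nonneg_left hTa hC0.le
      rw [hEa] at h9
      linarith [h9, (by ring : C * (C * a * m) * (C * (a * m ^ 2)) = C ^ 3 * a ^ 2 * m ^ 3)]
    linarith
  -- N
  have hN1 : N ≤ d * w / m := by
    rw [le_div_iff₀ hm]
    calc N * m ≤ N * W := mul_le_mul_of_nonneg_left hmW hN0
      _ = d * w := hN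
  have hN2 : N ≤ d * y / m := by
    refine hN1.trans ?_
    apply div_le_div_of_nonneg_right _ hm.le
    exact mul_le_mul_of_nonneg_left hw hd0
  have hyδ : y = δ * m ^ 3 := by
    rw [hδdef]
    field_simp
  have hu1 : u ≤ C ^ 2 * a * m := by
    refine hu.trans ?_
    have := mul_le_mul_of_nonneg_left hTa hC0.le
    linarith [this, (by ring : C * (C * a * m) = C ^ 2 * a * m)]
  have ha2 : a ^ 2 ≤ δ ^ 2 := pow_le_pow_left₀ ha0 haδ 2
  have ha3 : a ^ 3 ≤ δ ^ 3 := pow_le_pow_left₀ ha0 haδ 3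
  have hCC3 : C ^ 3 ≤ C ^ 5 := pow_le_pow_right₀ hC (by norm_num)
  have hCC2 : C ^ 2 ≤ C ^ 5 := pow_le_pow_right₀ hC (by norm_num)
  refine ⟨?_, ?_, hT2⟩
  · -- e'
    have h1 : r ≤ 2 * C ^ 3 * δ * (y / m) := by
      have h2 : 2 * C ^ 3 * δ * (y / m) = 2 * C ^ 3 * δ ^ 2 * m ^ 2 := by
        rw [hyδ]
        field_simp
      rw [h2]
      refine hr1.trans ?_
      gcongr
    have h3 : 2 * C ^ 3 * δ ≤ (1 - d) / 2 := by
      have h4 : C ^ 3 * δ ≤ C ^ 5 * δ := mul_le_mul_of_nonneg_right hCC3 hδ0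
      have h5 : 0 ≤ C ^ 5 * δ := by positivity
      nlinarith
    have hym : 0 ≤ y / m := by positivity
    calc e' ≤ N + r := he'
      _ ≤ d * y / m + (1 - d) / 2 * (y / m) :=
          add_le_add hN2 (h1.trans (mul_le_mul_of_nonneg_right h3 hym))
      _ = (1 + d) / 2 * y / m := by ring
  · -- w'
    have h1 : 2 * N * u ≤ 2 * C ^ 5 * δ * y := by
      have h2 : N * u ≤ (d * y / m) * (C ^ 2 * a * m) :=
        mul_le_mul hN2 hu1 hu0 (by positivity)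
      have h3 : (d * y / m) * (C ^ 2 * a * m) = d * (C ^ 2 * a) * y := by
        field_simp
      have h4 : C ^ 2 * a ≤ C ^ 5 * δ := mul_le_mul hCC2 haδ ha0 (by positivity)
      have h5 : d * (C ^ 2 * a) * y ≤ 1 * (C ^ 5 * δ) * y := by
        apply mul_le_mul_of_nonneg_right _ hy0
        exact mul_le_mul hd1.le h4 (by positivity) zero_le_one
      linarith
    have h6 : 2 * r * W ≤ 4 * C ^ 5 * δ * y := by
      have h7 : 2 * C ^ 3 * a ^ 2 * m ^ 3 ≤ 2 * C ^ 5 * δ ^ 2 * m ^ 3 := by gcongr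
      have h8 : 2 * C ^ 5 * δ ^ 2 * m ^ 3 = 2 * C ^ 5 * δ * y := by
        rw [hyδ]
        ring
      linarith
    have h9 : 2 * r * u ≤ 4 * C ^ 5 * δ * y := by
      have h10 : r * u ≤ (2 * C ^ 3 * a ^ 2 * m ^ 2) * (C ^ 2 * a * m) :=
        mul_le_mul hr1 hu1 hu0 (by positivity)
      have h11 : (2 * C ^ 3 * a ^ 2 * m ^ 2) * (C ^ 2 * a * m) = 2 * C ^ 5 * a ^ 3 * m ^ 3 := by ring
      have h12 : 2 * C ^ 5 * a ^ 3 * m ^ 3 ≤ 2 * C ^ 5 * δ ^ 3 * m ^ 3 := by gcongr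
      have h13 : 2 * C ^ 5 * δ ^ 3 * m ^ 3 ≤ 2 * C ^ 5 * δ ^ 2 * m ^ 3 := by
        have : δ ^ 3 ≤ δ ^ 2 := pow_le_pow_of_le_one hδ0 hδ1 (by norm_num)
        gcongr
      have h14 : 2 * C ^ 5 * δ ^ 2 * m ^ 3 = 2 * C ^ 5 * δ * y := by
        rw [hyδ]
        ring
      linarith
    have h15 : 10 * C ^ 5 * δ * y ≤ (1 - d) / 2 * y := by
      apply mul_le_mul_of_nonneg_right _ hy0
      linarith
    have h16 : d * w ≤ d * y := mul_le_mul_of_nonneg_left hw hd0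
    linarith [h1, h6, h9, h15, h16, hw']

theorem SH {F : ℂ × ℂ → ℂ × ℂ} {D : ℂ} (hD : ‖D‖ < 1)
    (hj : ∀ x a b, wg (fderiv ℂ F x a) (fderiv ℂ F x b) = D * wg a b) {R C c κ s : ℝ} (hC : 1 ≤ C)
    (h1 : ∀ x, ‖x‖ ≤ R → ∀ v, ‖fderiv ℂ F x v‖ ≤ C * ‖v‖)
    (h2 : ∀ x e, ‖x‖ ≤ R → ‖e‖ ≤ 1 → ‖F (x + e) - F x - fderiv ℂ F x e‖ ≤ C * ‖e‖ ^ 2)
    (hc : 0 < c) (hκ : 0 < κ) (hκ1 : κ ≤ 1) (hq : (1 + ‖D‖) / 2 ≤ κ ^ 3) (hs : 0 < s) :
    ∃ ρ : ℝ, 0 < ρ ∧ ∀ (J : ℕ) (x v : ℕ → ℂ → ℂ × ℂ),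
      (∀ j, j ≤ J → ∀ t : ℂ, ‖t‖ ≤ s → x (j + 1) t = F (x j t)) →
      (∀ j, j ≤ J → ∀ t : ℂ, ‖t‖ ≤ s → v (j + 1) t = fderiv ℂ F (x j t) (v j t)) →
      (∀ j, j ≤ J + 1 → ∀ t : ℂ, ‖t‖ ≤ s → ‖x j t‖ ≤ R ∧ ‖v j t‖ ≤ C ∧ c * κ ^ j ≤ ‖v j t‖) →
      (∀ j, j ≤ J + 1 → ∀ t t' : ℂ, ‖t‖ ≤ s → ‖t'‖ ≤ s → ‖v j t' - v j t‖ ≤ C * ‖t' - t‖ ∧
        ‖x j t' - x j t - (t' - t) • v j t‖ ≤ C * ‖t' - t‖ ^ 2) →
      ∀ z : ℂ × ℂ, ‖z - x 0 0‖ < ρ → ∀ j, j ≤ J + 1 → ‖F^[j] z‖ ≤ R + 1 := by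
  set d : ℝ := ‖D‖ with hd
  have hd0 : 0 ≤ d := norm_nonneg D
  set q : ℝ := (1 + d) / 2 with hqdef
  have hq0 : 0 < q := by rw [hqdef]; linarith
  have hq1 : q < 1 := by rw [hqdef]; linarith
  have hC0 : 0 < C := by linarith
  -- θ = q / κ^2 < 1
  set θ : ℝ := q / κ ^ 2 with hθ
  have hθ0 : 0 < θ := by positivity
  have hθ1 : θ < 1 := by
    rw [hθ, div_lt_one (by positivity)]
    rcases lt_or_eq_of_le hκ1 with h | h
    · calc q ≤ κ ^ 3 := hq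
        _ < κ ^ 2 := pow_lt_pow_right_of_lt_one₀ hκ h (by norm_num)
    · rw [h]
      linarith [one_pow (M := ℝ) 2]
  have hqκ : q ≤ κ := hq.trans (by
    calc κ ^ 3 ≤ κ ^ 1 := pow_le_pow_of_le_one hκ.le hκ1 (by norm_num)
      _ = κ := pow_one κ)
  -- choice of Y
  obtain ⟨Y, hY0, hY1, hY2, hY3⟩ : ∃ Y : ℝ, 0 < Y ∧ Y / (c ^ 3 * κ ^ 3) * (20 * C ^ 5) ≤ 1 - d ∧ Y ≤ c ∧
      C * Y / (c ^ 2 * κ ^ 2) / (1 - θ) ≤ s := by
    have a1 : 0 < (1 - d) * (c ^ 3 * κ ^ 3) / (20 * C ^ 5) := by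
      have : 0 < 1 - d := by linarith
      positivity
    have a2 : 0 < s * (1 - θ) * (c ^ 2 * κ ^ 2) / C := by
      have : 0 < 1 - θ := by linarith
      positivity
    refine ⟨min (min ((1 - d) * (c ^ 3 * κ ^ 3) / (20 * C ^ 5)) c) (s * (1 - θ) * (c ^ 2 * κ ^ 2) / C),
      lt_min (lt_min a1 hc) a2, ?_, ?_, ?_⟩
    · have h3 : min (min ((1 - d) * (c ^ 3 * κ ^ 3) / (20 * C ^ 5)) c) (s * (1 - θ) * (c ^ 2 * κ ^ 2) / C) ≤
          (1 - d) * (c ^ 3 * κ ^ 3) / (20 * C ^ 5) := (min_le_left _ _).trans (min_le_left _ _)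
      calc _ ≤ ((1 - d) * (c ^ 3 * κ ^ 3) / (20 * C ^ 5)) / (c ^ 3 * κ ^ 3) * (20 * C ^ 5) := by gcongr
        _ = 1 - d := by field_simp
    · exact (min_le_left _ _).trans (min_le_right _ _)
    · have h3 : min (min ((1 - d) * (c ^ 3 * κ ^ 3) / (20 * C ^ 5)) c) (s * (1 - θ) * (c ^ 2 * κ ^ 2) / C) ≤
          s * (1 - θ) * (c ^ 2 * κ ^ 2) / C := min_le_right _ _
      have h4 : 0 < 1 - θ := by linarith
      calc _ ≤ C * (s * (1 - θ) * (c ^ 2 * κ ^ 2) / C) / (c ^ 2 * κ ^ 2) / (1 - θ) := by gcongr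
        _ = s := by field_simp
  set B : ℝ := C * Y / (c ^ 2 * κ ^ 2) with hB
  have hB0 : 0 < B := by positivity
  have hsum : ∀ j : ℕ, B * ∑ i ∈ Finset.range j, θ ^ i ≤ s := by
    intro j
    refine le_trans ?_ hY3
    rw [geom_sum_eq hθ1.ne, ← neg_div_neg_eq]
    have h4 : 0 < 1 - θ := by linarith
    have h5 : -(θ - 1) = 1 - θ := by ring
    have h6 : -(θ ^ j - 1) = 1 - θ ^ j := by ring
    rw [h5, h6, mul_div_assoc']
    apply div_le_div_of_nonneg_right _ h4.le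
    have h7 : 0 ≤ θ ^ j := by positivity
    nlinarith
  refine ⟨min (Y / (2 * C)) (Y / c), lt_min (by positivity) (by positivity), ?_⟩
  intro J x v hx hv hb hl z hz
  -- the induction
  have key : ∀ j, j ≤ J + 1 → ∃ t : ℂ, ‖t‖ ≤ B * ∑ i ∈ Finset.range j, θ ^ i ∧
      ‖F^[j] z - x j t‖ ≤ Y * q ^ j / (c * κ ^ j) ∧ ‖wg (F^[j] z - x j t) (v j t)‖ ≤ Y * q ^ j := by
    intro j
    induction j with
    | zero =>
      intro _
      refine ⟨0, ?_, ?_, ?_⟩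
      · simp
      · simp only [Function.iterate_zero, id_eq, pow_zero, mul_one]
        exact (hz.le.trans (min_le_right _ _))
      · simp only [Function.iterate_zero, id_eq, pow_zero, mul_one]
        refine (SH_wg_le _ _).trans ?_
        have h3 := (hb 0 (by omega) 0 (by simpa using hs.le)).2.1
        have h4 : ‖z - x 0 0‖ ≤ Y / (2 * C) := hz.le.trans (min_le_left _ _)
        calc 2 * ‖z - x 0 0‖ * ‖v 0 0‖ ≤ 2 * (Y / (2 * C)) * C := by gcongr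
          _ = Y := by field_simp
    | succ j ih =>
      intro hj1
      obtain ⟨t, ht, he, hw⟩ := ih (by omega)
      have hts : ‖t‖ ≤ s := ht.trans (hsum j)
      have hjJ : j ≤ J := by omega
      obtain ⟨b1, b2, b3⟩ := hb j (by omega) t hts
      obtain ⟨b1', b2', b3'⟩ := hb (j + 1) (by omega) t hts
      set e : ℂ × ℂ := F^[j] z - x j t with hedef
      set V : ℂ × ℂ := v j t with hVdef
      set V' : ℂ × ℂ := v (j + 1) t with hV'def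
      have hLV : fderiv ℂ F (x j t) V = V' := (hv j hjJ t hts).symm
      have hm0 : 0 < c * κ ^ (j + 1) := by positivity
      have hV'0 : 0 < ‖V'‖ := lt_of_lt_of_le hm0 b3'
      obtain ⟨τ, hτ1, hτ2⟩ := SH_split V' (fderiv ℂ F (x j t) e) hV'0
      have hwg : ‖wg (fderiv ℂ F (x j t) e) V'‖ = d * ‖wg e V‖ := by
        rw [← hLV, hj, norm_mul]
      have hLe : ‖fderiv ℂ F (x j t) e‖ ≤ C * ‖e‖ := h1 _ b1 e
      set nn : ℂ × ℂ := fderiv ℂ F (x j t) e - τ • V' with hnn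
      -- y
      set y : ℝ := Y * q ^ j with hy
      have hy0 : 0 < y := by positivity
      have hEy : ‖e‖ ≤ y / (c * κ ^ (j + 1)) := by
        refine he.trans ?_
        apply div_le_div_of_nonneg_left hy0.le hm0
        apply mul_le_mul_of_nonneg_left _ hc.le
        exact pow_le_pow_of_le_one hκ.le hκ1 (by omega)
      have hδ : y / (c * κ ^ (j + 1)) ^ 3 * (20 * C ^ 5) ≤ 1 - d := by
        refine le_trans ?_ hY1
        apply mul_le_mul_of_nonneg_right _ (by positivity)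
        have h3 : q ^ j ≤ κ ^ (3 * j) := by
          rw [pow_mul]
          exact pow_le_pow_left₀ hq0.le hq j
        have h4 : (c * κ ^ (j + 1)) ^ 3 = c ^ 3 * κ ^ 3 * κ ^ (3 * j) := by ring
        rw [h4, hy, div_le_div_iff₀ (by positivity) (by positivity)]
        have h5 : 0 ≤ Y * (c ^ 3 * κ ^ 3) := by positivity
        nlinarith [mul_le_mul_of_nonneg_left h3 h5]
      have he1 : ‖e‖ ≤ 1 := by
        refine he.trans ?_
        rw [div_le_one (by positivity)]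
        have h3 : q ^ j ≤ κ ^ j := pow_le_pow_left₀ hq0.le hqκ j
        exact mul_le_mul hY2 h3 (by positivity) hc.le
      have hτ0 : ‖τ‖ * ‖V'‖ ≤ C * ‖e‖ := hτ1.trans hLe
      -- bound of τ first
      have hTb : ‖τ‖ ≤ C * (y / (c * κ ^ (j + 1)) / (c * κ ^ (j + 1))) := by
        have h3 : ‖τ‖ * (c * κ ^ (j + 1)) ≤ C * ‖e‖ :=
          (mul_le_mul_of_nonneg_left b3' (norm_nonneg τ)).trans hτ0
        have h4 : ‖τ‖ ≤ C * ‖e‖ / (c * κ ^ (j + 1)) := by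
          rw [le_div_iff₀ hm0]
          exact h3
        refine h4.trans ?_
        rw [mul_div_assoc]
        apply mul_le_mul_of_nonneg_left _ hC0.le
        exact div_le_div_of_nonneg_right hEy hm0.le
      have hTθ : C * (y / (c * κ ^ (j + 1)) / (c * κ ^ (j + 1))) = B * θ ^ j := by
        have hqne : q ≠ 0 := hq0.ne'
        rw [hB, hθ, hy, div_pow q (κ ^ 2) j, ← pow_mul]
        clear_value q
        field_simp
        ring
      rw [hTθ] at hTb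
      have ht' : ‖t + τ‖ ≤ B * ∑ i ∈ Finset.range (j + 1), θ ^ i := by
        rw [Finset.sum_range_succ, mul_add]
        exact (norm_add_le _ _).trans (add_le_add ht hTb)
      have hts' : ‖t + τ‖ ≤ s := ht'.trans (hsum (j + 1))
      obtain ⟨l1, l2⟩ := hl (j + 1) (by omega) t (t + τ) hts hts'
      rw [add_sub_cancel_left] at l1 l2
      -- error terms
      set rr : ℂ × ℂ := (F (x j t + e) - F (x j t) - fderiv ℂ F (x j t) e) -
        (x (j + 1) (t + τ) - x (j + 1) t - τ • V') with hrr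
      set uu : ℂ × ℂ := v (j + 1) (t + τ) - V' with huu
      have hFz : F^[j + 1] z = F (x j t + e) := by
        rw [Function.iterate_succ_apply', hedef]
        congr 1
        abel
      have hne : F^[j + 1] z - x (j + 1) (t + τ) = nn + rr := by
        rw [hFz, hnn, hrr, hx j hjJ t hts]
        abel
      have hvv : v (j + 1) (t + τ) = V' + uu := by
        rw [huu]
        abel
      have hr1 : ‖rr‖ ≤ C * ‖e‖ ^ 2 + C * ‖τ‖ ^ 2 :=
        (norm_sub_le _ _).trans (add_le_add (h2 _ _ b1 he1) l2)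
      have hreal := SH_real (d := d) (C := C) (m := c * κ ^ (j + 1)) (W := ‖V'‖) (E := ‖e‖)
        (w := ‖wg e V‖) (y := y) (T := ‖τ‖) (N := ‖nn‖) (r := ‖rr‖) (u := ‖uu‖)
        (e' := ‖nn + rr‖) (w' := ‖wg (nn + rr) (V' + uu)‖) hd0 hD hC hm0 b3' b2' (norm_nonneg e) hEy
        (norm_nonneg _) hw hδ (norm_nonneg τ) hτ0 (norm_nonneg _) (hτ2.trans hwg) (norm_nonneg _) hr1
        (norm_nonneg _) l1 (norm_add_le _ _) (by
          have h3 := SH_wg_add nn rr V' uu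
          have h4 : ‖wg nn V'‖ = d * ‖wg e V‖ := by
            rw [← hwg]
            congr 1
            rw [hnn]
            unfold wg
            simp only [Prod.fst_sub, Prod.snd_sub, Prod.smul_fst, Prod.smul_snd, smul_eq_mul]
            ring
          rw [h4] at h3
          exact h3)
      obtain ⟨g1, g2, -⟩ := hreal
      refine ⟨t + τ, ht', ?_, ?_⟩
      · rw [hne]
        refine g1.trans (le_of_eq ?_)
        rw [hy, ← hqdef]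
        ring
      · rw [hne, hvv]
        refine g2.trans (le_of_eq ?_)
        rw [hy, ← hqdef]
        ring
  intro j hj1
  obtain ⟨t, ht, he, -⟩ := key j hj1
  have hts : ‖t‖ ≤ s := ht.trans (hsum j)
  have b1 := (hb j hj1 t hts).1
  have he1 : ‖F^[j] z - x j t‖ ≤ 1 := by
    refine he.trans ?_
    rw [div_le_one (by positivity)]
    have h3 : q ^ j ≤ κ ^ j := pow_le_pow_left₀ hq0.le hqκ j
    exact mul_le_mul hY2 h3 (by positivity) hc.le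
  calc ‖F^[j] z‖ = ‖x j t + (F^[j] z - x j t)‖ := by rw [add_sub_cancel]
    _ ≤ ‖x j t‖ + ‖F^[j] z - x j t‖ := norm_add_le _ _
    _ ≤ R + 1 := add_le_add b1 he1

end Pool.Agent.Lib.NRF
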