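import Pool.Agent.Lib.MP_a75e15_an.NR.Defs

/-!
# TS: shifting the times of approach to a periodic point

PROOF. `k i + m j → ∞` in `ℤ`. For `j ≥ 0`: `F^[k i + m j] Q₀ = F^[m j] (F^[k i] Q₀)`, `F^[m j]` is continuous (`h.sm.continuous`, iterate), `F^[m j] P = (F^[m])^[j] P = P`. For `j < 0`, `j = -q`: for large `i` `k i ≥ m q` and `F^[k i] Q₀ = F^[m q] (F^[k i - m q] Q₀)`, so
`F^[k i - m q] Q₀ = G^[m q] (F^[k i] Q₀)` (`gl`: `G^[n] (F^[n] x) = x` by induction), `G^[m q]` is continuous and `G^[m q] P = G^[m q] (F^[m q] P) = P`.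
-/

set_option autoImplicit false

open Filter Topology

namespace Pool.Agent.Lib.NRF

theorem iter_left {F G : ℂ × ℂ → ℂ × ℂ} (gl : ∀ x, G (F x) = x) (n : ℕ) (x : ℂ × ℂ) :
    G^[n] (F^[n] x) = x :=
  (Function.LeftInverse.iterate (f := F) (g := G) gl n) x

theorem TS {F G : ℂ × ℂ → ℂ × ℂ} {D : ℂ} {Ω : Set (ℂ × ℂ)} (h : Ctx F G D Ω) {Q₀ P : ℂ × ℂ} {m : ℕ}
    (hP : F^[m] P = P) {k : ℕ → ℕ} (hk : Tendsto k atTop atTop)
    (hk' : Tendsto (fun i => F^[k i] Q₀) atTop (𝓝 P)) (j : ℤ) :
    Tendsto (fun i => ((k i : ℤ) + m * j).toNat) atTop atTop ∧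
    Tendsto (fun i => F^[((k i : ℤ) + m * j).toNat] Q₀) atTop (𝓝 P) := by
  constructor
  · rw [tendsto_atTop]
    intro b
    set c : ℤ := m * j with hc
    filter_upwards [hk.eventually_ge_atTop (b + (-c).toNat)] with i hi
    omega
  · have hfix : ∀ q : ℕ, F^[m * q] P = P := by
      intro q
      rw [Function.iterate_mul]
      exact Function.iterate_fixed hP q
    rcases j with q | q
    · have e : (fun i => F^[((k i : ℤ) + m * (Int.ofNat q)).toNat] Q₀)
          = fun i => F^[m * q] (F^[k i] Q₀) := by
        funext i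
        rw [← Function.iterate_add_apply]
        congr 2
        have : (m : ℤ) * (Int.ofNat q) = ((m * q : ℕ) : ℤ) := by
          rw [Int.ofNat_eq_natCast]
          push_cast
          ring
        rw [this]
        omega
      rw [e]
      have hcont : Continuous (F^[m * q]) := h.sm.continuous.iterate (m * q)
      have := (hcont.tendsto P).comp hk'
      rw [hfix] at this
      exact this
    · set t : ℕ := m * (q + 1) with ht
      have hcont : Continuous (G^[t]) := h.gc.iterate t
      have h1 := (hcont.tendsto P).comp hk'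
      have h2 : G^[t] P = P := by
        have h3 := iter_left h.gl t P
        rw [ht, hfix (q + 1)] at h3
        rw [ht]
        exact h3
      rw [h2] at h1
      refine h1.congr' ?_
      filter_upwards [hk.eventually_ge_atTop t] with i hi
      have h4 : ((k i : ℤ) + m * (Int.negSucc q)).toNat = k i - t := by
        have : (m : ℤ) * (Int.negSucc q) = -(t : ℤ) := by
          rw [Int.negSucc_eq, ht]
          push_cast
          ring
        rw [this]
        omega
      rw [h4]
      show G^[t] (F^[k i] Q₀) = F^[k i - t] Q₀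
      have h5 : F^[k i] Q₀ = F^[t] (F^[k i - t] Q₀) := by
        rw [← Function.iterate_add_apply]
        congr 2
        omega
      rw [h5]
      exact iter_left h.gl t _

end Pool.Agent.Lib.NRF
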