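import Pool.Agent.Lib.MP_a75e15_an.NR.TC
import Pool.Agent.Lib.MP_a75e15_an.NR.TS
import Pool.Agent.Lib.MP_a75e15_an.NR.KL

/-!
# T4b: a coefficient which does not decay contradicts the key lemma

PROOF. `bdd` at `Q₀`: `r`, `R`. `coef_low` with `c₀`: `t₀ ≤ r/8, δ₀, c₁`. For every `q : ℕ` the coefficients of order `l'`, `1 ≤ l' < l`, of `disc F Q₀ w (k i + m q)` tend to `0` (`ih` for the sequence `i ↦ k i + m q`, which tends to infinity, and `F^[k i + m q] Q₀ → P`: `TS` with `j = q`). So given `J`, for all large `i` and all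
`0 ≤ q ≤ J`: `‖deriv (disc F Q₀ w (k i + m q)) t‖ ≥ c₁` for `t₀/2 ≤ ‖t‖ ≤ 3t₀/2`. For `j ≤ J` write `j = m q + b`, `b < m`: by `disc_deriv_succ` (`b` times) and `PC_low` (`‖disc ..‖ ≤ R` on the ball) `‖deriv (disc F Q₀ w (k i + j)) t‖ ≥ μ^b c₁ ≥ μ^m c₁`.
`KL` with centre `Q = Q₀ + t₀ • w` (`t₀` as a complex number; `disc_deriv_shift`), radius `r/2` (`ball Q (r/2) ⊆ ball Q₀ r`), `s = t₀/2` (for `‖t‖ ≤ t₀/2`: `t₀/2 ≤ ‖t₀ + t‖ ≤ 3t₀/2`), `κ = 1`, `c = μ^m c₁`, `a = k i` with `i` large: contradiction.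
-/

set_option autoImplicit false

open Filter Topology

namespace Pool.Agent.Lib.NRF

/-- propagation of the lower bound of the derivative -/
private theorem T4b_step {F : ℂ × ℂ → ℂ × ℂ} (hF : ContDiff ℂ 2 F) {R μ : ℝ} (hμ0 : 0 < μ)
    (hμ : ∀ x, ‖x‖ ≤ R → ∀ v, μ * ‖v‖ ≤ ‖fderiv ℂ F x v‖) {Q w : ℂ × ℂ} {t : ℂ}
    (hb : ∀ k : ℕ, ‖disc F Q w k t‖ ≤ R) (k b : ℕ) :
    μ ^ b * ‖deriv (disc F Q w k) t‖ ≤ ‖deriv (disc F Q w (k + b)) t‖ := by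
  induction b with
  | zero => rw [pow_zero, one_mul, add_zero]
  | succ b ih =>
    rw [← add_assoc, disc_deriv_succ hF]
    refine le_trans ?_ (hμ _ (hb (k + b)) _)
    rw [pow_succ', mul_assoc]
    exact mul_le_mul_of_nonneg_left ih hμ0.le

theorem T4b {F G : ℂ × ℂ → ℂ × ℂ} {D : ℂ} {Ω : Set (ℂ × ℂ)} (h : Ctx F G D Ω) (hD : ‖D‖ < 1) {Q₀ : ℂ × ℂ}
    (hQ : Q₀ ∈ Ω) {P : ℂ × ℂ} {m : ℕ} (hm : 1 ≤ m) (hP : F^[m] P = P) {w : ℂ × ℂ} (hw : ‖w‖ ≤ 1) {l : ℕ} (hl : 1 ≤ l)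
    (ih : ∀ l' : ℕ, 1 ≤ l' → l' < l → ∀ k : ℕ → ℕ, Tendsto k atTop atTop →
      Tendsto (fun i => F^[k i] Q₀) atTop (𝓝 P) → Tendsto (fun i => coef (disc F Q₀ w (k i)) l') atTop (𝓝 0))
    {k : ℕ → ℕ} (hk : Tendsto k atTop atTop) (hk' : Tendsto (fun i => F^[k i] Q₀) atTop (𝓝 P))
    {c₀ : ℝ} (hc : 0 < c₀)
    (hlow : ∀ q : ℕ, ∀ᶠ i in atTop, c₀ ≤ ‖coef (disc F Q₀ w (k i + m * q)) l‖) : False := by
  obtain ⟨r, hr, R, hR, hrΩ, hb⟩ := h.bdd Q₀ hQ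
  obtain ⟨t₀, ht0, htr, δ₀, hδ, c₁, hc1, hcl⟩ := coef_low hr hR hc hl
  obtain ⟨μ, hμ0, hμ1, hμ⟩ := PC_low h.sm h.d0 h.jac R
  have hdisc : ∀ (n : ℕ) (t : ℂ), ‖t‖ < r → ‖disc F Q₀ w n t‖ ≤ R :=
    fun n t ht => hb _ (disc_mem hw ht) n
  -- the shifted sequences
  have hT : ∀ q : ℕ, Tendsto (fun i => k i + m * q) atTop atTop ∧
      Tendsto (fun i => F^[k i + m * q] Q₀) atTop (𝓝 P) := by
    intro q
    have h1 := TS h hP hk hk' (q : ℤ)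
    have h2 : ∀ i : ℕ, ((k i : ℤ) + m * (q : ℤ)).toNat = k i + m * q := by
      intro i
      omega
    simp only [h2] at h1
    exact h1
  -- lower bound at the times `k i + m q`
  have hev : ∀ q : ℕ, ∀ᶠ i in atTop, ∀ t : ℂ, t₀ / 2 ≤ ‖t‖ → ‖t‖ ≤ 3 * t₀ / 2 →
      c₁ ≤ ‖deriv (disc F Q₀ w (k i + m * q)) t‖ := by
    intro q
    have h1 : ∀ᶠ i in atTop, ∀ l' ∈ Finset.range l, 1 ≤ l' →
        ‖coef (disc F Q₀ w (k i + m * q)) l'‖ ≤ δ₀ := by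
      rw [Filter.eventually_all_finset]
      intro l' hl'
      rw [Finset.mem_range] at hl'
      by_cases h2 : 1 ≤ l'
      · have h3 := ih l' h2 hl' (fun i => k i + m * q) (hT q).1 (hT q).2
        have h4 := (Metric.tendsto_nhds.1 h3) δ₀ hδ
        filter_upwards [h4] with i hi _
        rw [dist_zero_right] at hi
        exact hi.le
      · exact Eventually.of_forall (fun i h3 => absurd h3 h2)
    filter_upwards [h1, hlow q] with i h5 h6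
    exact hcl (disc F Q₀ w (k i + m * q)) (disc_diff h.sm Q₀ w _).differentiableOn
      (fun t ht => hdisc _ t (by rwa [Metric.mem_ball, dist_zero_right] at ht)) h6
      (fun i' h7 h8 => h5 i' (Finset.mem_range.2 h8) h7)
  have ht0n : ‖((t₀ : ℝ) : ℂ)‖ = t₀ := by
    rw [Complex.norm_real, Real.norm_of_nonneg ht0.le]
  have hsub : Metric.ball (Q₀ + ((t₀ : ℝ) : ℂ) • w) (r / 2) ⊆ Metric.ball Q₀ r := by
    intro x hx
    rw [Metric.mem_ball] at hx ⊢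
    have h1 := dist_triangle x (Q₀ + ((t₀ : ℝ) : ℂ) • w) Q₀
    have h2 : dist (Q₀ + ((t₀ : ℝ) : ℂ) • w) Q₀ ≤ t₀ := by
      rw [dist_eq_norm, add_sub_cancel_left, norm_smul, ht0n]
      nlinarith [norm_nonneg w]
    linarith
  refine KL h hD (Q := Q₀ + ((t₀ : ℝ) : ℂ) • w) (w := w) (r := r / 2) (R := R) (s := t₀ / 2)
    (c := μ ^ m * c₁) (κ := 1) (hsub.trans hrΩ) hR (fun x hx n => hb x (hsub hx) n) hw (by linarith) (by linarith)
    (by positivity) one_pos le_rfl (by rw [one_pow]; linarith) ?_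
  intro J
  have hall : ∀ᶠ i in atTop, ∀ q ∈ Finset.range (J + 1), ∀ t : ℂ, t₀ / 2 ≤ ‖t‖ → ‖t‖ ≤ 3 * t₀ / 2 →
      c₁ ≤ ‖deriv (disc F Q₀ w (k i + m * q)) t‖ := by
    rw [Filter.eventually_all_finset]
    intro q _
    exact hev q
  obtain ⟨i, h1, h2⟩ := (hall.and (hk.eventually_ge_atTop J)).exists
  refine ⟨k i, h2, ?_⟩
  intro j hj t ht
  rw [disc_deriv_shift h.sm, one_pow, mul_one]
  set u : ℂ := ((t₀ : ℝ) : ℂ) + t with hu
  have hu1 : t₀ / 2 ≤ ‖u‖ := by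
    have h3 := norm_sub_le_norm_add ((t₀ : ℝ) : ℂ) t
    rw [ht0n] at h3
    linarith
  have hu2 : ‖u‖ ≤ 3 * t₀ / 2 := by
    have h3 := norm_add_le ((t₀ : ℝ) : ℂ) t
    rw [ht0n] at h3
    linarith
  have hur : ‖u‖ < r := by linarith
  have hjm : m * (j / m) + j % m = j := Nat.div_add_mod j m
  have hjq : j / m ∈ Finset.range (J + 1) := by
    rw [Finset.mem_range]
    have := Nat.div_le_self j m
    omega
  have h4 := h1 (j / m) hjq u hu1 hu2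
  have h5 := T4b_step h.sm hμ0 hμ (fun n => hdisc n u hur) (k i + m * (j / m)) (j % m)
  rw [add_assoc, hjm] at h5
  refine le_trans ?_ h5
  have h6 : μ ^ m ≤ μ ^ (j % m) :=
    pow_le_pow_of_le_one hμ0.le hμ1.le (Nat.mod_lt _ (by omega)).le
  exact mul_le_mul h6 h4 hc1.le (by positivity)

end Pool.Agent.Lib.NRF
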