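import Pool.Agent.Lib.MP_a75e15_an.NR.T4a
import Pool.Agent.Lib.MP_a75e15_an.NR.T4b

/-!
# T4: at a periodic accumulation point all Taylor coefficients tend to zero

PROOF. Strong induction on `l`, for all sequences `k` simultaneously. Suppose `coef (disc F Q₀ w (k i)) l` does not tend to `0`: there are `c₀ > 0` and a strictly increasing `ψ` with norm `≥ c₀` along `k ∘ ψ` (`Filter.extraction_of_frequently_atTop` or `Metric.tendsto_atTop` negated). `T4a` for `k ∘ ψ`: `φ`. `T4b` for `k ∘ ψ ∘ φ` and `c₀/2`.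
-/

set_option autoImplicit false

open Filter Topology

namespace Pool.Agent.Lib.NRF

theorem T4 {F G : ℂ × ℂ → ℂ × ℂ} {D : ℂ} {Ω : Set (ℂ × ℂ)} (h : Ctx F G D Ω) (hD : ‖D‖ < 1) {Q₀ : ℂ × ℂ}
    (hQ : Q₀ ∈ Ω) {P : ℂ × ℂ} {m : ℕ} (hm : 1 ≤ m) (hP : F^[m] P = P) {w : ℂ × ℂ} (hw : ‖w‖ ≤ 1) (l : ℕ) (hl : 1 ≤ l)
    (k : ℕ → ℕ) (hk : Tendsto k atTop atTop) (hk' : Tendsto (fun i => F^[k i] Q₀) atTop (𝓝 P)) :
    Tendsto (fun i => coef (disc F Q₀ w (k i)) l) atTop (𝓝 0) := by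
  induction l using Nat.strong_induction_on generalizing k with
  | _ l ih =>
    by_contra hcon
    rw [Metric.tendsto_atTop] at hcon
    push Not at hcon
    obtain ⟨c₀, hc, hc'⟩ := hcon
    have hfr : ∃ᶠ i in atTop, c₀ ≤ ‖coef (disc F Q₀ w (k i)) l‖ := by
      rw [Filter.frequently_atTop]
      intro N
      obtain ⟨n, hn, hn'⟩ := hc' N
      refine ⟨n, hn, ?_⟩
      rwa [dist_zero_right] at hn'
    obtain ⟨ψ, hψ, hψ'⟩ := Filter.extraction_of_frequently_atTop hfr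
    have ih' : ∀ l' : ℕ, 1 ≤ l' → l' < l → ∀ k : ℕ → ℕ, Tendsto k atTop atTop →
        Tendsto (fun i => F^[k i] Q₀) atTop (𝓝 P) → Tendsto (fun i => coef (disc F Q₀ w (k i)) l') atTop (𝓝 0) :=
      fun l' h1 h2 k h3 h4 => ih l' h2 h1 k h3 h4
    have hk1 : Tendsto (fun i => k (ψ i)) atTop atTop := hk.comp hψ.tendsto_atTop
    have hk2 : Tendsto (fun i => F^[k (ψ i)] Q₀) atTop (𝓝 P) := hk'.comp hψ.tendsto_atTop
    obtain ⟨φ, hφ, hφ'⟩ := T4a h hD hQ hm hP hw hl ih' hk1 hk2 hc hψ'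
    have hk3 : Tendsto (fun i => k (ψ (φ i))) atTop atTop := hk1.comp hφ.tendsto_atTop
    have hk4 : Tendsto (fun i => F^[k (ψ (φ i))] Q₀) atTop (𝓝 P) := hk2.comp hφ.tendsto_atTop
    exact T4b h hD hQ hm hP hw hl ih' hk3 hk4 (half_pos hc) hφ'

end Pool.Agent.Lib.NRF
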