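import Pool.Agent.Lib.MP_a75e15_an.NR.PC

/-!
# TM: two-sided bounded orbits of a dissipative linear map

PROOF. `wg (u j) (u (j+1))` satisfies `wg (u (j+1)) (u (j+2)) = D' wg (u j) (u (j+1))`, and it is bounded by `2 C²` for all `j ∈ ℤ` (`wg_le`); as `‖D'‖ < 1`, `‖wg (u 0) (u 1)‖ = ‖D'‖^j ‖wg (u (-j)) (u (-j+1))‖ ≤ ‖D'‖^j 2C² → 0`; the same at every index: `wg (u j) (u (j+1)) = 0` for all `j`.
If `u 0 = 0` then all `u j = 0` for `j ≥ 0` and, `L` being injective (`L a = 0` gives `D' wg a b = 0` for all `b`, so `a = 0`), for `j ≤ 0`. Let `u 0 ≠ 0`; by injectivity all `u j ≠ 0`. `wg (u 0) (u 1) = 0` gives `u 1 = lam • u 0`, `lam ≠ 0`. Then `u j = lam^j • u 0` for all `j ∈ ℤ` (induction in both directions: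
`u (j+1) = L (u j)`, `L (lam^j • u 0) = lam^j • u 1 = lam^(j+1) • u 0`; for `j - 1`: `L (u (j-1)) = u j = lam^j u 0 = L (lam^(j-1) u 0)`, injectivity). Bounded for `j → ±∞`: `‖lam‖ = 1`.
-/

set_option autoImplicit false

open Filter Topology

namespace Pool.Agent.Lib.NRF

theorem TM {L : ℂ × ℂ →L[ℂ] ℂ × ℂ} {D' : ℂ} (hL : ∀ a b, wg (L a) (L b) = D' * wg a b) (h0 : D' ≠ 0)
    (h1 : ‖D'‖ < 1) {u : ℤ → ℂ × ℂ} (hu : ∀ j : ℤ, u (j + 1) = L (u j)) {C : ℝ} (hC : ∀ j : ℤ, ‖u j‖ ≤ C) :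
    ∀ j : ℤ, ‖u j‖ = ‖u 0‖ := by
  have hC0 : 0 ≤ C := (norm_nonneg _).trans (hC 0)
  -- the determinants of consecutive vectors vanish
  have hrec : ∀ (n : ℕ) (j : ℤ), wg (u (j + n)) (u (j + n + 1)) = D' ^ n * wg (u j) (u (j + 1)) := by
    intro n
    induction n with
    | zero => intro j; simp
    | succ n ih =>
      intro j
      have e1 : u (j + ((n + 1 : ℕ) : ℤ)) = L (u (j + n)) := by
        rw [← hu]; congr 1; push_cast; ring
      have e2 : u (j + ((n + 1 : ℕ) : ℤ) + 1) = L (u (j + n + 1)) := by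
        rw [← hu]; congr 1; push_cast; ring
      rw [e1, e2, hL, ih j]
      ring
  have hb : ∀ j : ℤ, ‖wg (u j) (u (j + 1))‖ ≤ 2 * C * C := by
    intro j
    calc ‖wg (u j) (u (j + 1))‖ ≤ 2 * ‖u j‖ * ‖u (j + 1)‖ := wg_le _ _
      _ ≤ 2 * C * C := by
        have := hC j
        have := hC (j + 1)
        gcongr
  have hz : wg (u 0) (u 1) = 0 := by
    have hle : ∀ n : ℕ, ‖wg (u 0) (u 1)‖ ≤ ‖D'‖ ^ n * (2 * C * C) := by
      intro n
      have := hrec n (-(n : ℤ))
      simp only [neg_add_cancel, zero_add] at this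
      rw [this, norm_mul, norm_pow]
      exact mul_le_mul_of_nonneg_left (hb _) (by positivity)
    have ht : Tendsto (fun n : ℕ => ‖D'‖ ^ n * (2 * C * C)) atTop (𝓝 (0 * (2 * C * C))) :=
      (tendsto_pow_atTop_nhds_zero_of_lt_one (norm_nonneg _) h1).mul_const _
    rw [zero_mul] at ht
    have := ge_of_tendsto' ht hle
    exact norm_le_zero_iff.mp this
  have hinj0 : ∀ a : ℂ × ℂ, L a = 0 → a = 0 := by
    intro a ha
    have h : ∀ b, wg a b = 0 := by
      intro b
      have h2 := hL a b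
      rw [ha] at h2
      have h3 : wg 0 (L b) = 0 := by simp [wg]
      rw [h3] at h2
      rcases mul_eq_zero.mp h2.symm with h4 | h4
      · exact absurd h4 h0
      · exact h4
    have ha1 := h (0, 1)
    have ha2 := h (1, 0)
    simp only [wg, mul_one, mul_zero, sub_zero] at ha1
    simp only [wg, mul_zero, mul_one, zero_sub, neg_eq_zero] at ha2
    exact Prod.ext ha1 ha2
  have hinj : ∀ a b : ℂ × ℂ, L a = L b → a = b := by
    intro a b hab
    have := hinj0 (a - b) (by rw [map_sub, hab, sub_self])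
    exact sub_eq_zero.mp this
  have hL0 : u 1 = L (u 0) := by
    have := hu 0
    simpa using this
  -- there is `lam` with `L (u 0) = lam • u 0`, `lam ≠ 0`
  have hlam : ∃ lam : ℂ, lam ≠ 0 ∧ L (u 0) = lam • u 0 := by
    by_cases hz0 : u 0 = 0
    · exact ⟨1, one_ne_zero, by rw [hz0]; simp⟩
    have hw : (u 0).1 * (u 1).2 - (u 0).2 * (u 1).1 = 0 := hz
    have hex : ∃ lam : ℂ, u 1 = lam • u 0 := by
      by_cases ha : (u 0).1 = 0
      · have hb2 : (u 0).2 ≠ 0 := by
          intro hb2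
          exact hz0 (Prod.ext ha hb2)
        refine ⟨(u 1).2 / (u 0).2, Prod.ext ?_ ?_⟩
        · simp only [Prod.smul_fst, smul_eq_mul]
          rw [ha] at hw ⊢
          rw [zero_mul, zero_sub, neg_eq_zero] at hw
          rcases mul_eq_zero.mp hw with h4 | h4
          · exact absurd h4 hb2
          · rw [h4]; simp
        · simp only [Prod.smul_snd, smul_eq_mul]
          field_simp
      · refine ⟨(u 1).1 / (u 0).1, Prod.ext ?_ ?_⟩
        · simp only [Prod.smul_fst, smul_eq_mul]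
          field_simp
        · simp only [Prod.smul_snd, smul_eq_mul]
          field_simp
          linear_combination hw
    obtain ⟨lam, hl⟩ := hex
    refine ⟨lam, ?_, by rw [← hL0, hl]⟩
    intro hl0
    rw [hl0, zero_smul, hL0] at hl
    exact hz0 (hinj0 _ hl)
  obtain ⟨lam, hl0, hl⟩ := hlam
  have hall : ∀ j : ℤ, u j = lam ^ j • u 0 := by
    intro j
    induction j using Int.induction_on with
    | zero => simp
    | succ i ih =>
      rw [hu, ih, map_smul, hl, smul_smul, zpow_add_one₀ hl0]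
    | pred i ih =>
      apply hinj
      rw [map_smul, hl, smul_smul, ← hu]
      rw [show (-(i : ℤ) - 1 + 1) = -(i : ℤ) by ring, ih]
      congr 1
      rw [← zpow_add_one₀ hl0]
      congr 1
      ring
  by_cases hz0 : u 0 = 0
  · intro j
    rw [hall j, hz0]
    simp
  have hp : 0 < ‖u 0‖ := norm_pos_iff.mpr hz0
  have hl1 : ‖lam‖ = 1 := by
    apply le_antisymm
    · by_contra hgt
      push Not at hgt
      obtain ⟨n, hn⟩ := pow_unbounded_of_one_lt (C / ‖u 0‖) hgt
      have h2 := hC (n : ℤ)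
      rw [hall (n : ℤ), zpow_natCast, norm_smul, norm_pow] at h2
      rw [div_lt_iff₀ hp] at hn
      linarith
    · by_contra hlt
      push Not at hlt
      have hlp : 0 < ‖lam‖ := norm_pos_iff.mpr hl0
      have hgt : 1 < ‖lam‖⁻¹ := (one_lt_inv₀ hlp).mpr hlt
      obtain ⟨n, hn⟩ := pow_unbounded_of_one_lt (C / ‖u 0‖) hgt
      have h2 := hC (-(n : ℤ))
      rw [hall (-(n : ℤ)), zpow_neg, zpow_natCast, norm_smul, norm_inv, norm_pow, ← inv_pow] at h2
      rw [div_lt_iff₀ hp] at hn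
      linarith
  intro j
  rw [hall j, norm_smul, norm_zpow, hl1, one_zpow, one_mul]

end Pool.Agent.Lib.NRF
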