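import Pool.Agent.Lib.MP_a75e15_an.NR.TR
import Pool.Agent.Lib.MP_a75e15_an.NR.TM
import Pool.Agent.Lib.MP_a75e15_an.NR.TS
import Pool.Agent.Lib.MP_a75e15_an.NR.SL

/-!
# T4a: the first nonvanishing coefficient does not decay along the forward orbit

PROOF. `bdd` at `Q₀`: `r`, `R`. For `j : ℤ` let `κ_j(i) = ((k i : ℤ) + m * j).toNat` (`TS`). The vectors `a_i(j) = coef (disc F Q₀ w (κ_j(i))) l` are bounded by `C = R/r^l` (`coef_le`, `disc_mem`): by compactness of the countable product of closed balls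
(`isCompact_univ_pi`, `IsCompact.tendsto_subseq`; `ℤ → ℂ × ℂ` is first countable) there are a strictly increasing `φ` and `u : ℤ → ℂ × ℂ` with `a_{φ i}(j) → u j` for all `j`. `u (j+1) = L (u j)`, `L = fderiv ℂ (F^[m]) P`: apply `TR` with `Φ = F^[m]`, `g i = disc F Q₀ w (κ_j(φ i))`: for large `i`
`Φ (g i t) = disc F Q₀ w (κ_{j+1}(φ i)) t` (`F^[m] ∘ F^[κ_j] = F^[κ_j + m]`), and the coefficients of order `l' < l`, `l' ≥ 1`, of `g i` tend to `0` by `ih` for the sequence `κ_j ∘ φ`. `wg (L a) (L b) = D^m wg a b` (chain rule `fderiv (F^[n+1])`, induction); `TM` with `D' = D^m`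
(`‖D‖^m < 1` as `m ≥ 1`): `‖u q‖ = ‖u 0‖ ≥ c₀` for `q : ℕ`. So `‖a_{φ i}(q)‖ ≥ c₀/2` for large `i`; `κ_q(i) = k i + m q` for `q ≥ 0`.
-/

set_option autoImplicit false

open Filter Topology

namespace Pool.Agent.Lib.NRF

private theorem T4a_cd {F : ℂ × ℂ → ℂ × ℂ} (hF : ContDiff ℂ 2 F) (n : ℕ) : ContDiff ℂ 2 (F^[n]) := by
  induction n with
  | zero => simpa using contDiff_id
  | succ n ih =>
    rw [Function.iterate_succ']
    exact hF.comp ih

private theorem T4a_wg {F G : ℂ × ℂ → ℂ × ℂ} {D : ℂ} {Ω : Set (ℂ × ℂ)} (h : Ctx F G D Ω) (n : ℕ) :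
    ∀ x a b : ℂ × ℂ, wg (fderiv ℂ (F^[n]) x a) (fderiv ℂ (F^[n]) x b) = D ^ n * wg a b := by
  induction n with
  | zero =>
    intro x a b
    have : F^[0] = id := rfl
    rw [this, fderiv_id]
    simp
  | succ n ih =>
    intro x a b
    have h1 : Differentiable ℂ F := h.sm.differentiable (by norm_num)
    have h2 : Differentiable ℂ (F^[n]) := (T4a_cd h.sm n).differentiable (by norm_num)
    have e : fderiv ℂ (F^[n + 1]) x = (fderiv ℂ F (F^[n] x)).comp (fderiv ℂ (F^[n]) x) := by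
      rw [Function.iterate_succ']
      exact fderiv_comp x (h1 _) (h2 _)
    rw [e, ContinuousLinearMap.comp_apply, ContinuousLinearMap.comp_apply, h.jac, ih, pow_succ]
    ring

theorem T4a {F G : ℂ × ℂ → ℂ × ℂ} {D : ℂ} {Ω : Set (ℂ × ℂ)} (h : Ctx F G D Ω) (hD : ‖D‖ < 1) {Q₀ : ℂ × ℂ}
    (hQ : Q₀ ∈ Ω) {P : ℂ × ℂ} {m : ℕ} (hm : 1 ≤ m) (hP : F^[m] P = P) {w : ℂ × ℂ} (hw : ‖w‖ ≤ 1) {l : ℕ} (hl : 1 ≤ l)
    (ih : ∀ l' : ℕ, 1 ≤ l' → l' < l → ∀ k : ℕ → ℕ, Tendsto k atTop atTop →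
      Tendsto (fun i => F^[k i] Q₀) atTop (𝓝 P) → Tendsto (fun i => coef (disc F Q₀ w (k i)) l') atTop (𝓝 0))
    {k : ℕ → ℕ} (hk : Tendsto k atTop atTop) (hk' : Tendsto (fun i => F^[k i] Q₀) atTop (𝓝 P))
    {c₀ : ℝ} (hc : 0 < c₀) (hlow : ∀ i, c₀ ≤ ‖coef (disc F Q₀ w (k i)) l‖) :
    ∃ φ : ℕ → ℕ, StrictMono φ ∧ ∀ q : ℕ, ∀ᶠ i in atTop, c₀ / 2 ≤ ‖coef (disc F Q₀ w (k (φ i) + m * q)) l‖ := by
  obtain ⟨r, hr, R, hR, hsub, hbd⟩ := h.bdd Q₀ hQ
  have hdd : ∀ n : ℕ, DifferentiableOn ℂ (disc F Q₀ w n) (Metric.ball 0 r) := fun n =>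
    (disc_diff h.sm Q₀ w n).differentiableOn
  have hdb : ∀ n : ℕ, ∀ t ∈ Metric.ball (0 : ℂ) r, ‖disc F Q₀ w n t‖ ≤ R := by
    intro n t ht
    have ht' : ‖t‖ < r := by simpa using ht
    exact hbd _ (disc_mem hw ht') n
  set κ : ℤ → ℕ → ℕ := fun j i => ((k i : ℤ) + m * j).toNat with hκ
  have hTS : ∀ j : ℤ, Tendsto (κ j) atTop atTop ∧ Tendsto (fun i => F^[κ j i] Q₀) atTop (𝓝 P) := fun j =>
    TS h hP hk hk' j
  set a : ℕ → ℤ → ℂ × ℂ := fun i j => coef (disc F Q₀ w (κ j i)) l with ha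
  have hab : ∀ i j, ‖a i j‖ ≤ R / r ^ l := fun i j => coef_le hr (hdd _) (hdb _) l
  have hK : IsCompact (Set.pi Set.univ (fun _ : ℤ => Metric.closedBall (0 : ℂ × ℂ) (R / r ^ l))) :=
    isCompact_univ_pi (fun _ => isCompact_closedBall 0 _)
  obtain ⟨u, hu, φ, hφ, hlim⟩ := hK.tendsto_subseq (x := a) (fun i j _ => by simpa using hab i j)
  have hlim' : ∀ j, Tendsto (fun i => a (φ i) j) atTop (𝓝 (u j)) := fun j =>
    (tendsto_pi_nhds.1 hlim) j
  have hub : ∀ j : ℤ, ‖u j‖ ≤ R / r ^ l := fun j => by simpa using hu j (Set.mem_univ j)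
  have hφt : Tendsto φ atTop atTop := hφ.tendsto_atTop
  have hrec : ∀ j : ℤ, u (j + 1) = fderiv ℂ (F^[m]) P (u j) := by
    intro j
    have h1 := TR (T4a_cd h.sm m) (P := P) hr hR hl (g := fun i => disc F Q₀ w (κ j (φ i)))
      (fun n => hdd _) (fun n => hdb _)
      (by
        have := (hTS j).2.comp hφt
        refine this.congr (fun i => ?_)
        simp [disc])
      (fun i' h1 h2 => ih i' h1 h2 (fun i => κ j (φ i)) ((hTS j).1.comp hφt) ((hTS j).2.comp hφt))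
    have hev : ∀ᶠ i in atTop, coef (fun t => F^[m] (disc F Q₀ w (κ j (φ i)) t)) l = a (φ i) (j + 1) := by
      have h2 : ∀ᶠ i in atTop, 1 ≤ κ j (φ i) := ((hTS j).1.comp hφt).eventually_ge_atTop 1
      filter_upwards [h2] with i hi
      have e : κ (j + 1) (φ i) = m + κ j (φ i) := by
        simp only [hκ] at hi ⊢
        have hm0 : (0 : ℤ) ≤ (m : ℤ) := Int.natCast_nonneg m
        have e1 : (k (φ i) : ℤ) + m * (j + 1) = (k (φ i) : ℤ) + m * j + m := by ring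
        rw [e1]
        omega
      have e2 : (fun t => F^[m] (disc F Q₀ w (κ j (φ i)) t)) = disc F Q₀ w (κ (j + 1) (φ i)) := by
        funext t
        rw [e]
        simp only [disc]
        rw [Function.iterate_add_apply]
      rw [e2]
    have h3 : Tendsto (fun i => a (φ i) (j + 1) - fderiv ℂ (F^[m]) P (a (φ i) j)) atTop (𝓝 0) := by
      refine h1.congr' ?_
      filter_upwards [hev] with i hi
      rw [hi]
    have h4 : Tendsto (fun i => a (φ i) (j + 1) - fderiv ℂ (F^[m]) P (a (φ i) j)) atTop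
        (𝓝 (u (j + 1) - fderiv ℂ (F^[m]) P (u j))) :=
      (hlim' (j + 1)).sub (((fderiv ℂ (F^[m]) P).continuous.tendsto _).comp (hlim' j))
    exact sub_eq_zero.1 (tendsto_nhds_unique h4 h3)
  have hnorm := TM (L := fderiv ℂ (F^[m]) P) (D' := D ^ m) (T4a_wg h m P) (pow_ne_zero _ h.d0)
    (by rw [norm_pow]; exact pow_lt_one₀ (norm_nonneg _) hD (by omega)) hrec hub
  have hu0 : c₀ ≤ ‖u 0‖ := by
    refine ge_of_tendsto (hlim' 0).norm (Eventually.of_forall (fun i => ?_))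
    have : κ 0 (φ i) = k (φ i) := by simp [hκ]
    simp only [ha]
    rw [this]
    exact hlow (φ i)
  refine ⟨φ, hφ, fun q => ?_⟩
  have hq : c₀ / 2 < ‖u (q : ℤ)‖ := by
    rw [hnorm]
    linarith
  have hev := (hlim' (q : ℤ)).norm.eventually_const_lt hq
  filter_upwards [hev] with i hi
  have e : κ (q : ℤ) (φ i) = k (φ i) + m * q := by
    simp only [hκ]
    have : (k (φ i) : ℤ) + m * (q : ℤ) = ((k (φ i) + m * q : ℕ) : ℤ) := by push_cast; ring
    rw [this, Int.toNat_natCast]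
  have hi' : c₀ / 2 < ‖coef (disc F Q₀ w (κ (q : ℤ) (φ i))) l‖ := hi
  rw [e] at hi'
  exact hi'.le

end Pool.Agent.Lib.NRF
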