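import Pool.Agent.Lib.MP_a75e15_an.NR.T4

/-!
# T6: synchronisation at periodic points

PROOF. LOCAL: if `Q ∈ Ω`, `ball Q r ⊆ Ω`, `‖F^[k] x‖ ≤ R` on `ball Q r`, and `F^[k i] Q → P`, then `F^[k i] x → P` for every `x ∈ ball Q r`: `x = Q + t • w`, `‖w‖ ≤ 1`, `‖t‖ < r` (`t = ‖x - Q‖`, `w = (x-Q)/t`; `x = Q` trivial), `coef_tendsto` for `g i = disc F Q w (k i)` with `T4`.
So the set `S = {Q ∈ Ω | F^[k i] Q → P}` is open; its complement in `Ω` is open: let `Q ∈ Ω`, `r`, `R` from `bdd`, `Q' ∈ ball Q (r/3) ∩ S`; `ball Q' (r/2) ⊆ ball Q r` contains `Q`, so `Q ∈ S`. `Q₀ ∈ S`, `Ω` preconnected: `S = Ω` (e.g. `IsPreconnected.subset_of_closure_inter_subset`,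
or `IsPreconnected.induction₂` for the relation `Q ∈ S ↔ Q' ∈ S`). `F P = P`: `F Q₀ ∈ Ω = S`, `F^[k i] (F Q₀) = F (F^[k i] Q₀) → F P`, uniqueness of limits.
-/

set_option autoImplicit false

open Filter Topology

namespace Pool.Agent.Lib.NRF

private theorem T6_local {F G : ℂ × ℂ → ℂ × ℂ} {D : ℂ} {Ω : Set (ℂ × ℂ)} (h : Ctx F G D Ω) (hD : ‖D‖ < 1)
    {P : ℂ × ℂ} {m : ℕ} (hm : 1 ≤ m) (hP : F^[m] P = P) {k : ℕ → ℕ} (hk : Tendsto k atTop atTop) {Q : ℂ × ℂ}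
    (hQ : Q ∈ Ω) {r R : ℝ} (hr : 0 < r) (hb : ∀ x ∈ Metric.ball Q r, ∀ j : ℕ, ‖F^[j] x‖ ≤ R)
    (hk' : Tendsto (fun i => F^[k i] Q) atTop (𝓝 P)) {x : ℂ × ℂ} (hx : x ∈ Metric.ball Q r) :
    Tendsto (fun i => F^[k i] x) atTop (𝓝 P) := by
  by_cases hxQ : x = Q
  · rw [hxQ]
    exact hk'
  have hn0 : 0 < ‖x - Q‖ := norm_pos_iff.2 (sub_ne_zero.2 hxQ)
  have hnc : ((‖x - Q‖ : ℝ) : ℂ) ≠ 0 := by exact_mod_cast hn0.ne'
  have hnt : ‖((‖x - Q‖ : ℝ) : ℂ)‖ = ‖x - Q‖ := by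
    rw [Complex.norm_real, norm_norm]
  set w : ℂ × ℂ := (((‖x - Q‖ : ℝ) : ℂ))⁻¹ • (x - Q) with hw
  have hw1 : ‖w‖ ≤ 1 := by
    rw [hw, norm_smul, norm_inv, hnt, inv_mul_cancel₀ hn0.ne']
  have hxw : Q + ((‖x - Q‖ : ℝ) : ℂ) • w = x := by
    rw [hw, smul_smul, mul_inv_cancel₀ hnc, one_smul]
    abel
  have ht : ((‖x - Q‖ : ℝ) : ℂ) ∈ Metric.ball (0 : ℂ) r := by
    rw [mem_ball_zero_iff, hnt]
    rwa [Metric.mem_ball, dist_eq_norm] at hx
  have h1 := coef_tendsto (r := r) (R := R) hr (g := fun i => disc F Q w (k i))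
    (fun i => (disc_diff h.sm Q w (k i)).differentiableOn)
    (fun i t ht' => hb _ (disc_mem hw1 (mem_ball_zero_iff.1 ht')) _)
    (P := P) (by
      have h2 : (fun i => disc F Q w (k i) 0) = fun i => F^[k i] Q := by
        funext i
        unfold disc
        rw [zero_smul, add_zero]
      rw [h2]
      exact hk')
    (fun l hl => T4 h hD hQ hm hP hw1 l hl k hk hk') ht
  have h3 : (fun i => disc F Q w (k i) ((‖x - Q‖ : ℝ) : ℂ)) = fun i => F^[k i] x := by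
    funext i
    unfold disc
    rw [hxw]
  rwa [h3] at h1

theorem T6 {F G : ℂ × ℂ → ℂ × ℂ} {D : ℂ} {Ω : Set (ℂ × ℂ)} (h : Ctx F G D Ω) (hD : ‖D‖ < 1) {Q₀ : ℂ × ℂ}
    (hQ : Q₀ ∈ Ω) {P : ℂ × ℂ} {m : ℕ} (hm : 1 ≤ m) (hP : F^[m] P = P)
    (k : ℕ → ℕ) (hk : Tendsto k atTop atTop) (hk' : Tendsto (fun i => F^[k i] Q₀) atTop (𝓝 P)) :
    F P = P ∧ ∀ Q ∈ Ω, Tendsto (fun i => F^[k i] Q) atTop (𝓝 P) := by
  have hall : ∀ Q ∈ Ω, Tendsto (fun i => F^[k i] Q) atTop (𝓝 P) := by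
    intro Q hQ'
    have hind := h.conn.induction₂
      (fun A B => (Tendsto (fun i => F^[k i] A) atTop (𝓝 P)) ↔ Tendsto (fun i => F^[k i] B) atTop (𝓝 P))
      (fun A hA => by
        obtain ⟨r, hr, R, -, hsub, hb⟩ := h.bdd A hA
        have hmem : Metric.ball A (r / 3) ∈ 𝓝[Ω] A :=
          mem_nhdsWithin_of_mem_nhds (Metric.ball_mem_nhds A (by positivity))
        filter_upwards [hmem] with B hB
        have hBr : B ∈ Metric.ball A r := Metric.ball_subset_ball (by linarith) hB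
        constructor
        · intro hA'
          exact T6_local h hD hm hP hk hA hr hb hA' hBr
        · intro hB'
          refine T6_local h hD hm hP hk (hsub hBr) (r := r / 2) (R := R) (by positivity) ?_ hB' ?_
          · intro x hx j
            refine hb x ?_ j
            rw [Metric.mem_ball] at hx hB ⊢
            linarith [dist_triangle x B A]
          · rw [Metric.mem_ball, dist_comm]
            rw [Metric.mem_ball] at hB
            linarith)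
      (fun A B C _ _ _ h1 h2 => h1.trans h2) (fun A B _ _ h1 => h1.symm) hQ hQ'
    exact hind.1 hk'
  refine ⟨?_, hall⟩
  have h1 := hall (F Q₀) (h.maps Q₀ hQ)
  have h2 : Tendsto (fun i => F^[k i] (F Q₀)) atTop (𝓝 (F P)) := by
    have h3 : (fun i => F^[k i] (F Q₀)) = fun i => F (F^[k i] Q₀) := by
      funext i
      rw [← Function.iterate_succ_apply, Function.iterate_succ_apply']
    rw [h3]
    exact (h.sm.continuous.tendsto P).comp hk'
  exact tendsto_nhds_unique h2 h1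

end Pool.Agent.Lib.NRF
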