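import Pool.Agent.Lib.MP_a75e15_an.NR.Defs

/-!
# TC: Taylor coefficients of bounded discs

PROOF. `coef_le`: Cauchy (`Complex.norm_iteratedDeriv_le_of_forall_mem_sphere_norm_le`) on circles of radius `s < r`, `s → r`. `coef_hasSum`: `Complex.hasSum_taylorSeries_on_ball` (or the analogous statement for vector valued functions; if it is only
available for complex valued functions apply it to the two components, `HasSum.prodMk`). `coef_tendsto` (T5): dominated convergence for sums (`tendsto_tsum_of_dominated_convergence`) with the bound `R (‖t‖/r)^l` of `coef_le` (any `r' < r`).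
`coef_low` (T3): let `c₀ ≤ ‖coef g l‖`. `deriv g t = ∑_i i coef g i t^(i-1)`; for `‖t‖ ≤ r/2` the terms with `i > l` contribute at most `C ‖t‖^l`, `C = C(R, r, l)` (geometric series with factor `1/2`: `i R/r^i ‖t‖^(i-1)`), those with `1 ≤ i < l` at most `δ₀ l` if `‖t‖ ≤ 1`.
So for `t₀/2 ≤ ‖t‖ ≤ 3t₀/2`: `‖deriv g t‖ ≥ l c₀ (t₀/2)^(l-1) - C (3t₀/2)^l - δ₀ l²`; choose first `t₀` with `C (3t₀/2)^l ≤ (1/4) c₀ (t₀/2)^(l-1)`, then `δ₀`.
-/

set_option autoImplicit false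

open Filter Topology

namespace Pool.Agent.Lib.NRF

theorem coef_zero (g : ℂ → ℂ × ℂ) : coef g 0 = g 0 := by
  simp [coef, iteratedDeriv_zero]

theorem coef_le {r R : ℝ} (hr : 0 < r) {g : ℂ → ℂ × ℂ} (hd : DifferentiableOn ℂ g (Metric.ball 0 r))
    (hb : ∀ t ∈ Metric.ball (0 : ℂ) r, ‖g t‖ ≤ R) (l : ℕ) : ‖coef g l‖ ≤ R / r ^ l := by
  have key : ∀ s : ℝ, 0 < s → s < r → ‖coef g l‖ ≤ R / s ^ l := by
    intro s hs hsr
    have hsub : Metric.closedBall (0 : ℂ) s ⊆ Metric.ball 0 r := Metric.closedBall_subset_ball hsr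
    have h1 : DiffContOnCl ℂ g (Metric.ball 0 s) := (hd.mono hsub).diffContOnCl_ball subset_rfl
    have h2 := Complex.norm_iteratedDeriv_le_of_forall_mem_sphere_norm_le (C := R) l hs h1
      (fun z hz => hb z (hsub (Metric.sphere_subset_closedBall hz)))
    have hf : (0 : ℝ) < (l.factorial : ℝ) := by exact_mod_cast l.factorial_pos
    have h3 : ‖coef g l‖ = (l.factorial : ℝ)⁻¹ * ‖iteratedDeriv l g 0‖ := by
      rw [coef, norm_smul, norm_inv, Complex.norm_natCast]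
    rw [h3]
    calc (l.factorial : ℝ)⁻¹ * ‖iteratedDeriv l g 0‖ ≤ (l.factorial : ℝ)⁻¹ * (l.factorial * R / s ^ l) := by gcongr
      _ = R / s ^ l := by field_simp
  have hlim : Tendsto (fun s : ℝ => R / s ^ l) (𝓝[<] r) (𝓝 (R / r ^ l)) := by
    have : ContinuousAt (fun s : ℝ => R / s ^ l) r := by
      apply ContinuousAt.div continuousAt_const (by fun_prop) (by positivity)
    exact this.tendsto.mono_left nhdsWithin_le_nhds
  refine ge_of_tendsto hlim ?_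
  have hmem : Set.Ioo 0 r ∈ 𝓝[<] r := Ioo_mem_nhdsLT hr
  filter_upwards [hmem] with s hs
  exact key s hs.1 hs.2

theorem coef_hasSum {r : ℝ} {g : ℂ → ℂ × ℂ} (hd : DifferentiableOn ℂ g (Metric.ball 0 r)) {t : ℂ}
    (ht : t ∈ Metric.ball (0 : ℂ) r) : HasSum (fun l : ℕ => t ^ l • coef g l) (g t) := by
  have h := Complex.hasSum_taylorSeries_on_ball hd ht
  simpa [coef, smul_smul, mul_comm] using h

theorem coef_tendsto {r R : ℝ} (hr : 0 < r) {g : ℕ → ℂ → ℂ × ℂ}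
    (hd : ∀ n, DifferentiableOn ℂ (g n) (Metric.ball 0 r)) (hb : ∀ n, ∀ t ∈ Metric.ball (0 : ℂ) r, ‖g n t‖ ≤ R)
    {P : ℂ × ℂ} (h0 : Tendsto (fun n => g n 0) atTop (𝓝 P))
    (hl : ∀ l : ℕ, 1 ≤ l → Tendsto (fun n => coef (g n) l) atTop (𝓝 0)) {t : ℂ} (ht : t ∈ Metric.ball (0 : ℂ) r) :
    Tendsto (fun n => g n t) atTop (𝓝 P) := by
  have htn : ‖t‖ < r := by simpa using ht
  have hlt : ‖t‖ / r < 1 := by rw [div_lt_one hr]; exact htn
  have hs0 : Summable (fun l : ℕ => R * (‖t‖ / r) ^ l) :=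
    (summable_geometric_of_lt_one (by positivity) hlt).mul_left R
  have h1 : Tendsto (fun n => ∑' l : ℕ, t ^ l • coef (g n) l) atTop
      (𝓝 (∑' l : ℕ, if l = 0 then P else 0)) := by
    refine tendsto_tsum_of_dominated_convergence hs0 ?_ ?_
    · intro l
      by_cases h : l = 0
      · subst h
        simpa [coef_zero] using h0
      · simp only [if_neg h]
        have := (hl l (Nat.one_le_iff_ne_zero.2 h)).const_smul (t ^ l)
        simpa using this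
    · refine Eventually.of_forall (fun n l => ?_)
      rw [norm_smul, norm_pow]
      have := coef_le hr (hd n) (hb n) l
      calc ‖t‖ ^ l * ‖coef (g n) l‖ ≤ ‖t‖ ^ l * (R / r ^ l) := by gcongr
        _ = R * (‖t‖ / r) ^ l := by rw [div_pow]; ring
  have h2 : (∑' l : ℕ, if l = 0 then P else 0) = P := by simp
  rw [h2] at h1
  refine h1.congr (fun n => ?_)
  exact (coef_hasSum (hd n) ht).tsum_eq

private theorem TC_tail {r R : ℝ} (hr : 0 < r) {g : ℂ → ℂ × ℂ} (hd : DifferentiableOn ℂ g (Metric.ball 0 r))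
    (hb : ∀ t ∈ Metric.ball (0 : ℂ) r, ‖g t‖ ≤ R) (k : ℕ) {z : ℂ} (hz : ‖z‖ ≤ r / 2) :
    ‖g z - ∑ i ∈ Finset.range k, z ^ i • coef g i‖ ≤ 2 * R * (‖z‖ / r) ^ k := by
  have hR : 0 ≤ R := le_trans (norm_nonneg _) (hb 0 (by simpa using hr))
  have hzb : z ∈ Metric.ball (0 : ℂ) r := by
    have : ‖z‖ < r := by linarith
    simpa using this
  have hq : ‖z‖ / r ≤ 1 / 2 := by rw [div_le_iff₀ hr]; linarith
  have hq0 : 0 ≤ ‖z‖ / r := by positivity
  have h1 := (hasSum_nat_add_iff' k).2 (coef_hasSum hd hzb)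
  have h2 : HasSum (fun i : ℕ => (R * (‖z‖ / r) ^ k) * (‖z‖ / r) ^ i)
      ((R * (‖z‖ / r) ^ k) * (1 - ‖z‖ / r)⁻¹) :=
    (hasSum_geometric_of_lt_one hq0 (by linarith)).mul_left _
  have h3 := h1.norm_le_of_bounded h2 (fun i => by
    rw [norm_smul, norm_pow]
    have := coef_le hr hd hb (i + k)
    calc ‖z‖ ^ (i + k) * ‖coef g (i + k)‖ ≤ ‖z‖ ^ (i + k) * (R / r ^ (i + k)) := by gcongr
      _ = (R * (‖z‖ / r) ^ k) * (‖z‖ / r) ^ i := by rw [div_pow, div_pow, pow_add, pow_add]; field_simp)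
  refine h3.trans ?_
  have h4 : (1 - ‖z‖ / r)⁻¹ ≤ 2 := by
    rw [inv_le_comm₀ (by linarith) (by norm_num)]
    linarith
  have h5 : 0 ≤ R * (‖z‖ / r) ^ k := by positivity
  calc (R * (‖z‖ / r) ^ k) * (1 - ‖z‖ / r)⁻¹ ≤ (R * (‖z‖ / r) ^ k) * 2 := by gcongr
    _ = 2 * R * (‖z‖ / r) ^ k := by ring

private theorem TC_deriv {r R : ℝ} (hr : 0 < r) {g : ℂ → ℂ × ℂ} (hd : DifferentiableOn ℂ g (Metric.ball 0 r))
    (hb : ∀ t ∈ Metric.ball (0 : ℂ) r, ‖g t‖ ≤ R) (l : ℕ) {t : ℂ} (ht0 : 0 < ‖t‖) (ht : ‖t‖ ≤ r / 4) :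
    ‖deriv g t - ∑ i ∈ Finset.range (l + 1), ((i : ℂ) * t ^ (i - 1)) • coef g i‖ ≤
      (2 * R * (2 / r) ^ (l + 1)) * ‖t‖ ^ l := by
  have hR : 0 ≤ R := le_trans (norm_nonneg _) (hb 0 (by simpa using hr))
  set h : ℂ → ℂ × ℂ := fun z => g z - ∑ i ∈ Finset.range (l + 1), z ^ i • coef g i with hh
  have hsub : ∀ z : ℂ, ‖z - t‖ ≤ ‖t‖ → ‖z‖ ≤ 2 * ‖t‖ := by
    intro z hz
    calc ‖z‖ = ‖(z - t) + t‖ := by rw [sub_add_cancel]
      _ ≤ ‖z - t‖ + ‖t‖ := norm_add_le _ _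
      _ ≤ 2 * ‖t‖ := by linarith
  have hball : Metric.closedBall t ‖t‖ ⊆ Metric.ball (0 : ℂ) r := by
    intro z hz
    have h1 : ‖z - t‖ ≤ ‖t‖ := mem_closedBall_iff_norm.1 hz
    have := hsub z h1
    have : ‖z‖ < r := by linarith
    simpa using this
  have hdh : DifferentiableOn ℂ h (Metric.ball 0 r) := by
    refine hd.sub ?_
    fun_prop
  have h1 : DiffContOnCl ℂ h (Metric.ball t ‖t‖) := (hdh.mono hball).diffContOnCl_ball subset_rfl
  have h2 := Complex.norm_deriv_le_of_forall_mem_sphere_norm_le (C := 2 * R * (2 * ‖t‖ / r) ^ (l + 1)) ht0 h1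
    (fun z hz => by
      have h3 : ‖z - t‖ ≤ ‖t‖ := mem_closedBall_iff_norm.1 (Metric.sphere_subset_closedBall hz)
      have h4 := hsub z h3
      refine (TC_tail hr hd hb (l + 1) (z := z) (by linarith)).trans ?_
      gcongr)
  have hgt : DifferentiableAt ℂ g t := by
    have : t ∈ Metric.ball (0 : ℂ) r := hball (Metric.mem_closedBall_self ht0.le)
    exact hd.differentiableAt (Metric.isOpen_ball.mem_nhds this)
  have hdv : HasDerivAt h (deriv g t - ∑ i ∈ Finset.range (l + 1), ((i : ℂ) * t ^ (i - 1)) • coef g i) t := by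
    refine hgt.hasDerivAt.sub ?_
    refine HasDerivAt.fun_sum (fun i _ => ?_)
    exact (hasDerivAt_pow i t).smul_const (coef g i)
  rw [hdv.deriv] at h2
  refine h2.trans (le_of_eq ?_)
  have ht' : ‖t‖ ≠ 0 := ht0.ne'
  rw [show 2 * ‖t‖ / r = (2 / r) * ‖t‖ by ring, mul_pow, pow_succ ‖t‖ l]
  field_simp

theorem coef_low {r R c₀ : ℝ} (hr : 0 < r) (hR : 0 < R) (hc : 0 < c₀) {l : ℕ} (hl : 1 ≤ l) :
    ∃ t₀ : ℝ, 0 < t₀ ∧ t₀ ≤ r / 8 ∧ ∃ δ₀ : ℝ, 0 < δ₀ ∧ ∃ c₁ : ℝ, 0 < c₁ ∧ ∀ g : ℂ → ℂ × ℂ,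
      DifferentiableOn ℂ g (Metric.ball 0 r) → (∀ t ∈ Metric.ball (0 : ℂ) r, ‖g t‖ ≤ R) → c₀ ≤ ‖coef g l‖ →
      (∀ i : ℕ, 1 ≤ i → i < l → ‖coef g i‖ ≤ δ₀) →
      ∀ t : ℂ, t₀ / 2 ≤ ‖t‖ → ‖t‖ ≤ 3 * t₀ / 2 → c₁ ≤ ‖deriv g t‖ := by
  set C : ℝ := 2 * R * (2 / r) ^ (l + 1) with hC
  have hCp : 0 < C := by positivity
  set t₀ : ℝ := min (r / 8) (min (1 / 2) (c₀ / (6 * C))) with ht₀
  have ht0 : 0 < t₀ := by
    refine lt_min (by positivity) (lt_min (by norm_num) (by positivity))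
  have ht1 : t₀ ≤ r / 8 := min_le_left _ _
  have ht2 : t₀ ≤ 1 / 2 := (min_le_right _ _).trans (min_le_left _ _)
  have ht3 : t₀ ≤ c₀ / (6 * C) := (min_le_right _ _).trans (min_le_right _ _)
  have ht3' : C * (3 * t₀ / 2) ≤ c₀ / 4 := by
    rw [le_div_iff₀ (by positivity)] at ht3
    linarith
  have hl0 : (0 : ℝ) < (l : ℝ) := by exact_mod_cast hl
  have hl1 : (1 : ℝ) ≤ (l : ℝ) := by exact_mod_cast hl
  set m : ℝ := c₀ * (t₀ / 2) ^ (l - 1) with hm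
  have hmp : 0 < m := by positivity
  refine ⟨t₀, ht0, ht1, m / 4 / (l * l), by positivity, m / 2, by positivity, ?_⟩
  intro g hd hb hcl hsm t hta htb
  have htp : 0 < ‖t‖ := by linarith
  have htr : ‖t‖ ≤ r / 4 := by linarith
  have htone : ‖t‖ ≤ 1 := by linarith
  have h1 := TC_deriv hr hd hb l htp htr
  rw [← hC] at h1
  have h2 : ‖∑ i ∈ Finset.range l, ((i : ℂ) * t ^ (i - 1)) • coef g i‖ ≤ m / 4 := by
    have h3 : ∀ i ∈ Finset.range l, ‖((i : ℂ) * t ^ (i - 1)) • coef g i‖ ≤ l * (m / 4 / (l * l)) := by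
      intro i hi
      rw [Finset.mem_range] at hi
      rcases Nat.eq_zero_or_pos i with h0 | h0
      · subst h0
        simp only [Nat.cast_zero, zero_mul, zero_smul, norm_zero]
        positivity
      · rw [norm_smul, norm_mul, norm_pow, Complex.norm_natCast]
        have h4 := hsm i h0 hi
        have h5 : ‖t‖ ^ (i - 1) ≤ 1 := pow_le_one₀ (norm_nonneg _) htone
        have h6 : (i : ℝ) ≤ l := by exact_mod_cast hi.le
        calc (i : ℝ) * ‖t‖ ^ (i - 1) * ‖coef g i‖ ≤ l * 1 * (m / 4 / (l * l)) := by gcongr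
          _ = l * (m / 4 / (l * l)) := by ring
    refine (norm_sum_le_of_le _ h3).trans (le_of_eq ?_)
    rw [Finset.sum_const, Finset.card_range, nsmul_eq_mul]
    field_simp
  have h7 : c₀ * ‖t‖ ^ (l - 1) ≤ ‖((l : ℂ) * t ^ (l - 1)) • coef g l‖ := by
    rw [norm_smul, norm_mul, norm_pow, Complex.norm_natCast]
    calc c₀ * ‖t‖ ^ (l - 1) = 1 * ‖t‖ ^ (l - 1) * c₀ := by ring
      _ ≤ l * ‖t‖ ^ (l - 1) * ‖coef g l‖ := by gcongr
  have h8 : C * ‖t‖ ^ l ≤ c₀ / 4 * ‖t‖ ^ (l - 1) := by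
    have : ‖t‖ ^ l = ‖t‖ * ‖t‖ ^ (l - 1) := by
      rw [← pow_succ']
      congr 1
      omega
    rw [this, ← mul_assoc]
    have : C * ‖t‖ ≤ c₀ / 4 := by
      refine le_trans ?_ ht3'
      gcongr
    gcongr
  have h9 : (t₀ / 2) ^ (l - 1) ≤ ‖t‖ ^ (l - 1) := by gcongr
  have h10 : m ≤ c₀ * ‖t‖ ^ (l - 1) := by rw [hm]; gcongr
  rw [Finset.sum_range_succ] at h1
  have h11 : ‖((l : ℂ) * t ^ (l - 1)) • coef g l‖ ≤ ‖deriv g t‖ +
      ‖deriv g t - (∑ i ∈ Finset.range l, ((i : ℂ) * t ^ (i - 1)) • coef g i + ((l : ℂ) * t ^ (l - 1)) • coef g l)‖ +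
      ‖∑ i ∈ Finset.range l, ((i : ℂ) * t ^ (i - 1)) • coef g i‖ := by
    have : ((l : ℂ) * t ^ (l - 1)) • coef g l = deriv g t -
        (deriv g t - (∑ i ∈ Finset.range l, ((i : ℂ) * t ^ (i - 1)) • coef g i + ((l : ℂ) * t ^ (l - 1)) • coef g l)) -
        ∑ i ∈ Finset.range l, ((i : ℂ) * t ^ (i - 1)) • coef g i := by abel
    conv_lhs => rw [this]
    refine (norm_sub_le _ _).trans ?_
    gcongr
    exact norm_sub_le _ _
  linarith

end Pool.Agent.Lib.NRF
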