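import Pool.Agent.Lib.MP_a75e15_an.NR.TC
import Pool.Agent.Lib.MP_a75e15_an.NR.PC

/-!
# TR: the recursion for the first nonvanishing Taylor coefficient

PROOF. `L_n = fderiv ℂ Φ (g n 0) → L = fderiv ℂ Φ P` (continuity), `‖coef (g n) l‖ ≤ R/r^l`, so it is enough that `coef (Φ ∘ g n) l - L_n (coef (g n) l) → 0`. Let `E_n(t) = Φ (g n t) - Φ (g n 0) - L_n (g n t - g n 0)`; `coef E_n l = coef (Φ ∘ g n) l - L_n (coef (g n) l)` for `l ≥ 1`
(linearity of `iteratedDeriv`; a constant has no coefficient; `L_n` commutes with derivatives: `ContinuousLinearMap.iteratedDeriv_comp..` or via `coef_hasSum` and uniqueness of the Taylor coefficients).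
With `C` from `PC_up` (for `Φ` and `R`; where `‖g n t - g n 0‖ ≤ 1`): `‖E_n(t)‖ ≤ C ‖g n t - g n 0‖²`. For `‖t‖ ≤ s`, `s ≤ r/2` small: `‖g n t - g n 0‖ ≤ ∑_{1 ≤ i < l} ‖coef (g n) i‖ s^i + C' s^l` with `C' = C'(R, r, l)` (`coef_hasSum`, `coef_le`, geometric series) `≤ o(1) + C' s^l`
(`≤ 1` for `s` small and `n` large). Cauchy (`coef_le` on `ball 0 s`): `‖coef E_n l‖ ≤ s^(-l) C (o(1) + C' s^l)²`, so `limsup_n ‖coef E_n l‖ ≤ C C'² s^l` for every small `s`; let `s → 0`.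
-/

set_option autoImplicit false

open Filter Topology

namespace Pool.Agent.Lib.NRF

private theorem TR_coef {g u : ℂ → ℂ × ℂ} {l : ℕ} (hl : 1 ≤ l) (hg : ContDiffAt ℂ l g 0) (hu : ContDiffAt ℂ l u 0)
    (L : ℂ × ℂ →L[ℂ] ℂ × ℂ) (k : ℂ × ℂ) : coef (fun t => k + (u t - L (g t))) l = coef u l - L (coef g l) := by
  unfold coef
  rw [iteratedDeriv_const_add hl]
  have hw : ContDiffAt ℂ l (fun t => L (g t)) 0 := L.contDiff.contDiffAt.comp 0 hg
  have e1 : iteratedDeriv l (fun t => u t - L (g t)) 0 = iteratedDeriv l u 0 - iteratedDeriv l (fun t => L (g t)) 0 :=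
    iteratedDeriv_fun_sub hu hw
  have e2 : iteratedDeriv l (fun t => L (g t)) 0 = L (iteratedDeriv l g 0) := by
    rw [iteratedDeriv_eq_iteratedFDeriv, iteratedDeriv_eq_iteratedFDeriv]
    have h := L.iteratedFDeriv_comp_left hg (i := l) le_rfl
    have e3 : (fun t => L (g t)) = L ∘ g := rfl
    rw [e3, h]
    rfl
  rw [e1, e2, smul_sub, map_smul]

/-- the distance from the centre -/
private theorem TR_dist {r R s : ℝ} (hr : 0 < r) (hR : 0 < R) {m : ℕ} {g : ℂ → ℂ × ℂ} (hd : DifferentiableOn ℂ g (Metric.ball 0 r))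
    (hb : ∀ t ∈ Metric.ball (0 : ℂ) r, ‖g t‖ ≤ R) (hs0 : 0 < s) (hs : s ≤ r / 2) (hs1 : s ≤ 1) {t : ℂ} (ht : t ∈ Metric.ball (0 : ℂ) s) :
    ‖g t - g 0‖ ≤ (∑ i ∈ Finset.range m, ‖coef g (i + 1)‖) + 2 * R * (s / r) ^ (m + 1) := by
  have htr : t ∈ Metric.ball (0 : ℂ) r := Metric.ball_subset_ball (by linarith) ht
  have hts : ‖t‖ ≤ s := by
    rw [mem_ball_zero_iff] at ht
    exact ht.le
  have h1 := coef_hasSum hd htr
  have h2 := (hasSum_nat_add_iff' (m + 1)).2 h1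
  have hq0 : 0 ≤ s / r := by positivity
  have hq1 : s / r ≤ 1 / 2 := by
    rw [div_le_iff₀ hr]
    linarith
  have h3 : HasSum (fun i : ℕ => R * (s / r) ^ (m + 1) * (s / r) ^ i) (R * (s / r) ^ (m + 1) * (1 - s / r)⁻¹) :=
    (hasSum_geometric_of_lt_one hq0 (by linarith)).mul_left _
  have h4 : ‖g t - ∑ i ∈ Finset.range (m + 1), t ^ i • coef g i‖ ≤ R * (s / r) ^ (m + 1) * (1 - s / r)⁻¹ := by
    refine HasSum.norm_le_of_bounded h2 h3 fun i => ?_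
    rw [norm_smul, norm_pow]
    calc ‖t‖ ^ (i + (m + 1)) * ‖coef g (i + (m + 1))‖ ≤ s ^ (i + (m + 1)) * (R / r ^ (i + (m + 1))) :=
          mul_le_mul (pow_le_pow_left₀ (norm_nonneg _) hts _) (coef_le hr hd hb _) (norm_nonneg _) (by positivity)
      _ = R * (s / r) ^ (m + 1) * (s / r) ^ i := by
          rw [mul_assoc, ← pow_add, div_pow, add_comm i (m + 1)]
          ring
  have h5 : (1 - s / r)⁻¹ ≤ 2 := by
    rw [inv_le_comm₀ (by linarith) (by norm_num)]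
    linarith
  have h6 : R * (s / r) ^ (m + 1) * (1 - s / r)⁻¹ ≤ 2 * R * (s / r) ^ (m + 1) := by
    have h7 : 0 ≤ R * (s / r) ^ (m + 1) := by positivity
    calc R * (s / r) ^ (m + 1) * (1 - s / r)⁻¹ ≤ R * (s / r) ^ (m + 1) * 2 := mul_le_mul_of_nonneg_left h5 h7
      _ = _ := by ring
  rw [Finset.sum_range_succ', pow_zero, one_smul, coef_zero] at h4
  have h8 : ‖∑ i ∈ Finset.range m, t ^ (i + 1) • coef g (i + 1)‖ ≤ ∑ i ∈ Finset.range m, ‖coef g (i + 1)‖ := by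
    refine norm_sum_le_of_le _ fun i _ => ?_
    rw [norm_smul, norm_pow]
    have h9 : ‖t‖ ^ (i + 1) ≤ 1 := pow_le_one₀ (norm_nonneg _) (hts.trans hs1)
    calc ‖t‖ ^ (i + 1) * ‖coef g (i + 1)‖ ≤ 1 * ‖coef g (i + 1)‖ := mul_le_mul_of_nonneg_right h9 (norm_nonneg _)
      _ = _ := one_mul _
  have h10 : g t - g 0 = (g t - (∑ i ∈ Finset.range m, t ^ (i + 1) • coef g (i + 1) + g 0)) + ∑ i ∈ Finset.range m, t ^ (i + 1) • coef g (i + 1) := by
    abel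
  rw [h10]
  refine (norm_add_le _ _).trans ?_
  linarith

/-- the quadratic error of one disc -/
private theorem TR_one {Φ : ℂ × ℂ → ℂ × ℂ} (hΦ : ContDiff ℂ 2 Φ) {r R s C A : ℝ} (hr : 0 < r) (hR : 0 < R) {m : ℕ} {g : ℂ → ℂ × ℂ}
    (hC0 : 0 ≤ C) (hC : ∀ x e, ‖x‖ ≤ R → ‖e‖ ≤ 1 → ‖Φ (x + e) - Φ x - fderiv ℂ Φ x e‖ ≤ C * ‖e‖ ^ 2)
    (hd : DifferentiableOn ℂ g (Metric.ball 0 r)) (hb : ∀ t ∈ Metric.ball (0 : ℂ) r, ‖g t‖ ≤ R) (hs0 : 0 < s) (hs : s ≤ r / 2) (hs1 : s ≤ 1)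
    (hA : (∑ i ∈ Finset.range m, ‖coef g (i + 1)‖) + 2 * R * (s / r) ^ (m + 1) ≤ A) (hA1 : A ≤ 1) :
    ‖coef (fun t => Φ (g t)) (m + 1) - fderiv ℂ Φ (g 0) (coef g (m + 1))‖ ≤ C * A ^ 2 / s ^ (m + 1) := by
  have hn0 : Metric.ball (0 : ℂ) r ∈ 𝓝 (0 : ℂ) := Metric.ball_mem_nhds _ hr
  have hΦd : Differentiable ℂ Φ := hΦ.differentiable (by norm_num)
  have hu : DifferentiableOn ℂ (fun t => Φ (g t)) (Metric.ball 0 r) := hΦd.comp_differentiableOn hd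
  have hga : ContDiffAt ℂ ((m + 1 : ℕ) : WithTop ℕ∞) g 0 := (hd.analyticAt hn0).contDiffAt
  have hua : ContDiffAt ℂ ((m + 1 : ℕ) : WithTop ℕ∞) (fun t => Φ (g t)) 0 := (hu.analyticAt hn0).contDiffAt
  rw [← TR_coef (by omega) hga hua (fderiv ℂ Φ (g 0)) (fderiv ℂ Φ (g 0) (g 0) - Φ (g 0))]
  have hsub : Metric.ball (0 : ℂ) s ⊆ Metric.ball (0 : ℂ) r := Metric.ball_subset_ball (by linarith)
  refine coef_le hs0 ?_ ?_ (m + 1)
  · have h1 : DifferentiableOn ℂ (fun t => (fderiv ℂ Φ (g 0)) (g t)) (Metric.ball 0 r) :=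
      (fderiv ℂ Φ (g 0)).differentiable.comp_differentiableOn hd
    exact ((differentiableOn_const _).add (hu.sub h1)).mono hsub
  · intro t ht
    have h1 := TR_dist hr hR (m := m) hd hb hs0 hs hs1 ht
    have h2 : ‖g t - g 0‖ ≤ A := h1.trans hA
    have h3 := hC (g 0) (g t - g 0) (hb 0 (Metric.mem_ball_self hr)) (h2.trans hA1)
    have h4 : g 0 + (g t - g 0) = g t := by abel
    rw [h4, map_sub] at h3
    have h5 : (fderiv ℂ Φ (g 0) (g 0) - Φ (g 0)) + (Φ (g t) - fderiv ℂ Φ (g 0) (g t)) =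
        Φ (g t) - Φ (g 0) - (fderiv ℂ Φ (g 0) (g t) - fderiv ℂ Φ (g 0) (g 0)) := by abel
    rw [h5]
    refine h3.trans (mul_le_mul_of_nonneg_left ?_ hC0)
    exact pow_le_pow_left₀ (norm_nonneg _) h2 2

theorem TR {Φ : ℂ × ℂ → ℂ × ℂ} (hΦ : ContDiff ℂ 2 Φ) {P : ℂ × ℂ} {r R : ℝ} (hr : 0 < r) (hR : 0 < R) {l : ℕ} (hl : 1 ≤ l)
    {g : ℕ → ℂ → ℂ × ℂ} (hd : ∀ n, DifferentiableOn ℂ (g n) (Metric.ball 0 r))
    (hb : ∀ n, ∀ t ∈ Metric.ball (0 : ℂ) r, ‖g n t‖ ≤ R) (h0 : Tendsto (fun n => g n 0) atTop (𝓝 P))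
    (hlow : ∀ i : ℕ, 1 ≤ i → i < l → Tendsto (fun n => coef (g n) i) atTop (𝓝 0)) :
    Tendsto (fun n => coef (fun t => Φ (g n t)) l - fderiv ℂ Φ P (coef (g n) l)) atTop (𝓝 0) := by
  obtain ⟨m, rfl⟩ : ∃ m, l = m + 1 := ⟨l - 1, by omega⟩
  obtain ⟨C, hC1, -, hC⟩ := PC_up hΦ R
  have hC0 : 0 < C := by linarith
  have hr2 : 0 < r ^ (m + 1) := by positivity
  -- the coefficients of low degree
  have hA : Tendsto (fun n => ∑ i ∈ Finset.range m, ‖coef (g n) (i + 1)‖) atTop (𝓝 0) := by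
    have h1 : Tendsto (fun n => ∑ i ∈ Finset.range m, ‖coef (g n) (i + 1)‖) atTop (𝓝 (∑ i ∈ Finset.range m, (0 : ℝ))) := by
      refine tendsto_finsetSum _ fun i hi => ?_
      have h2 := (hlow (i + 1) (by omega) (by have := Finset.mem_range.1 hi; omega)).norm
      rw [norm_zero] at h2
      exact h2
    rwa [Finset.sum_const_zero] at h1
  have key1 : Tendsto (fun n => coef (fun t => Φ (g n t)) (m + 1) - fderiv ℂ Φ (g n 0) (coef (g n) (m + 1))) atTop (𝓝 0) := by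
    rw [Metric.tendsto_atTop]
    intro ε hε
    obtain ⟨s, hs⟩ : ∃ s, s = min (min (r / 2) 1) (min (r ^ (m + 1) / (4 * R)) (ε * (r ^ (m + 1)) ^ 2 / (32 * C * R ^ 2))) := ⟨_, rfl⟩
    have hs0 : 0 < s := by
      rw [hs]
      exact lt_min (lt_min (by positivity) one_pos) (lt_min (by positivity) (by positivity))
    have hs1 : s ≤ r / 2 := by rw [hs]; exact (min_le_left _ _).trans (min_le_left _ _)
    have hs2 : s ≤ 1 := by rw [hs]; exact (min_le_left _ _).trans (min_le_right _ _)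
    have hs3 : s ≤ r ^ (m + 1) / (4 * R) := by rw [hs]; exact (min_le_right _ _).trans (min_le_left _ _)
    have hs4 : s ≤ ε * (r ^ (m + 1)) ^ 2 / (32 * C * R ^ 2) := by rw [hs]; exact (min_le_right _ _).trans (min_le_right _ _)
    -- `B = 2 R (s/r)^(m+1)`
    obtain ⟨B, hB⟩ : ∃ B, B = 2 * R * (s / r) ^ (m + 1) := ⟨_, rfl⟩
    have hB0 : 0 < B := by rw [hB]; positivity
    have hBs : B = 2 * R * s ^ (m + 1) / r ^ (m + 1) := by rw [hB, div_pow]; ring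
    have hsm : s ^ (m + 1) ≤ s := by
      have := pow_le_pow_of_le_one hs0.le hs2 (show 1 ≤ m + 1 by omega)
      rwa [pow_one] at this
    have hB1 : B ≤ 1 / 2 := by
      rw [hBs, div_le_iff₀ hr2]
      rw [le_div_iff₀ (by positivity)] at hs3
      nlinarith
    have hev : ∀ᶠ n in atTop, ∑ i ∈ Finset.range m, ‖coef (g n) (i + 1)‖ < B := hA.eventually_lt_const hB0
    obtain ⟨n0, hn0⟩ := eventually_atTop.1 hev
    refine ⟨n0, fun n hn => ?_⟩
    rw [dist_zero_right]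
    have h1 := TR_one hΦ hr hR (m := m) (A := 2 * B) hC0.le hC (hd n) (hb n) hs0 hs1 hs2
      (by rw [← hB]; linarith [hn0 n hn]) (by linarith)
    refine lt_of_le_of_lt h1 ?_
    have hsp : 0 < s ^ (m + 1) := by positivity
    have h2 : C * (2 * B) ^ 2 / s ^ (m + 1) = 16 * C * R ^ 2 * s ^ (m + 1) / (r ^ (m + 1)) ^ 2 := by
      rw [hBs]
      field_simp
      ring
    rw [h2, div_lt_iff₀ (by positivity)]
    rw [le_div_iff₀ (by positivity)] at hs4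
    have h3 : 16 * C * R ^ 2 * s ^ (m + 1) ≤ 16 * C * R ^ 2 * s := mul_le_mul_of_nonneg_left hsm (by positivity)
    have h4 : 0 < ε * (r ^ (m + 1)) ^ 2 := by positivity
    linarith
  have key2 : Tendsto (fun n => (fderiv ℂ Φ (g n 0) - fderiv ℂ Φ P) (coef (g n) (m + 1))) atTop (𝓝 0) := by
    have h1 : Tendsto (fun n => ‖fderiv ℂ Φ (g n 0) - fderiv ℂ Φ P‖ * (R / r ^ (m + 1))) atTop (𝓝 0) := by
      have h2 : Tendsto (fun n => fderiv ℂ Φ (g n 0)) atTop (𝓝 (fderiv ℂ Φ P)) :=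
        ((hΦ.continuous_fderiv (by norm_num)).tendsto P).comp h0
      have h3 := (tendsto_iff_norm_sub_tendsto_zero.1 h2).mul_const (R / r ^ (m + 1))
      rwa [zero_mul] at h3
    refine squeeze_zero_norm (fun n => ?_) h1
    exact (ContinuousLinearMap.le_opNorm _ _).trans (mul_le_mul_of_nonneg_left (coef_le hr (hd n) (hb n) _) (norm_nonneg _))
  have key3 := key1.add key2
  rw [add_zero] at key3
  refine key3.congr fun n => ?_
  rw [ContinuousLinearMap.sub_apply]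
  abel

end Pool.Agent.Lib.NRF
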